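import Pool.Agent.TH457.Ary.TriDefs

set_option autoImplicit false

/-! # Perfect matchings of graphs which are given by lists of edges -/

namespace Pool.Agent.TH457.Ary.PM

open Pool.Agent.TH457.Ary.Tri

open Classical in
/-- Has the graph with the listed edges a perfect matching, i.e. is there a map `f` of the vertices
to themselves such that `f (f u) = u` and such that `u` and `f u` are adjacent for all vertices
`u`? -/
noncomputable def matching {m v : ℕ} (x : Fin m → Edge v) : Bool :=
  decide (∃ f : Fin v → Fin v, ∀ u, f (f u) = u ∧ ∃ p, x p = (u, f u) ∨ x p = (f u, u))

end Pool.Agent.TH457.Ary.PM
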