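import Pool.Agent.TH457.Ary.Sat
import Pool.Agent.TH457.Ary.PMDefs

set_option autoImplicit false

/-! # Lower bounds for perfect matchings in lists of edges -/

namespace Pool.Agent.TH457.Ary.PM

open Finset Pool.Agent.TH697.Form Pool.Agent.TH697.Row Pool.Agent.TH457.Ary
open Pool.Agent.TH457.Ary.Sat (small small' pos rank rank_pos pos_div pos_lt blk logb_four_pow
  card_I)
open Pool.Agent.TH457.Ary.Tri (Edge Simple)

variable {m k w : ℕ}

/-- the number of the pairs -/
abbrev N (m : ℕ) := m / 2 - 2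

/-- the number of the data edges -/
abbrev M (m k : ℕ) := m / 2 - 2 - k * 2 ^ k

/-- the encoded value -/
def val (z : Fin (M m k) × Fin k → Bool) (i : Fin (M m k)) : ℕ := Nat.ofBits fun j => z (i, j)

theorem val_lt (z : Fin (M m k) × Fin k → Bool) (i : Fin (M m k)) : val z i < 2 ^ k :=
  Nat.ofBits_lt_two_pow _

theorem val_testBit (z : Fin (M m k) × Fin k → Bool) (i : Fin (M m k)) (j : Fin k) :
    (val z i).testBit j = z (i, j) := by
  unfold val
  rw [Nat.testBit_ofBits_lt _ _ j.2]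

/-- the edge with the given rank -/
def edge (z : Fin (M m k) × Fin k → Bool) (ρ : ℕ) : ℕ × ℕ :=
  if ρ < N m then (ρ, N m + 1 + ρ)
  else if ρ = N m then (2 * N m + 2, 2 * N m + 3)
  else if ρ < N m + 1 + k * 2 ^ k then
    if ((ρ - N m - 1) / k).testBit ((ρ - N m - 1) % k) then
      (M m k + (ρ - N m - 1) / k, N m + 1 + (M m k + 2 ^ k + (ρ - N m - 1) % k))
    else (ρ - N m - 1, 2 * N m + 2)
  else if h : ρ - N m - 1 - k * 2 ^ k < M m k then
    (ρ - N m - 1 - k * 2 ^ k, N m + 1 + (M m k + val z ⟨ρ - N m - 1 - k * 2 ^ k, h⟩))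
  else (ρ - N m - 1, 2 * N m + 2)

/-- the input as pairs of numbers -/
def inp (b : ℕ) (t : Fin (M m k) × Fin k) (z : Fin (M m k) × Fin k → Bool) (p : ℕ) : ℕ × ℕ :=
  if p / 2 = b then
    (if p = 2 * b then (N m, N m + 1 + t.1.val) else (M m k + 2 ^ k + t.2.val, 2 * N m + 1))
  else edge z (rank b p)

/-- the partner of a vertex in the matching -/
def mate (n i y c u : ℕ) : ℕ :=
  if u = n then n + 1 + i else
  if u = i then n + 1 + y else
  if u = y then n + 1 + c else
  if u = c then 2 * n + 1 else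
  if u < n then n + 1 + u else
  if u = n + 1 + i then n else
  if u = n + 1 + y then i else
  if u = n + 1 + c then y else
  if u = 2 * n + 1 then c else
  if u < 2 * n + 1 then u - (n + 1) else
  if u = 2 * n + 2 then 2 * n + 3 else 2 * n + 2

section

variable {n i y c : ℕ} (h1 : i < y) (h2 : y < c) (h3 : c < n)

include h1 h2 h3

theorem mate1 : mate n i y c n = n + 1 + i := by
  unfold mate
  rw [if_pos rfl]

theorem mate2 : mate n i y c i = n + 1 + y := by
  unfold mate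
  rw [if_neg (by omega), if_pos rfl]

theorem mate3 : mate n i y c y = n + 1 + c := by
  unfold mate
  rw [if_neg (by omega), if_neg (by omega), if_pos rfl]

theorem mate4 : mate n i y c c = 2 * n + 1 := by
  unfold mate
  rw [if_neg (by omega), if_neg (by omega), if_neg (by omega), if_pos rfl]

theorem mate5 {u : ℕ} (hu : u < n) (hi : u ≠ i) (hy : u ≠ y) (hc : u ≠ c) :
    mate n i y c u = n + 1 + u := by
  unfold mate
  rw [if_neg (by omega), if_neg hi, if_neg hy, if_neg hc, if_pos hu]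

theorem mate6 : mate n i y c (n + 1 + i) = n := by
  unfold mate
  rw [if_neg (by omega), if_neg (by omega), if_neg (by omega), if_neg (by omega),
    if_neg (by omega), if_pos rfl]

theorem mate7 : mate n i y c (n + 1 + y) = i := by
  unfold mate
  rw [if_neg (by omega), if_neg (by omega), if_neg (by omega), if_neg (by omega),
    if_neg (by omega), if_neg (by omega), if_pos rfl]

theorem mate8 : mate n i y c (n + 1 + c) = y := by
  unfold mate
  rw [if_neg (by omega), if_neg (by omega), if_neg (by omega), if_neg (by omega),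
    if_neg (by omega), if_neg (by omega), if_neg (by omega), if_pos rfl]

theorem mate9 : mate n i y c (2 * n + 1) = c := by
  unfold mate
  rw [if_neg (by omega), if_neg (by omega), if_neg (by omega), if_neg (by omega),
    if_neg (by omega), if_neg (by omega), if_neg (by omega), if_neg (by omega), if_pos rfl]

theorem mate10 {u : ℕ} (hu : u < n) (hi : u ≠ i) (hy : u ≠ y) (hc : u ≠ c) :
    mate n i y c (n + 1 + u) = u := by
  unfold mate
  rw [if_neg (by omega), if_neg (by omega), if_neg (by omega), if_neg (by omega),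
    if_neg (by omega), if_neg (by omega), if_neg (by omega), if_neg (by omega),
    if_neg (by omega), if_pos (by omega)]
  omega

theorem mate11 : mate n i y c (2 * n + 2) = 2 * n + 3 := by
  unfold mate
  rw [if_neg (by omega), if_neg (by omega), if_neg (by omega), if_neg (by omega),
    if_neg (by omega), if_neg (by omega), if_neg (by omega), if_neg (by omega),
    if_neg (by omega), if_neg (by omega), if_pos rfl]

theorem mate12 : mate n i y c (2 * n + 3) = 2 * n + 2 := by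
  unfold mate
  rw [if_neg (by omega), if_neg (by omega), if_neg (by omega), if_neg (by omega),
    if_neg (by omega), if_neg (by omega), if_neg (by omega), if_neg (by omega),
    if_neg (by omega), if_neg (by omega), if_neg (by omega)]

end

section

variable (hk : 3 ≤ k) (hm : 4 ^ (k + 1) ≤ m)

include hk hm

theorem facts : k * 2 ^ k + 2 ≤ m / 8 ∧ M m k + k * 2 ^ k = N m ∧ N m + 2 = m / 2 ∧
    2 ^ k + k ≤ k * 2 ^ k ∧ 1 ≤ 2 ^ k ∧ 64 ≤ m := by
  have hs := small hk
  have hs' := small' hk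
  have h2k : 1 ≤ 2 ^ k := Nat.one_le_two_pow
  have hN : N m = m / 2 - 2 := rfl
  have hM : M m k = m / 2 - 2 - k * 2 ^ k := rfl
  rw [pow_succ] at hm
  have h64 : 4 ^ 3 ≤ 4 ^ k := Nat.pow_le_pow_right (by norm_num) hk
  refine ⟨by omega, ?_, by omega, hs', h2k, by omega⟩
  omega

/-- The kinds of the edges. -/
theorem kinds (b : ℕ) (hb : b < m / 2) (t : Fin (M m k) × Fin k)
    (z : Fin (M m k) × Fin k → Bool) (p : ℕ) (hp : p < m) :
    (p = 2 * b ∧ inp b t z p = (N m, N m + 1 + t.1.val)) ∨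
    (p = 2 * b + 1 ∧ inp b t z p = (M m k + 2 ^ k + t.2.val, 2 * N m + 1)) ∨
    (p / 2 ≠ b ∧ ∃ a, a < N m ∧ rank b p = a ∧ inp b t z p = (a, N m + 1 + a)) ∨
    (p / 2 ≠ b ∧ rank b p = N m ∧ inp b t z p = (2 * N m + 2, 2 * N m + 3)) ∨
    (p / 2 ≠ b ∧ ∃ v j, v < 2 ^ k ∧ j < k ∧ v.testBit j = true ∧
      rank b p = N m + 1 + (k * v + j) ∧
      inp b t z p = (M m k + v, N m + 1 + (M m k + 2 ^ k + j))) ∨
    (p / 2 ≠ b ∧ ∃ i : Fin (M m k), rank b p = N m + 1 + k * 2 ^ k + i.val ∧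
      inp b t z p = (i.val, N m + 1 + (M m k + val z i))) ∨
    (p / 2 ≠ b ∧ ∃ u, u < 2 * N m + 2 ∧ rank b p = N m + 1 + u ∧
      inp b t z p = (u, 2 * N m + 2)) := by
  obtain ⟨f1, f2, f3, f4, f5, f6⟩ := facts hk hm
  have hk0 : 0 < k := by omega
  by_cases h : p / 2 = b
  · by_cases h2 : p = 2 * b
    · exact Or.inl ⟨h2, by simp [inp, h2]⟩
    · refine Or.inr (Or.inl ⟨by omega, ?_⟩)
      simp [inp, h, h2]
  have hr : rank b p < m - 2 := by
    unfold rank
    split_ifs <;> omega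
  have e : inp b t z p = edge z (rank b p) := by simp [inp, h]
  rw [e]
  unfold edge
  by_cases h1 : rank b p < N m
  · rw [if_pos h1]
    exact Or.inr (Or.inr (Or.inl ⟨h, rank b p, h1, rfl, rfl⟩))
  rw [if_neg h1]
  by_cases h2 : rank b p = N m
  · rw [if_pos h2]
    exact Or.inr (Or.inr (Or.inr (Or.inl ⟨h, h2, rfl⟩)))
  rw [if_neg h2]
  by_cases h3 : rank b p < N m + 1 + k * 2 ^ k
  · rw [if_pos h3]
    by_cases h4 : ((rank b p - N m - 1) / k).testBit ((rank b p - N m - 1) % k) = true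
    · rw [if_pos h4]
      have h5 := Nat.div_add_mod (rank b p - N m - 1) k
      refine Or.inr (Or.inr (Or.inr (Or.inr (Or.inl ⟨h, (rank b p - N m - 1) / k,
        (rank b p - N m - 1) % k, Nat.div_lt_of_lt_mul (by omega), Nat.mod_lt _ hk0, h4, ?_,
        rfl⟩))))
      rw [h5]
      omega
    · rw [if_neg h4]
      refine Or.inr (Or.inr (Or.inr (Or.inr (Or.inr (Or.inr ⟨h, rank b p - N m - 1, by omega,
        by omega, rfl⟩)))))
  rw [if_neg h3]
  by_cases h4 : rank b p - N m - 1 - k * 2 ^ k < M m k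
  · rw [dif_pos h4]
    exact Or.inr (Or.inr (Or.inr (Or.inr (Or.inr (Or.inl ⟨h,
      ⟨rank b p - N m - 1 - k * 2 ^ k, h4⟩, by simp only; omega, rfl⟩)))))
  · rw [dif_neg h4]
    exact Or.inr (Or.inr (Or.inr (Or.inr (Or.inr (Or.inr ⟨h, rank b p - N m - 1, by omega,
        by omega, rfl⟩)))))

theorem bounds (b : ℕ) (hb : b < m / 2) (t : Fin (M m k) × Fin k)
    (z : Fin (M m k) × Fin k → Bool) (p : ℕ) (hp : p < m) :
    (inp b t z p).1 < (inp b t z p).2 ∧ (inp b t z p).2 < 2 * (m / 2) := by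
  obtain ⟨f1, f2, f3, f4, f5, f6⟩ := facts hk hm
  have ht1 := t.1.2
  have ht2 := t.2.2
  rcases kinds hk hm b hb t z p hp with ⟨-, h⟩ | ⟨-, h⟩ | ⟨-, a, h1, -, h⟩ | ⟨-, -, h⟩ |
    ⟨-, v, j, h1, h2, -, -, h⟩ | ⟨-, i, -, h⟩ | ⟨-, u, h1, -, h⟩ <;> rw [h] <;> simp only
  · omega
  · omega
  · omega
  · omega
  · omega
  · have := val_lt z i
    have := i.2
    omega
  · omega

omit hk hm in
theorem rank_inj (b p p' : ℕ) (h : p / 2 ≠ b) (h' : p' / 2 ≠ b) (hr : rank b p = rank b p') :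
    p = p' := by
  unfold rank at hr
  split_ifs at hr <;> omega

theorem inj (b : ℕ) (hb : b < m / 2) (t : Fin (M m k) × Fin k)
    (z : Fin (M m k) × Fin k → Bool) (p p' : ℕ) (hp : p < m) (hp' : p' < m)
    (h : inp b t z p = inp b t z p') : p = p' := by
  obtain ⟨f1, f2, f3, f4, f5, f6⟩ := facts hk hm
  have ht1 := t.1.2
  have ht2 := t.2.2
  rcases kinds hk hm b hb t z p hp with ⟨a1, e⟩ | ⟨a1, e⟩ | ⟨a1, a, h1, r, e⟩ | ⟨a1, r, e⟩ |
    ⟨a1, v, j, h1, h2, -, r, e⟩ | ⟨a1, i, r, e⟩ | ⟨a1, u, h1, r, e⟩ <;>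
  rcases kinds hk hm b hb t z p' hp' with ⟨a1', e'⟩ | ⟨a1', e'⟩ | ⟨a1', a', h1', r', e'⟩ |
    ⟨a1', r', e'⟩ | ⟨a1', v', j', h1', h2', -, r', e'⟩ | ⟨a1', i', r', e'⟩ |
    ⟨a1', u', h1', r', e'⟩ <;>
  rw [e, e', Prod.mk.injEq] at h <;>
  first
  | omega
  | (have := i.2; have := val_lt z i; have := i'.2; have := val_lt z i'
     first
     | omega
     | (exact rank_inj b p p' a1 a1' (by omega)))
  | (have := i.2; have := val_lt z i; omega)
  | (have := i'.2; have := val_lt z i'; omega)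
  | (have hv : v = v' := by omega
     have hj : j = j' := by omega
     exact rank_inj b p p' a1 a1' (by rw [r, r', hv, hj]))
  | (exact rank_inj b p p' a1 a1' (by omega))

/-- A matching uses the edges which ask. -/
theorem matching_iff (b : ℕ) (hb : b < m / 2) (t : Fin (M m k) × Fin k)
    (z : Fin (M m k) × Fin k → Bool) :
    (∃ f : ℕ → ℕ, ∀ u < 2 * (m / 2), f u < 2 * (m / 2) ∧ f (f u) = u ∧
      ∃ p < m, inp b t z p = (u, f u) ∨ inp b t z p = (f u, u)) ↔ z t = true := by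
  obtain ⟨f1, f2, f3, f4, f5, f6⟩ := facts hk hm
  have ht1 := t.1.2
  have ht2 := t.2.2
  have hv := val_lt z t.1
  constructor
  · rintro ⟨f, hf⟩
    -- the neighbours of a vertex `u`
    have hH' : f (2 * N m + 3) = 2 * N m + 2 := by
      obtain ⟨g1, g2, p, hp, h⟩ := hf (2 * N m + 3) (by omega)
      rcases kinds hk hm b hb t z p hp with ⟨-, e⟩ | ⟨-, e⟩ | ⟨-, a, h1, -, e⟩ | ⟨-, -, e⟩ |
        ⟨-, v, j, h1, h2, -, -, e⟩ | ⟨-, i, -, e⟩ | ⟨-, u, h1, -, e⟩ <;>
      rw [e, Prod.mk.injEq, Prod.mk.injEq] at h <;>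
      first
      | omega
      | (have := i.2; have := val_lt z i; omega)
    have hH : f (2 * N m + 2) = 2 * N m + 3 := by
      have := (hf (2 * N m + 3) (by omega)).2.1
      rwa [hH'] at this
    have notH : ∀ u, u < 2 * (m / 2) → u ≠ 2 * N m + 3 → f u ≠ 2 * N m + 2 := by
      intro u hu hne h
      have := (hf u hu).2.1
      rw [h, hH] at this
      omega
    have hA : f (N m) = N m + 1 + t.1.val := by
      have h0 := notH (N m) (by omega) (by omega)
      obtain ⟨g1, g2, p, hp, h⟩ := hf (N m) (by omega)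
      rcases kinds hk hm b hb t z p hp with ⟨-, e⟩ | ⟨-, e⟩ | ⟨-, a, h1, -, e⟩ | ⟨-, -, e⟩ |
        ⟨-, v, j, h1, h2, -, -, e⟩ | ⟨-, i, -, e⟩ | ⟨-, u, h1, -, e⟩ <;>
      rw [e, Prod.mk.injEq, Prod.mk.injEq] at h <;>
      first
      | omega
      | (have := i.2; have := val_lt z i; omega)
    have hA' : f (N m + 1 + t.1.val) = N m := by
      have := (hf (N m) (by omega)).2.1
      rwa [hA] at this
    have hS : f t.1.val = N m + 1 + (M m k + val z t.1) := by
      have h0 := notH t.1.val (by omega) (by omega)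
      have h00 : f t.1.val ≠ N m + 1 + t.1.val := by
        intro h
        have := (hf t.1.val (by omega)).2.1
        rw [h, hA'] at this
        omega
      obtain ⟨g1, g2, p, hp, h⟩ := hf t.1.val (by omega)
      rcases kinds hk hm b hb t z p hp with ⟨-, e⟩ | ⟨-, e⟩ | ⟨-, a, h1, -, e⟩ | ⟨-, -, e⟩ |
        ⟨-, v, j, h1, h2, -, -, e⟩ | ⟨-, i, -, e⟩ | ⟨-, u, h1, -, e⟩ <;>
      rw [e, Prod.mk.injEq, Prod.mk.injEq] at h
      · omega
      · omega
      · omega
      · omega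
      · omega
      · rcases h with ⟨h3, h4⟩ | ⟨h3, h4⟩
        · have : i = t.1 := Fin.ext h3
          rw [← h4, this]
        · omega
      · omega
    have hS' : f (N m + 1 + (M m k + val z t.1)) = t.1.val := by
      have := (hf t.1.val (by omega)).2.1
      rwa [hS] at this
    have hY : ∃ j, j < k ∧ (val z t.1).testBit j = true ∧
        f (M m k + val z t.1) = N m + 1 + (M m k + 2 ^ k + j) := by
      have h0 := notH (M m k + val z t.1) (by omega) (by omega)
      have h00 : f (M m k + val z t.1) ≠ N m + 1 + (M m k + val z t.1) := by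
        intro h
        have := (hf (M m k + val z t.1) (by omega)).2.1
        rw [h, hS'] at this
        omega
      obtain ⟨g1, g2, p, hp, h⟩ := hf (M m k + val z t.1) (by omega)
      rcases kinds hk hm b hb t z p hp with ⟨-, e⟩ | ⟨-, e⟩ | ⟨-, a, h1, -, e⟩ | ⟨-, -, e⟩ |
        ⟨-, v, j, h1, h2, h3, -, e⟩ | ⟨-, i, -, e⟩ | ⟨-, u, h1, -, e⟩ <;>
      rw [e, Prod.mk.injEq, Prod.mk.injEq] at h
      · omega
      · omega
      · omega
      · omega
      · rcases h with ⟨h4, h5⟩ | ⟨h4, h5⟩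
        · have : v = val z t.1 := by omega
          exact ⟨j, h2, by rw [← this]; exact h3, by omega⟩
        · omega
      · have := i.2
        have := val_lt z i
        omega
      · omega
    obtain ⟨j, hj, hbit, hYj⟩ := hY
    have hY' : f (N m + 1 + (M m k + 2 ^ k + j)) = M m k + val z t.1 := by
      have := (hf (M m k + val z t.1) (by omega)).2.1
      rwa [hYj] at this
    have hB : j = t.2.val := by
      have h0 := notH (M m k + 2 ^ k + j) (by omega) (by omega)
      have h00 : f (M m k + 2 ^ k + j) ≠ N m + 1 + (M m k + 2 ^ k + j) := by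
        intro h
        have := (hf (M m k + 2 ^ k + j) (by omega)).2.1
        rw [h, hY'] at this
        omega
      obtain ⟨g1, g2, p, hp, h⟩ := hf (M m k + 2 ^ k + j) (by omega)
      rcases kinds hk hm b hb t z p hp with ⟨-, e⟩ | ⟨-, e⟩ | ⟨-, a, h1, -, e⟩ | ⟨-, -, e⟩ |
        ⟨-, v, j', h1, h2, h3, -, e⟩ | ⟨-, i, -, e⟩ | ⟨-, u, h1, -, e⟩ <;>
      rw [e, Prod.mk.injEq, Prod.mk.injEq] at h
      · omega
      · omega
      · omega
      · omega
      · omega
      · have := i.2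
        have := val_lt z i
        omega
      · omega
    rw [hB, val_testBit] at hbit
    exact hbit
  · intro hz
    -- the four special left vertices and their partners
    obtain ⟨i, hi⟩ : ∃ i, i = t.1.val := ⟨_, rfl⟩
    obtain ⟨y, hy⟩ : ∃ y, y = M m k + val z t.1 := ⟨_, rfl⟩
    obtain ⟨c, hc⟩ : ∃ c, c = M m k + 2 ^ k + t.2.val := ⟨_, rfl⟩
    have hn1 : i < y := by omega
    have hn2 : y < c := by omega
    have hn3 : c < N m := by omega
    have hrank : ∀ ρ, ρ < m - 2 → inp b t z (pos b ρ) = edge z ρ := by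
      intro ρ hρ
      simp only [inp, pos_div, if_false, rank_pos]
    -- the edges
    have eA : ∃ p < m, inp b t z p = (N m, N m + 1 + i) := by
      refine ⟨2 * b, by omega, ?_⟩
      have : 2 * b / 2 = b := by omega
      simp [inp, hi]
    have eZ : ∃ p < m, inp b t z p = (c, 2 * N m + 1) := by
      refine ⟨2 * b + 1, by omega, ?_⟩
      have h1 : (2 * b + 1) / 2 = b := by omega
      have h2 : ¬ 2 * b + 1 = 2 * b := by omega
      simp only [inp, h1, h2, if_true, if_false]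
      rw [hc]
    have eD : ∃ p < m, inp b t z p = (i, N m + 1 + y) := by
      have hρ : N m + 1 + k * 2 ^ k + i < m - 2 := by omega
      refine ⟨pos b (N m + 1 + k * 2 ^ k + i), pos_lt b _ m hρ, ?_⟩
      rw [hrank _ hρ]
      unfold edge
      have e4 : N m + 1 + k * 2 ^ k + i - N m - 1 - k * 2 ^ k = t.1.val := by omega
      have e3 : (⟨N m + 1 + k * 2 ^ k + i - N m - 1 - k * 2 ^ k, by omega⟩ : Fin (M m k)) = t.1 :=
        Fin.ext e4
      rw [if_neg (by omega), if_neg (by omega), if_neg (by omega), dif_pos (by omega), e3, e4,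
        hi, hy]
    have eF : ∃ p < m, inp b t z p = (y, N m + 1 + c) := by
      have h5 : k * val z t.1 + t.2.val < k * 2 ^ k := by
        have : k * (val z t.1 + 1) ≤ k * 2 ^ k := Nat.mul_le_mul_left _ hv
        have e : k * (val z t.1 + 1) = k * val z t.1 + k := by ring
        omega
      have hρ : N m + 1 + (k * val z t.1 + t.2.val) < m - 2 := by omega
      refine ⟨pos b (N m + 1 + (k * val z t.1 + t.2.val)), pos_lt b _ m hρ, ?_⟩
      rw [hrank _ hρ]
      unfold edge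
      have hk0 : 0 < k := by omega
      have e4 : N m + 1 + (k * val z t.1 + t.2.val) - N m - 1 = k * val z t.1 + t.2.val := by
        omega
      have e6 : (k * val z t.1 + t.2.val) / k = val z t.1 := by
        rw [Nat.mul_add_div hk0, Nat.div_eq_of_lt ht2]; simp
      have e7 : (k * val z t.1 + t.2.val) % k = t.2.val := by
        rw [Nat.mul_add_mod, Nat.mod_eq_of_lt ht2]
      have hz' : z (t.1, t.2) = true := hz
      rw [if_neg (by omega), if_neg (by omega), if_pos (by omega), e4, e6, e7, val_testBit,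
        if_pos hz', hy, hc]
    have eS : ∀ a < N m, ∃ p < m, inp b t z p = (a, N m + 1 + a) := by
      intro a ha
      refine ⟨pos b a, pos_lt b _ m (by omega), ?_⟩
      rw [hrank _ (by omega)]
      unfold edge
      rw [if_pos ha]
    have eH : ∃ p < m, inp b t z p = (2 * N m + 2, 2 * N m + 3) := by
      refine ⟨pos b (N m), pos_lt b _ m (by omega), ?_⟩
      rw [hrank _ (by omega)]
      unfold edge
      rw [if_neg (by omega), if_pos rfl]
    obtain ⟨n, hn⟩ : ∃ n, n = N m := ⟨_, rfl⟩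
    rw [← hn] at hn3 f2 f3 eA eZ eD eF eS eH
    obtain ⟨f, hf⟩ : ∃ f, f = mate n i y c := ⟨_, rfl⟩
    have g1 : f n = n + 1 + i := by rw [hf]; exact mate1 hn1 hn2 hn3
    have g2 : f i = n + 1 + y := by rw [hf]; exact mate2 hn1 hn2 hn3
    have g3 : f y = n + 1 + c := by rw [hf]; exact mate3 hn1 hn2 hn3
    have g4 : f c = 2 * n + 1 := by rw [hf]; exact mate4 hn1 hn2 hn3
    have g5 : ∀ u, u < n → u ≠ i → u ≠ y → u ≠ c → f u = n + 1 + u := by
      rw [hf]; exact fun u => mate5 hn1 hn2 hn3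
    have g6 : f (n + 1 + i) = n := by rw [hf]; exact mate6 hn1 hn2 hn3
    have g7 : f (n + 1 + y) = i := by rw [hf]; exact mate7 hn1 hn2 hn3
    have g8 : f (n + 1 + c) = y := by rw [hf]; exact mate8 hn1 hn2 hn3
    have g9 : f (2 * n + 1) = c := by rw [hf]; exact mate9 hn1 hn2 hn3
    have g10 : ∀ u, u < n → u ≠ i → u ≠ y → u ≠ c → f (n + 1 + u) = u := by
      rw [hf]; exact fun u => mate10 hn1 hn2 hn3
    have g11 : f (2 * n + 2) = 2 * n + 3 := by rw [hf]; exact mate11 hn1 hn2 hn3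
    have g12 : f (2 * n + 3) = 2 * n + 2 := by rw [hf]; exact mate12 hn1 hn2 hn3
    refine ⟨f, fun u hu => ?_⟩
    have hu' : u < 2 * n + 4 := by omega
    have hcases : u = n ∨ u = i ∨ u = y ∨ u = c ∨ (u < n ∧ u ≠ i ∧ u ≠ y ∧ u ≠ c) ∨
        u = n + 1 + i ∨ u = n + 1 + y ∨ u = n + 1 + c ∨ u = 2 * n + 1 ∨
        (∃ u', u' < n ∧ u' ≠ i ∧ u' ≠ y ∧ u' ≠ c ∧ u = n + 1 + u') ∨ u = 2 * n + 2 ∨
        u = 2 * n + 3 := by
      by_cases c1 : u ≤ n
      · omega
      by_cases c2 : u = n + 1 + i ∨ u = n + 1 + y ∨ u = n + 1 + c ∨ 2 * n + 1 ≤ u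
      · omega
      · exact Or.inr (Or.inr (Or.inr (Or.inr (Or.inr (Or.inr (Or.inr (Or.inr (Or.inr (Or.inl
          ⟨u - (n + 1), by omega, by omega, by omega, by omega, by omega⟩)))))))))
    rcases hcases with h | h | h | h | ⟨h1, h2, h3, h4⟩ | h | h | h | h | ⟨u', h1, h2, h3, h4, h⟩ |
      h | h
    · rw [h, g1]
      obtain ⟨p, hp, e⟩ := eA
      exact ⟨by omega, g6, p, hp, Or.inl e⟩
    · rw [h, g2]
      obtain ⟨p, hp, e⟩ := eD
      exact ⟨by omega, g7, p, hp, Or.inl e⟩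
    · rw [h, g3]
      obtain ⟨p, hp, e⟩ := eF
      exact ⟨by omega, g8, p, hp, Or.inl e⟩
    · rw [h, g4]
      obtain ⟨p, hp, e⟩ := eZ
      exact ⟨by omega, g9, p, hp, Or.inl e⟩
    · rw [g5 u h1 h2 h3 h4]
      obtain ⟨p, hp, e⟩ := eS u h1
      exact ⟨by omega, g10 u h1 h2 h3 h4, p, hp, Or.inl e⟩
    · rw [h, g6]
      obtain ⟨p, hp, e⟩ := eA
      exact ⟨by omega, g1, p, hp, Or.inr e⟩
    · rw [h, g7]
      obtain ⟨p, hp, e⟩ := eD
      exact ⟨by omega, g2, p, hp, Or.inr e⟩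
    · rw [h, g8]
      obtain ⟨p, hp, e⟩ := eF
      exact ⟨by omega, g3, p, hp, Or.inr e⟩
    · rw [h, g9]
      obtain ⟨p, hp, e⟩ := eZ
      exact ⟨by omega, g4, p, hp, Or.inr e⟩
    · rw [h, g10 u' h1 h2 h3 h4]
      obtain ⟨p, hp, e⟩ := eS u' h1
      exact ⟨by omega, g5 u' h1 h2 h3 h4, p, hp, Or.inr e⟩
    · rw [h, g11]
      obtain ⟨p, hp, e⟩ := eH
      exact ⟨by omega, g12, p, hp, Or.inl e⟩
    · rw [h, g12]
      obtain ⟨p, hp, e⟩ := eH
      exact ⟨by omega, g11, p, hp, Or.inr e⟩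

end

/-- an edge with vertices below `2 (m / 2)` -/
def toEdge (m : ℕ) (hm : 2 ≤ m) (e : ℕ × ℕ) : Edge (2 * (m / 2)) :=
  haveI : NeZero (2 * (m / 2)) := ⟨by omega⟩
  (Fin.ofNat (2 * (m / 2)) e.1, Fin.ofNat (2 * (m / 2)) e.2)

theorem toEdge_val (hm : 2 ≤ m) (e : ℕ × ℕ) (h1 : e.1 < 2 * (m / 2)) (h2 : e.2 < 2 * (m / 2)) :
    ((toEdge m hm e).1.val, (toEdge m hm e).2.val) = e := by
  simp [toEdge, Fin.ofNat, Nat.mod_eq_of_lt h1, Nat.mod_eq_of_lt h2]

theorem queries (hk : 3 ≤ k) (hm : 4 ^ (k + 1) ≤ m) (b : ℕ) (hb : b < m / 2) :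
    Queries (D := fun _ : Fin m => Edge (2 * (m / 2))) (Fin (M m k) × Fin k) (blk m) Simple
      matching b := by
  classical
  have h2m : 2 ≤ m := by
    have := (facts hk hm).2.2.2.2.2
    omega
  have hval : ∀ t (z : Fin (M m k) × Fin k → Bool) (p' : Fin m),
      ((toEdge m h2m (inp b t z p'.val)).1.val, (toEdge m h2m (inp b t z p'.val)).2.val) =
        inp b t z p'.val := by
    intro t z p'
    have hb := bounds hk hm b hb t z p'.val p'.2
    exact toEdge_val h2m _ (by omega) hb.2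
  have key : ∀ t (z : Fin (M m k) × Fin k → Bool) (p' : Fin m),
      merge (D := fun _ : Fin m => Edge (2 * (m / 2))) (blk m) b
        (fun p' => toEdge m h2m (inp b t (fun _ => false) p'.val))
        (fun p' => toEdge m h2m (edge z (rank b p'.val))) p' = toEdge m h2m (inp b t z p'.val) := by
    intro t z p'
    unfold merge
    by_cases h : p'.val / 2 = b
    · have h' : blk m p' = b := h
      rw [if_pos h']
      simp only [inp, if_pos h]
    · have h' : ¬ blk m p' = b := h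
      rw [if_neg h']
      simp only [inp, if_neg h]
  refine ⟨fun _ => 0, fun t _ p' => toEdge m h2m (inp b t (fun _ => false) p'.val),
    fun z p' => toEdge m h2m (edge z (rank b p'.val)), fun _ _ _ _ => rfl, ?_, ?_⟩
  · intro t z
    refine ⟨fun p' => ?_, fun p' p'' h => ?_⟩
    · rw [key]
      have hb := bounds hk hm b hb t z p'.val p'.2
      have hv := hval t z p'
      rw [Prod.ext_iff] at hv
      rw [Fin.lt_def]
      simp only at hv
      omega
    · rw [key, key] at h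
      apply Fin.ext
      apply inj hk hm b hb t z _ _ p'.2 p''.2
      rw [← hval t z p', ← hval t z p'', h]
  · intro t z
    unfold matching
    rw [Bool.eq_iff_iff, decide_eq_true_iff, ← matching_iff hk hm b hb t z]
    simp only [key]
    constructor
    · rintro ⟨f, hf⟩
      refine ⟨fun u => if h : u < 2 * (m / 2) then (f ⟨u, h⟩).val else 0, fun u hu => ?_⟩
      obtain ⟨h1, p, h2⟩ := hf ⟨u, hu⟩
      have h3 : (f ⟨u, hu⟩).val < 2 * (m / 2) := (f ⟨u, hu⟩).2
      simp only [dif_pos hu, dif_pos h3]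
      refine ⟨h3, ?_, p.val, p.2, ?_⟩
      · rw [Fin.eta, h1]
      · rw [← hval t z p]
        rcases h2 with h2 | h2
        · exact Or.inl (by rw [h2])
        · exact Or.inr (by rw [h2])
    · rintro ⟨f, hf⟩
      refine ⟨fun u => ⟨f u.val, (hf u.val u.2).1⟩, fun u => ?_⟩
      obtain ⟨h0, h1, p, hp, h2⟩ := hf u.val u.2
      refine ⟨Fin.ext h1, ⟨p, hp⟩, ?_⟩
      have v := hval t z ⟨p, hp⟩
      simp only at v
      rcases h2 with h2 | h2
      · left
        rw [h2, Prod.mk.injEq] at v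
        simp only
        rw [h2]
        exact Prod.ext (Fin.ext v.1) (Fin.ext v.2)
      · right
        rw [h2, Prod.mk.injEq] at v
        simp only
        rw [h2]
        exact Prod.ext (Fin.ext v.1) (Fin.ext v.2)

/-! ## the bounds -/

theorem exists_k (hm : 1024 ≤ m) : ∃ k, 4 ≤ k ∧ 4 ^ (k + 1) ≤ m ∧ m < 4 ^ (k + 2) := by
  have h5 : 5 ≤ Nat.log 4 m := Nat.le_log_of_pow_le (by norm_num) (by norm_num; omega)
  refine ⟨Nat.log 4 m - 1, by omega, ?_, ?_⟩
  · rw [show Nat.log 4 m - 1 + 1 = Nat.log 4 m by omega]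
    exact Nat.pow_log_le_self 4 (by omega)
  · rw [show Nat.log 4 m - 1 + 2 = Nat.log 4 m + 1 by omega]
    exact Nat.lt_pow_succ_log_self (by norm_num) m

theorem card_T (hk : 3 ≤ k) (hm : 4 ^ (k + 1) ≤ m) :
    (m : ℝ) * k / 3 ≤ (Fintype.card (Fin (M m k) × Fin k) : ℝ) := by
  obtain ⟨f1, f2, f3, f4, f5, f6⟩ := facts hk hm
  have h1 : m ≤ 3 * M m k := by
    have : M m k = m / 2 - 2 - k * 2 ^ k := rfl
    omega
  have h2 : (m : ℝ) ≤ 3 * (M m k : ℝ) := by exact_mod_cast h1
  rw [Fintype.card_prod, Fintype.card_fin, Fintype.card_fin, Nat.cast_mul]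
  have hk0 : (0 : ℝ) ≤ k := Nat.cast_nonneg k
  nlinarith

theorem logb_q (hk : 4 ≤ k) (hm0 : 0 < m) (hm : m < 4 ^ (k + 2)) :
    Real.logb 2 ((m ^ 2 : ℕ) : ℝ) ≤ 6 * k := by
  have h1 : ((m ^ 2 : ℕ) : ℝ) ≤ (4 : ℝ) ^ (2 * k + 4) := by
    have h2 : m ^ 2 ≤ (4 ^ (k + 2)) ^ 2 := Nat.pow_le_pow_left hm.le 2
    have h3 : m ^ 2 ≤ 4 ^ (2 * k + 4) := by
      calc m ^ 2 ≤ (4 ^ (k + 2)) ^ 2 := h2
        _ = 4 ^ (2 * k + 4) := by ring
    exact_mod_cast h3
  have h4 := Real.logb_le_logb_of_le (by norm_num : (1 : ℝ) < 2)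
    (by exact_mod_cast (by positivity : 0 < m ^ 2)) h1
  rw [logb_four_pow] at h4
  push_cast at h4 ⊢
  have hk' : (4 : ℝ) ≤ k := by exact_mod_cast hk
  linarith

theorem logb_s {s : ℕ} (hk : 4 ≤ k) (hm : m < 4 ^ (k + 2)) (hs : s < m ^ 2) :
    Real.logb 2 ((s : ℝ) + 2) ≤ 6 * k := by
  have h1 : ((s : ℝ) + 2) ≤ (4 : ℝ) ^ (2 * k + 4) := by
    have h2 : (m + 1) ^ 2 ≤ (4 ^ (k + 2)) ^ 2 := Nat.pow_le_pow_left (by omega) 2
    have h3 : s + 2 ≤ 4 ^ (2 * k + 4) := by
      have h4 : (4 ^ (k + 2)) ^ 2 = 4 ^ (2 * k + 4) := by ring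
      have h5 : (m + 1) ^ 2 = m ^ 2 + 2 * m + 1 := by ring
      have h6 : 0 < m := by
        by_contra h0
        have : m = 0 := by omega
        subst this
        simp at hs
      omega
    exact_mod_cast h3
  have h4 := Real.logb_le_logb_of_le (by norm_num : (1 : ℝ) < 2) (by positivity) h1
  rw [logb_four_pow] at h4
  push_cast at h4
  have hk' : (4 : ℝ) ≤ k := by exact_mod_cast hk
  linarith

/-- the arithmetic for formulas -/
theorem arith_formula {m k w I N L E : ℝ} (hm : 1024 ≤ m) (hk : 4 ≤ k) (hw : 1 ≤ w)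
    (hI : (m - 1) / 2 ≤ I) (hN : m * k / 3 ≤ N) (hL : L ≤ 6 * k) (hE : 0 ≤ E)
    (h : I * (49 / 600 * N - 1) ≤ w * (4 + (w - 1) * L) * E) : m ^ 2 ≤ 500 * w ^ 2 * E := by
  have h1 : m * k / 38 ≤ 49 / 600 * N - 1 := by nlinarith
  have h2 : (m - 1) / 2 * (m * k / 38) ≤ I * (49 / 600 * N - 1) := by
    apply mul_le_mul hI h1 (by positivity)
    linarith
  have h3 : w * (4 + (w - 1) * L) ≤ 6 * k * w ^ 2 := by
    have h4 : (w - 1) * L ≤ (w - 1) * (6 * k) := mul_le_mul_of_nonneg_left hL (by linarith)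
    have h5 : 4 + (w - 1) * L ≤ 6 * k * w := by nlinarith
    calc w * (4 + (w - 1) * L) ≤ w * (6 * k * w) := mul_le_mul_of_nonneg_left h5 (by linarith)
      _ = _ := by ring
  have h4 := mul_le_mul_of_nonneg_right h3 hE
  have h5 : k * m ^ 2 ≤ k * (500 * w ^ 2 * E) := by
    have h6 : (399 / 400 : ℝ) * m ≤ m - 1 := by linarith
    have h7 : (399 / 400 : ℝ) * m * (m * k) ≤ (m - 1) * (m * k) :=
      mul_le_mul_of_nonneg_right h6 (by positivity)
    have h8 : (0 : ℝ) ≤ k * w ^ 2 * E := by positivity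
    nlinarith
  exact le_of_mul_le_mul_left h5 (by linarith)

/-- the arithmetic for branching programs -/
theorem arith_program {m k w I N L g s : ℝ} (hm : 1024 ≤ m) (hk : 4 ≤ k) (hw : 1 ≤ w)
    (hI : (m - 1) / 2 ≤ I) (hN : m * k / 3 ≤ N) (hL : L ≤ 6 * k) (hg : g ≤ 6 * k) (hs : 0 ≤ s)
    (h : I * (49 / 600 * N - g) ≤ w * (2 * g + (w - 1) * L) * s) : m ^ 2 ≤ 1200 * w ^ 2 * s := by
  have h1 : m * k / 48 ≤ 49 / 600 * N - g := by nlinarith
  have h2 : (m - 1) / 2 * (m * k / 48) ≤ I * (49 / 600 * N - g) := by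
    apply mul_le_mul hI h1 (by positivity)
    linarith
  have h3 : w * (2 * g + (w - 1) * L) ≤ 12 * k * w ^ 2 := by
    have h4 : (w - 1) * L ≤ (w - 1) * (6 * k) := mul_le_mul_of_nonneg_left hL (by linarith)
    have h5 : 2 * g + (w - 1) * L ≤ 12 * k * w := by nlinarith
    calc w * (2 * g + (w - 1) * L) ≤ w * (12 * k * w) := mul_le_mul_of_nonneg_left h5 (by linarith)
      _ = _ := by ring
  have h4 := mul_le_mul_of_nonneg_right h3 hs
  have h5 : k * m ^ 2 ≤ k * (1200 * w ^ 2 * s) := by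
    have h6 : (399 / 400 : ℝ) * m ≤ m - 1 := by linarith
    have h7 : (399 / 400 : ℝ) * m * (m * k) ≤ (m - 1) * (m * k) :=
      mul_le_mul_of_nonneg_right h6 (by positivity)
    have h8 : (0 : ℝ) ≤ k * w ^ 2 * s := by positivity
    nlinarith
  exact le_of_mul_le_mul_left h5 (by linarith)

theorem formula_bound (hm : 1024 ≤ m) (hw : 1 ≤ w) {Ω : Type} [Fintype Ω] (μ : Ω → ℝ)
    (hμ : IsProb μ) (F : Ω → Fml (Fin m) (fun _ => Edge (2 * (m / 2))) w (m ^ 2))
    (hF : ApproximatesOn μ (fun ω => (F ω).eval) Simple matching) :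
    (m : ℝ) ^ 2 ≤ 500 * w ^ 2 * expSize μ F := by
  obtain ⟨k, hk, hk1, hk2⟩ := exists_k hm
  have hq : 0 < m ^ 2 := pow_pos (by omega) 2
  have h := formula_lower μ hμ F Simple matching hF hq hw (blk m)
    (range (m / 2)) (T := Fin (M m k) × Fin k)
    (fun b hb => queries (by omega) hk1 b (mem_range.1 hb))
  exact arith_formula (by exact_mod_cast hm) (by exact_mod_cast hk) (by exact_mod_cast hw)
    (card_I m) (card_T (by omega) hk1) (logb_q (m := m) hk (by omega) hk2)
    (sum_nonneg fun ω _ => mul_nonneg (hμ.nonneg ω) (Nat.cast_nonneg _)) h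

theorem program_bound (hm : 1024 ≤ m) (hw : 1 ≤ w) {Ω : Type} [Fintype Ω] (μ : Ω → ℝ)
    (hμ : IsProb μ) (s : ℕ) (B : Ω → Program (Fin m) (fun _ => Edge (2 * (m / 2))) w (m ^ 2) s)
    (hB : ApproximatesOn μ (fun ω => (B ω).eval) Simple matching) :
    (m : ℝ) ^ 2 ≤ 1200 * w ^ 2 * s := by
  have hw' : (1 : ℝ) ≤ w := by exact_mod_cast hw
  by_cases hs : m ^ 2 ≤ s
  · have h1 : (m : ℝ) ^ 2 ≤ s := by exact_mod_cast hs
    have h2 : (1 : ℝ) ≤ w ^ 2 := by nlinarith
    have h3 : (0 : ℝ) ≤ s := Nat.cast_nonneg s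
    nlinarith
  obtain ⟨k, hk, hk1, hk2⟩ := exists_k hm
  have hq : 0 < m ^ 2 := pow_pos (by omega) 2
  have h := program_lower μ hμ B Simple matching hB hq hw (blk m)
    (range (m / 2)) (T := Fin (M m k) × Fin k)
    (fun b hb => queries (by omega) hk1 b (mem_range.1 hb))
  exact arith_program (by exact_mod_cast hm) (by exact_mod_cast hk) hw'
    (card_I m) (card_T (by omega) hk1) (logb_q (m := m) hk (by omega) hk2) (logb_s hk hk2 (by omega))
    (Nat.cast_nonneg s) h

end Pool.Agent.TH457.Ary.PM
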