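import Pool.Agent.TH457.Ary.Defs

set_option autoImplicit false

/-! # Disjunctions of tests -/

namespace Pool.Agent.TH457.Ary

open Finset

variable {ι : Type} {D : ι → Type} {w q : ℕ}

/-- the disjunction of a nonempty list of tests -/
theorem exists_fml (τ : Test ι D w q) (L : List (Test ι D w q)) :
    ∃ F : Fml ι D w q, F.size = L.length + 1 ∧
      ∀ x, F.eval x = (τ :: L).any (fun τ => τ.eval x) := by
  induction L generalizing τ with
  | nil => exact ⟨.leaf τ, rfl, fun x => by simp [Fml.eval]⟩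
  | cons σ L ih =>
    obtain ⟨F, h1, h2⟩ := ih σ
    refine ⟨.gate or (.leaf τ) F, ?_, fun x => ?_⟩
    · simp only [Fml.size, h1, List.length_cons]
      omega
    · simp only [Fml.eval, h2]
      rfl

theorem val_one : ∀ {s : ℕ} (B : BP ι D w q s) (x : ∀ i, D i), B.val x 1 = true
  | _, .sinks, x => by simp [BP.val]
  | s + 1, .node B τ no yes, x => by
      have e : (1 : Fin (s + 1 + 2)) = Fin.castSucc (1 : Fin (s + 2)) := by
        ext; simp
      rw [e]
      simp only [BP.val, Fin.lastCases_castSucc]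
      exact val_one B x

/-- the disjunction of a list of tests -/
theorem exists_bp (L : List (Test ι D w q)) :
    ∃ (B : BP ι D w q L.length) (v : Fin (L.length + 2)),
      ∀ x, B.val x v = L.any (fun τ => τ.eval x) := by
  induction L with
  | nil => exact ⟨.sinks, 0, fun x => by simp [BP.val]⟩
  | cons τ L ih =>
    obtain ⟨B, v, h⟩ := ih
    refine ⟨.node B τ v 1, Fin.last _, fun x => ?_⟩
    simp only [BP.val, List.any_cons, val_one, h]
    cases τ.eval x <;> simp

/-- the disjunction of the tests `τ k`, `k : κ` -/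
theorem exists_or {κ : Type} [Fintype κ] [Nonempty κ] (τ : κ → Test ι D w q)
    (f : (∀ i, D i) → Bool) (hf : ∀ x, f x = true ↔ ∃ k, (τ k).eval x = true) :
    (∃ F : Fml ι D w q, F.size = Fintype.card κ ∧ ∀ x, F.eval x = f x) ∧
    ∃ B : Program ι D w q (Fintype.card κ), ∀ x, B.eval x = f x := by
  classical
  obtain ⟨L, hL⟩ : ∃ L : List κ, L = (univ : Finset κ).toList := ⟨_, rfl⟩
  have hlen : (L.map τ).length = Fintype.card κ := by
    rw [List.length_map, hL, length_toList, card_univ]
  have hany : ∀ x, (L.map τ).any (fun τ => τ.eval x) = f x := by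
    intro x
    rw [Bool.eq_iff_iff, hf, List.any_eq_true]
    constructor
    · rintro ⟨σ, h1, h2⟩
      rw [List.mem_map] at h1
      obtain ⟨k, -, rfl⟩ := h1
      exact ⟨k, h2⟩
    · rintro ⟨k, h⟩
      exact ⟨τ k, List.mem_map.2 ⟨k, by rw [hL]; simp, rfl⟩, h⟩
  refine ⟨?_, ?_⟩
  · obtain ⟨σ, L', hL'⟩ : ∃ σ L', L.map τ = σ :: L' := by
      cases h : L.map τ with
      | nil =>
        rw [h] at hlen
        have : 0 < Fintype.card κ := Fintype.card_pos
        simp at hlen
        omega
      | cons σ L' => exact ⟨σ, L', rfl⟩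
    obtain ⟨F, h1, h2⟩ := exists_fml σ L'
    refine ⟨F, ?_, fun x => ?_⟩
    · rw [h1, ← hlen, hL']; simp
    · rw [h2, ← hL', hany]
  · obtain ⟨B, v, h⟩ := exists_bp (L.map τ)
    exact ⟨⟨(L.map τ).length, le_of_eq hlen, B, v⟩, fun x => by
      unfold Program.eval
      rw [h, hany]⟩

end Pool.Agent.TH457.Ary
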