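import Pool.Agent.TH457.Ary.Core
import Pool.Agent.TH457.Ary.Upper
import Pool.Agent.TH697.Form.OuMv

set_option autoImplicit false

/-! # Boolean products `u_iᵀ M v_i` with tests of several parts of the input -/

namespace Pool.Agent.TH457.Ary.OuMv

open Finset Pool.Agent.TH697.Form Pool.Agent.TH697.Row Pool.Agent.TH697.Form.OuMv
open Pool.Agent.TH457.Ary

variable {n c w : ℕ}

theorem queries (i : Fin n) :
    Queries (Fin n × Fin n) id (fun _ => True) (ouMv n n) (some i) :=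
  queries_of_update (fun _ => True) (ouMv n n) (some i) (fun _ => 0)
    (fun t _ => ask t) enc (fun _ _ _ _ => rfl) (fun _ _ => trivial)
    (fun t z => ouMv_enc i t z)

theorem logb_two_pow' (d : ℕ) : Real.logb 2 ((2 : ℝ) ^ d) = d := by
  rw [← Real.rpow_natCast, Real.logb_rpow (by norm_num) (by norm_num)]

theorem card_T : ((Fintype.card (Fin n × Fin n) : ℕ) : ℝ) = (n : ℝ) ^ 2 := by
  simp; ring

theorem formula_bound (hn : 5 ≤ n) (hc : 1 ≤ c) (hw : 1 ≤ w) {Ω : Type} [Fintype Ω] (μ : Ω → ℝ)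
    (hμ : IsProb μ) (F : Ω → Fml (Option (Fin n)) (Item n n) w (2 ^ c))
    (hF : ApproximatesOn μ (fun ω => (F ω).eval) (fun _ => True) (ouMv n n)) :
    (n : ℝ) ^ 3 ≤ 100 * c * w ^ 2 * expSize μ F := by
  classical
  have h := formula_lower μ hμ F (fun _ => True) (ouMv n n) hF Nat.one_le_two_pow hw id
    ((univ : Finset (Fin n)).map Function.Embedding.some) (T := Fin n × Fin n) (by
      intro a ha
      rw [mem_map] at ha
      obtain ⟨i, -, rfl⟩ := ha
      exact queries i)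
  rw [card_map, card_univ, Fintype.card_fin, card_T] at h
  push_cast at h
  rw [logb_two_pow'] at h
  have hn' : (5 : ℝ) ≤ n := by exact_mod_cast hn
  have hc' : (1 : ℝ) ≤ c := by exact_mod_cast hc
  have hw' : (1 : ℝ) ≤ w := by exact_mod_cast hw
  have hE : 0 ≤ expSize μ F := sum_nonneg fun ω _ => mul_nonneg (hμ.nonneg ω) (Nat.cast_nonneg _)
  have h1 : (n : ℝ) ^ 2 / 25 ≤ 49 / 600 * (n : ℝ) ^ 2 - 1 := by nlinarith
  have h2 : (n : ℝ) * ((n : ℝ) ^ 2 / 25) ≤ n * (49 / 600 * (n : ℝ) ^ 2 - 1) :=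
    mul_le_mul_of_nonneg_left h1 (by linarith)
  have h3 : (w : ℝ) * (4 + (w - 1) * c) ≤ 4 * c * w ^ 2 := by
    have h0 : 0 ≤ ((w : ℝ) - 1) * c := mul_nonneg (by linarith) (by linarith)
    have h4 : 4 + ((w : ℝ) - 1) * c ≤ 4 * c * w := by nlinarith
    calc (w : ℝ) * (4 + (w - 1) * c) ≤ w * (4 * c * w) :=
          mul_le_mul_of_nonneg_left h4 (by linarith)
      _ = _ := by ring
  have h4 := mul_le_mul_of_nonneg_right h3 hE
  linarith

/-- the binary logarithm -/
theorem logb_n (hn : 32 ≤ n) : 4 * Real.logb 2 n ≤ (n : ℝ) ^ 2 / 24 ∧ 1 ≤ Real.logb 2 n := by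
  have hL : 5 ≤ Nat.log 2 n := by
    have := Nat.log_mono_right (b := 2) hn
    rwa [show Nat.log 2 32 = 5 by decide +kernel] at this
  obtain ⟨L, hL'⟩ : ∃ L, L = Nat.log 2 n := ⟨_, rfl⟩
  have h := Nat.lt_pow_succ_log_self (b := 2) (by norm_num) n
  have h1 : (n : ℝ) ≤ (2 : ℝ) ^ (Nat.log 2 n + 1) := by exact_mod_cast h.le
  have hn0 : (0 : ℝ) < n := by
    have : 0 < n := by omega
    exact_mod_cast this
  have h2 := Real.logb_le_logb_of_le (by norm_num : (1 : ℝ) < 2) hn0 h1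
  rw [logb_two_pow', ← hL'] at h2
  push_cast at h2
  have h3 : 4 * L ≤ 2 ^ L := by
    rw [← hL'] at hL
    clear h2 h1 h hL' hn0
    induction L, hL using Nat.le_induction with
    | base => norm_num
    | succ k hk ih => rw [pow_succ]; omega
  have h4 : 4 * L ≤ n := h3.trans (by rw [hL']; exact Nat.pow_log_le_self 2 (by omega))
  have h5 : 4 * (L : ℝ) ≤ n := by exact_mod_cast h4
  have hn' : (32 : ℝ) ≤ n := by exact_mod_cast hn
  refine ⟨by nlinarith, ?_⟩
  rw [Real.le_logb_iff_rpow_le (by norm_num) hn0]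
  norm_num
  linarith

theorem program_bound (hn : 32 ≤ n) (hc : 1 ≤ c) (hw : 1 ≤ w) {Ω : Type} [Fintype Ω] (μ : Ω → ℝ)
    (hμ : IsProb μ) (s : ℕ) (B : Ω → Program (Option (Fin n)) (Item n n) w (2 ^ c) s)
    (hB : ApproximatesOn μ (fun ω => (B ω).eval) (fun _ => True) (ouMv n n)) :
    (n : ℝ) ^ 3 ≤ 200 * (c + Real.logb 2 n) * w ^ 2 * s := by
  classical
  have hw' : (1 : ℝ) ≤ w := by exact_mod_cast hw
  have hc' : (1 : ℝ) ≤ c := by exact_mod_cast hc
  have hs0 : (0 : ℝ) ≤ s := Nat.cast_nonneg s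
  have hn' : (32 : ℝ) ≤ n := by exact_mod_cast hn
  obtain ⟨hl, hl1⟩ := logb_n hn
  obtain ⟨l, hl'⟩ : ∃ l, l = Real.logb 2 (n : ℝ) := ⟨_, rfl⟩
  rw [← hl'] at hl hl1 ⊢
  by_cases hs : n ^ 3 ≤ s
  · have h1 : (n : ℝ) ^ 3 ≤ s := by exact_mod_cast hs
    have h2 : (1 : ℝ) ≤ w ^ 2 := by nlinarith
    have h3 : (1 : ℝ) ≤ 200 * (c + l) := by linarith
    have h4 : (1 : ℝ) ≤ 200 * (c + l) * w ^ 2 := by nlinarith
    nlinarith
  have h := program_lower μ hμ B (fun _ => True) (ouMv n n) hB Nat.one_le_two_pow hw id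
    ((univ : Finset (Fin n)).map Function.Embedding.some) (T := Fin n × Fin n) (by
      intro a ha
      rw [mem_map] at ha
      obtain ⟨i, -, rfl⟩ := ha
      exact queries i)
  rw [card_map, card_univ, Fintype.card_fin, card_T] at h
  push_cast at h
  rw [logb_two_pow'] at h
  have hg : Real.logb 2 ((s : ℝ) + 2) ≤ 4 * l := by
    have h1 : ((s : ℝ) + 2) ≤ (n : ℝ) ^ 4 := by
      have h3 : s + 2 ≤ n ^ 4 := by
        have h4 : n ^ 4 = n ^ 3 * n := by ring
        have h5 : 1 ≤ n ^ 3 := Nat.one_le_pow _ _ (by omega)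
        have h6 : n ^ 3 * 32 ≤ n ^ 3 * n := Nat.mul_le_mul_left _ hn
        omega
      exact_mod_cast h3
    have h4 := Real.logb_le_logb_of_le (by norm_num : (1 : ℝ) < 2) (by positivity) h1
    rw [Real.logb_pow, ← hl'] at h4
    push_cast at h4
    exact h4
  obtain ⟨g, hg'⟩ : ∃ g, g = Real.logb 2 ((s : ℝ) + 2) := ⟨_, rfl⟩
  rw [← hg'] at hg h
  have h1 : (n : ℝ) ^ 2 / 25 ≤ 49 / 600 * (n : ℝ) ^ 2 - g := by linarith [sq_nonneg (n : ℝ)]
  have h2 : (n : ℝ) * ((n : ℝ) ^ 2 / 25) ≤ n * (49 / 600 * (n : ℝ) ^ 2 - g) :=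
    mul_le_mul_of_nonneg_left h1 (by linarith)
  have h3 : (w : ℝ) * (2 * g + (w - 1) * c) ≤ 8 * (c + l) * w ^ 2 := by
    have h0 : 0 ≤ ((w : ℝ) - 1) * c := mul_nonneg (by linarith) (by linarith)
    have h0' : 0 ≤ ((w : ℝ) - 1) * l := mul_nonneg (by linarith) (by linarith)
    have h4 : 2 * g + ((w : ℝ) - 1) * c ≤ 8 * (c + l) * w := by nlinarith
    calc (w : ℝ) * (2 * g + (w - 1) * c) ≤ w * (8 * (c + l) * w) :=
          mul_le_mul_of_nonneg_left h4 (by linarith)
      _ = _ := by ring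
  have h4 := mul_le_mul_of_nonneg_right h3 hs0
  linarith

/-- the codes -/
noncomputable def code (c : ℕ) : (Bool × (Fin c → Bool)) ≃ Fin (2 ^ (c + 1)) :=
  Fintype.equivFinOfCardEq (by simp; ring)

open Classical in
/-- the `a`-th part of the `j`-th row -/
noncomputable def part (n c : ℕ) (p : Fin n × Fin n × Fin (n / c + 1)) :
    Test (Option (Fin n)) (Item n n) 2 (2 ^ (c + 1)) where
  item := ![some p.1, none]
  view := fun k => match k with
    | ⟨0, _⟩ => fun (v : (Fin n → Bool) × (Fin n → Bool)) => code c (v.1 p.2.1, fun l =>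
        if h : p.2.2.val * c + l.val < n then v.2 ⟨p.2.2.val * c + l.val, h⟩ else false)
    | ⟨1, _⟩ => fun (M : Fin n → Fin n → Bool) => code c (true, fun l =>
        if h : p.2.2.val * c + l.val < n then M p.2.1 ⟨p.2.2.val * c + l.val, h⟩ else false)
  out := fun e => decide (((code c).symm (e 0)).1 = true ∧
    ∃ l, ((code c).symm (e 0)).2 l = true ∧ ((code c).symm (e 1)).2 l = true)

theorem part_eval (p : Fin n × Fin n × Fin (n / c + 1)) (x : ∀ i, Item n n i) :
    (part n c p).eval x = true ↔ (x (some p.1)).1 p.2.1 = true ∧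
      ∃ l : Fin c, ∃ h : p.2.2.val * c + l.val < n,
        (x (some p.1)).2 ⟨p.2.2.val * c + l.val, h⟩ = true ∧
        x none p.2.1 ⟨p.2.2.val * c + l.val, h⟩ = true := by
  have e0 : ∀ v : Bool × (Fin c → Bool), (code c).symm (code c v) = v :=
    fun v => (code c).symm_apply_apply v
  have e1 : (part n c p).eval x = decide (((code c).symm (code c ((x (some p.1)).1 p.2.1,
      fun l : Fin c => if h : p.2.2.val * c + l.val < n then
        (x (some p.1)).2 ⟨p.2.2.val * c + l.val, h⟩ else false))).1 = true ∧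
      ∃ l, ((code c).symm (code c ((x (some p.1)).1 p.2.1,
      fun l : Fin c => if h : p.2.2.val * c + l.val < n then
        (x (some p.1)).2 ⟨p.2.2.val * c + l.val, h⟩ else false))).2 l = true ∧
        ((code c).symm (code c (true, fun l : Fin c => if h : p.2.2.val * c + l.val < n then
          x none p.2.1 ⟨p.2.2.val * c + l.val, h⟩ else false))).2 l = true) := rfl
  rw [e1, e0, e0, decide_eq_true_iff]
  simp only
  refine and_congr Iff.rfl (exists_congr fun l => ?_)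
  by_cases h : p.2.2.val * c + l.val < n
  · simp [h]
  · simp [h]

theorem upper (hn : 1 ≤ n) (hc : 1 ≤ c) :
    (∃ F : Fml (Option (Fin n)) (Item n n) 2 (2 ^ (c + 1)), F.size = n ^ 2 * (n / c + 1) ∧
      ∀ x, F.eval x = ouMv n n x) ∧
    ∃ B : Program (Option (Fin n)) (Item n n) 2 (2 ^ (c + 1)) (n ^ 2 * (n / c + 1)),
      ∀ x, B.eval x = ouMv n n x := by
  classical
  have : NeZero n := ⟨by omega⟩
  have e : Fintype.card (Fin n × Fin n × Fin (n / c + 1)) = n ^ 2 * (n / c + 1) := by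
    simp; ring
  have h := exists_or (part n c) (ouMv n n) (fun x => by
    unfold ouMv
    rw [decide_eq_true_iff]
    constructor
    · rintro ⟨i, j, k, h1, h2, h3⟩
      have hk : k.val / c < n / c + 1 := by
        have := Nat.div_le_div_right (c := c) k.2.le
        omega
      have hk2 : k.val / c * c + k.val % c = k.val := by
        have := Nat.div_add_mod k.val c
        rw [mul_comm] at this
        exact this
      refine ⟨(i, j, ⟨k.val / c, hk⟩), (part_eval _ x).2 ⟨h1, ⟨k.val % c, Nat.mod_lt _ hc⟩, ?_, ?_⟩⟩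
      · simp only
        rw [hk2]
        exact k.2
      · simp only [hk2]
        exact ⟨h3, h2⟩
    · rintro ⟨p, hp⟩
      obtain ⟨h1, l, h, h2, h3⟩ := (part_eval p x).1 hp
      exact ⟨p.1, p.2.1, _, h1, h3, h2⟩)
  rw [e] at h
  exact h

end Pool.Agent.TH457.Ary.OuMv
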