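import Pool.Agent.TH457.Ary.Defs

set_option autoImplicit false

/-! # Storage access with a sum of addresses -/

namespace Pool.Agent.TH457.Ary.XorAddr

open Finset

/-- The input bits: the `j`-th bit of the `i`-th of `m` addresses with `ℓ` bits, and the bit of the
storage at each of the `2 ^ ℓ` addresses. -/
abbrev Pos (m ℓ : ℕ) := (Fin m × Fin ℓ) ⊕ (Fin ℓ → Bool)

/-- The sum modulo two of the `m` addresses. -/
def addr {m ℓ : ℕ} (x : Pos m ℓ → Bool) (j : Fin ℓ) : Bool :=
  decide (Odd (univ.filter (fun i => x (.inl (i, j)) = true)).card)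

/-- The bit of the storage at the sum of the addresses. -/
def access (m ℓ : ℕ) (x : Pos m ℓ → Bool) : Bool := x (.inr (addr x))

/-- The depth of a formula, if the tests have depth zero. -/
def depth {ι : Type} {D : ι → Type} {w q : ℕ} : Fml ι D w q → ℕ
  | .leaf _ => 0
  | .gate _ a b => max (depth a) (depth b) + 1

end Pool.Agent.TH457.Ary.XorAddr
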