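import Pool.Agent.TH457.Ary.Core
import Pool.Agent.TH457.Ary.OuMv
import Pool.Agent.TH457.Ary.XorAddrDefs

set_option autoImplicit false

/-! # Lower bounds for storage access with a sum of addresses -/

namespace Pool.Agent.TH457.Ary.XorAddr

open Finset Pool.Agent.TH697.Form Pool.Agent.TH697.Row Pool.Agent.TH457.Ary

variable {m ℓ w s : ℕ}

/-- the blocks: the addresses, and the storage -/
def blk : Pos m ℓ → Option (Fin m)
  | .inl p => some p.1
  | .inr _ => none

/-- the other blocks -/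
def rest (z : (Fin ℓ → Bool) → Bool) : Pos m ℓ → Bool
  | .inl _ => false
  | .inr a => z a

/-- the block which asks -/
def ask (t : Fin ℓ → Bool) : Pos m ℓ → Bool
  | .inl p => t p.2
  | .inr _ => false

theorem access_merge (i : Fin m) (t : Fin ℓ → Bool) (z : (Fin ℓ → Bool) → Bool) :
    access m ℓ (merge (D := fun _ => Bool) blk (some i) (ask t) (rest z)) = z t := by
  have h1 : addr (merge (D := fun _ => Bool) blk (some i) (ask t) (rest z)) = t := by
    funext j
    unfold addr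
    have h2 : (univ.filter (fun i' => merge (D := fun _ => Bool) blk (some i) (ask t) (rest z)
        (.inl (i', j) : Pos m ℓ) = true)) = if t j = true then {i} else ∅ := by
      ext i'
      rw [mem_filter]
      unfold merge
      by_cases h : i' = i
      · subst h
        by_cases ht : t j = true <;> simp [blk, ask, ht]
      · have h3 : blk (.inl (i', j) : Pos m ℓ) ≠ some i := by simpa [blk] using h
        simp only [h3, if_false, rest, mem_univ, true_and]
        by_cases ht : t j = true <;> simp [ht, h]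
    rw [h2]
    by_cases ht : t j = true
    · simp [ht]
    · simp [ht]
  unfold access
  rw [h1]
  unfold merge
  have h3 : blk (.inr t : Pos m ℓ) ≠ some i := by simp [blk]
  simp only [h3, if_false, rest]

theorem queries (i : Fin m) : Queries (D := fun _ : Pos m ℓ => Bool) (Fin ℓ → Bool) blk
    (fun _ => True) (access m ℓ) (some i) :=
  ⟨fun _ => 0, fun t _ => ask t, rest, fun _ _ _ _ => rfl, fun _ _ => trivial,
    fun t z => access_merge i t z⟩

theorem card_T : ((Fintype.card (Fin ℓ → Bool) : ℕ) : ℝ) = 2 ^ ℓ := by simp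

theorem formula_bound (hℓ : 5 ≤ ℓ) (hw : 1 ≤ w) {Ω : Type} [Fintype Ω] (μ : Ω → ℝ)
    (hμ : IsProb μ) (F : Ω → Fml (Pos m ℓ) (fun _ => Bool) w 2)
    (hF : ApproximatesOn μ (fun ω => (F ω).eval) (fun _ => True) (access m ℓ)) :
    (m : ℝ) * 2 ^ ℓ ≤ 100 * w ^ 2 * expSize μ F := by
  classical
  have h := formula_lower μ hμ F (fun _ => True) (access m ℓ) hF (by norm_num) hw blk
    ((univ : Finset (Fin m)).map Function.Embedding.some) (T := Fin ℓ → Bool) (by
      intro a ha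
      rw [mem_map] at ha
      obtain ⟨i, -, rfl⟩ := ha
      exact queries i)
  rw [card_map, card_univ, Fintype.card_fin, card_T] at h
  push_cast at h
  rw [Real.logb_self_eq_one (by norm_num)] at h
  have hw' : (1 : ℝ) ≤ w := by exact_mod_cast hw
  have hE : 0 ≤ expSize μ F := sum_nonneg fun ω _ => mul_nonneg (hμ.nonneg ω) (Nat.cast_nonneg _)
  have hm : (0 : ℝ) ≤ m := Nat.cast_nonneg m
  have h0 : (32 : ℝ) ≤ 2 ^ ℓ := by
    calc (32 : ℝ) = 2 ^ 5 := by norm_num
      _ ≤ 2 ^ ℓ := pow_le_pow_right₀ (by norm_num) hℓ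
  have h1 : (2 : ℝ) ^ ℓ / 25 ≤ 49 / 600 * 2 ^ ℓ - 1 := by linarith
  have h2 := mul_le_mul_of_nonneg_left h1 hm
  have h3 : (w : ℝ) * (4 + (w - 1) * 1) ≤ 4 * w ^ 2 := by nlinarith
  have h4 := mul_le_mul_of_nonneg_right h3 hE
  linarith

theorem size_le {ι : Type} {D : ι → Type} {w q : ℕ} (F : Fml ι D w q) : F.size ≤ 2 ^ depth F := by
  induction F with
  | leaf τ => simp [Fml.size, depth]
  | gate g a b iha ihb =>
    simp only [Fml.size, depth, pow_succ]
    have h1 : 2 ^ depth a ≤ 2 ^ max (depth a) (depth b) :=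
      Nat.pow_le_pow_right (by norm_num) (le_max_left _ _)
    have h2 : 2 ^ depth b ≤ 2 ^ max (depth a) (depth b) :=
      Nat.pow_le_pow_right (by norm_num) (le_max_right _ _)
    omega

theorem depth_bound (hℓ : 5 ≤ ℓ) (hw : 1 ≤ w) {Ω : Type} [Fintype Ω] (μ : Ω → ℝ)
    (hμ : IsProb μ) (F : Ω → Fml (Pos m ℓ) (fun _ => Bool) w 2)
    (hF : ApproximatesOn μ (fun ω => (F ω).eval) (fun _ => True) (access m ℓ)) (d : ℕ)
    (hd : ∀ ω, depth (F ω) ≤ d) :
    (m : ℝ) * 2 ^ ℓ ≤ 100 * w ^ 2 * 2 ^ d := by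
  have h := formula_bound hℓ hw μ hμ F hF
  have h1 : expSize μ F ≤ 2 ^ d := by
    unfold expSize
    calc ∑ ω, μ ω * ((F ω).size : ℝ) ≤ ∑ ω, μ ω * 2 ^ d := by
          apply sum_le_sum
          intro ω _
          apply mul_le_mul_of_nonneg_left _ (hμ.nonneg ω)
          have h2 : (F ω).size ≤ 2 ^ d :=
            (size_le (F ω)).trans (Nat.pow_le_pow_right (by norm_num) (hd ω))
          exact_mod_cast h2
      _ = 2 ^ d := by rw [← sum_mul, hμ.sum_one, one_mul]
  exact h.trans (mul_le_mul_of_nonneg_left h1 (by positivity))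

theorem program_bound (hℓ : 10 ≤ ℓ) (hm : m ≤ 2 ^ ℓ) (hw : 1 ≤ w) {Ω : Type} [Fintype Ω]
    (μ : Ω → ℝ) (hμ : IsProb μ) (s : ℕ) (B : Ω → Program (Pos m ℓ) (fun _ => Bool) w 2 s)
    (hB : ApproximatesOn μ (fun ω => (B ω).eval) (fun _ => True) (access m ℓ)) :
    (m : ℝ) * 2 ^ ℓ ≤ 150 * ℓ * w ^ 2 * s := by
  classical
  have hw' : (1 : ℝ) ≤ w := by exact_mod_cast hw
  have hℓ' : (10 : ℝ) ≤ ℓ := by exact_mod_cast hℓ
  have hs0 : (0 : ℝ) ≤ s := Nat.cast_nonneg s
  have hm0 : (0 : ℝ) ≤ m := Nat.cast_nonneg m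
  have hw2 : (1 : ℝ) ≤ w ^ 2 := by nlinarith
  by_cases hs : m * 2 ^ ℓ ≤ s
  · have h1 : (m : ℝ) * 2 ^ ℓ ≤ s := by exact_mod_cast hs
    have h3 : (1 : ℝ) ≤ 150 * ℓ * w ^ 2 := by nlinarith
    nlinarith
  have h := program_lower μ hμ B (fun _ => True) (access m ℓ) hB (by norm_num) hw blk
    ((univ : Finset (Fin m)).map Function.Embedding.some) (T := Fin ℓ → Bool) (by
      intro a ha
      rw [mem_map] at ha
      obtain ⟨i, -, rfl⟩ := ha
      exact queries i)
  rw [card_map, card_univ, Fintype.card_fin, card_T] at h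
  push_cast at h
  rw [Real.logb_self_eq_one (by norm_num)] at h
  have hg : Real.logb 2 ((s : ℝ) + 2) ≤ 2 * ℓ + 1 := by
    have h1 : ((s : ℝ) + 2) ≤ (2 : ℝ) ^ (2 * ℓ + 1) := by
      have h2 : m * 2 ^ ℓ ≤ 2 ^ ℓ * 2 ^ ℓ := Nat.mul_le_mul_right _ hm
      have h3 : 2 ^ ℓ * 2 ^ ℓ = 2 ^ (2 * ℓ) := by rw [← pow_add]; congr 1; ring
      have h5 : 1 ≤ 2 ^ (2 * ℓ) := Nat.one_le_two_pow
      have h4 : s + 2 ≤ 2 ^ (2 * ℓ + 1) := by
        rw [pow_succ]
        omega
      exact_mod_cast h4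
    have h4 := Real.logb_le_logb_of_le (by norm_num : (1 : ℝ) < 2) (by positivity) h1
    rw [Pool.Agent.TH457.Ary.OuMv.logb_two_pow'] at h4
    push_cast at h4
    exact h4
  obtain ⟨g, hg'⟩ : ∃ g, g = Real.logb 2 ((s : ℝ) + 2) := ⟨_, rfl⟩
  rw [← hg'] at hg h
  have h0 : (100 : ℝ) * ℓ ≤ 2 ^ ℓ := by
    have : 100 * ℓ ≤ 2 ^ ℓ := by
      clear hg hg' h hs hB B hm hℓ'
      induction ℓ, hℓ using Nat.le_induction with
      | base => norm_num
      | succ k hk ih =>
        rw [pow_succ]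
        omega
    exact_mod_cast this
  have h1 : (2 : ℝ) ^ ℓ / 25 ≤ 49 / 600 * 2 ^ ℓ - g := by nlinarith
  have h2 := mul_le_mul_of_nonneg_left h1 hm0
  have h3 : (w : ℝ) * (2 * g + (w - 1) * 1) ≤ 6 * ℓ * w ^ 2 := by
    have h5 : 2 * g + ((w : ℝ) - 1) * 1 ≤ 6 * ℓ * w := by nlinarith
    calc (w : ℝ) * (2 * g + (w - 1) * 1) ≤ w * (6 * ℓ * w) :=
          mul_le_mul_of_nonneg_left h5 (by linarith)
      _ = _ := by ring
  have h4 := mul_le_mul_of_nonneg_right h3 hs0
  linarith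

end Pool.Agent.TH457.Ary.XorAddr
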