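import Pool.Agent.TH457.Ary.Core
import Pool.Agent.TH457.Ary.Upper
import Pool.Agent.TH697.Form.OV

set_option autoImplicit false

/-! # Orthogonal vectors with tests of several vectors -/

namespace Pool.Agent.TH457.Ary.OV

open Finset Pool.Agent.TH697.Form Pool.Agent.TH697.Row Pool.Agent.TH697.Form.OV
open Pool.Agent.TH457.Ary

variable {n d ℓ w : ℕ}

theorem queries (hn : n ≤ 2 ^ ℓ) (hd : 4 * ℓ + 2 ≤ d) (i : Fin n) :
    Queries (Fin n × Fin (d - 1 - 2 * ℓ)) id (Distinct n d) (ov n d) (some i) :=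
  queries_of_update (Distinct n d) (ov n d) (some i) (fun _ => 0) (fun t _ => ask t) (enc ℓ)
    (fun _ _ _ _ => rfl) (fun t z => distinct_enc i t z hn hd) (fun t z => ov_enc i t z hn hd)

theorem card_T (hd : 4 * ℓ + 2 ≤ d) :
    (n : ℝ) * (d / 2) ≤ (Fintype.card (Fin n × Fin (d - 1 - 2 * ℓ)) : ℝ) := by
  have e : ((Fintype.card (Fin n × Fin (d - 1 - 2 * ℓ)) : ℕ) : ℝ) =
      (n : ℝ) * ((d - 1 - 2 * ℓ : ℕ) : ℝ) := by simp
  rw [e]
  apply mul_le_mul_of_nonneg_left _ (Nat.cast_nonneg n)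
  have h2 : d ≤ 2 * (d - 1 - 2 * ℓ) := by omega
  have h3 : (d : ℝ) ≤ 2 * ((d - 1 - 2 * ℓ : ℕ) : ℝ) := by exact_mod_cast h2
  linarith

theorem logb_two_pow (d : ℕ) : Real.logb 2 ((2 ^ d : ℕ) : ℝ) = d := by
  push_cast
  rw [← Real.rpow_natCast, Real.logb_rpow (by norm_num) (by norm_num)]

theorem formula_bound (hn25 : 25 ≤ n) (hn : n ≤ 2 ^ ℓ) (hd : 4 * ℓ + 2 ≤ d) (hw : 1 ≤ w)
    {Ω : Type} [Fintype Ω] (μ : Ω → ℝ) (hμ : IsProb μ)
    (F : Ω → Fml (Option (Fin n)) (Item n d) w (2 ^ d))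
    (hF : ApproximatesOn μ (fun ω => (F ω).eval) (Distinct n d) (ov n d)) :
    (n : ℝ) ^ 2 ≤ 50 * w ^ 2 * expSize μ F := by
  classical
  have h := formula_lower μ hμ F (Distinct n d) (ov n d) hF Nat.one_le_two_pow hw id
    ((univ : Finset (Fin n)).map Function.Embedding.some)
    (T := Fin n × Fin (d - 1 - 2 * ℓ)) (by
      intro b hb
      rw [mem_map] at hb
      obtain ⟨i, -, rfl⟩ := hb
      exact queries hn hd i)
  rw [card_map, card_univ, Fintype.card_fin, logb_two_pow] at h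
  have hT := card_T (n := n) hd
  obtain ⟨N, hN⟩ : ∃ N : ℝ, N = (Fintype.card (Fin n × Fin (d - 1 - 2 * ℓ)) : ℝ) := ⟨_, rfl⟩
  rw [← hN] at h hT
  have hn' : (25 : ℝ) ≤ n := by exact_mod_cast hn25
  have hℓ : 3 ≤ ℓ := by
    by_contra hcon
    have : 2 ^ ℓ ≤ 2 ^ 2 := Nat.pow_le_pow_right (by norm_num) (by omega)
    omega
  have hd' : (14 : ℝ) ≤ d := by exact_mod_cast (by omega : 14 ≤ d)
  have hw' : (1 : ℝ) ≤ w := by exact_mod_cast hw
  have hE : 0 ≤ expSize μ F := sum_nonneg fun ω _ => mul_nonneg (hμ.nonneg ω) (Nat.cast_nonneg _)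
  have h1 : (n : ℝ) * d / 50 ≤ (49 / 600 : ℝ) * N - 1 := by nlinarith
  have h2 : (n : ℝ) * ((n : ℝ) * d / 50) ≤ (n : ℝ) * ((49 / 600 : ℝ) * N - 1) :=
    mul_le_mul_of_nonneg_left h1 (by linarith)
  have h3 : (w : ℝ) * (4 + (w - 1) * d) ≤ w * (w * d) := by
    apply mul_le_mul_of_nonneg_left _ (by linarith)
    nlinarith
  have h4 := mul_le_mul_of_nonneg_right h3 hE
  have h5 : (d : ℝ) * (n : ℝ) ^ 2 ≤ d * (50 * w ^ 2 * expSize μ F) := by
    have e1 : (n : ℝ) * ((n : ℝ) * d / 50) = d * (n : ℝ) ^ 2 / 50 := by ring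
    have e2 : (w : ℝ) * (w * d) * expSize μ F = d * (w ^ 2 * expSize μ F) := by ring
    rw [e1] at h2
    rw [e2] at h4
    linarith
  exact le_of_mul_le_mul_left h5 (by linarith)

theorem program_bound (hn25 : 25 ≤ n) (hn : n ≤ 2 ^ ℓ) (hd : 4 * ℓ + 2 ≤ d) (hw : 1 ≤ w)
    {Ω : Type} [Fintype Ω] (μ : Ω → ℝ) (hμ : IsProb μ) (s : ℕ)
    (B : Ω → Program (Option (Fin n)) (Item n d) w (2 ^ d) s)
    (hB : ApproximatesOn μ (fun ω => (B ω).eval) (Distinct n d) (ov n d)) :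
    (n : ℝ) ^ 2 ≤ 50 * w ^ 2 * s := by
  classical
  have hn' : (25 : ℝ) ≤ n := by exact_mod_cast hn25
  have hw' : (1 : ℝ) ≤ w := by exact_mod_cast hw
  have hs0 : (0 : ℝ) ≤ s := Nat.cast_nonneg s
  by_cases hs : n ^ 2 ≤ s
  · have h1 : (n : ℝ) ^ 2 ≤ s := by exact_mod_cast hs
    have h2 : (1 : ℝ) ≤ w ^ 2 := by nlinarith
    nlinarith
  have h := program_lower μ hμ B (Distinct n d) (ov n d) hB Nat.one_le_two_pow hw id
    ((univ : Finset (Fin n)).map Function.Embedding.some)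
    (T := Fin n × Fin (d - 1 - 2 * ℓ)) (by
      intro b hb
      rw [mem_map] at hb
      obtain ⟨i, -, rfl⟩ := hb
      exact queries hn hd i)
  rw [card_map, card_univ, Fintype.card_fin, logb_two_pow] at h
  have hT := card_T (n := n) hd
  obtain ⟨N, hN⟩ : ∃ N : ℝ, N = (Fintype.card (Fin n × Fin (d - 1 - 2 * ℓ)) : ℝ) := ⟨_, rfl⟩
  rw [← hN] at h hT
  have hℓ : 3 ≤ ℓ := by
    by_contra hcon
    have : 2 ^ ℓ ≤ 2 ^ 2 := Nat.pow_le_pow_right (by norm_num) (by omega)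
    omega
  have hd' : (14 : ℝ) ≤ d := by exact_mod_cast (by omega : 14 ≤ d)
  -- the logarithm
  obtain ⟨g, hg⟩ : ∃ g : ℝ, g = Real.logb 2 ((s : ℝ) + 2) := ⟨_, rfl⟩
  have hg0 : 0 ≤ g := by
    rw [hg]
    exact Real.logb_nonneg (by norm_num) (by linarith)
  have hg1 : g ≤ d / 2 := by
    have h1 : s + 2 ≤ 2 ^ (2 * ℓ + 1) := by
      have h2 : n ^ 2 ≤ (2 ^ ℓ) ^ 2 := Nat.pow_le_pow_left hn 2
      rw [← pow_mul, mul_comm ℓ 2] at h2
      have h3 : 2 ≤ 2 ^ (2 * ℓ) := by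
        calc 2 = 2 ^ 1 := by norm_num
          _ ≤ _ := Nat.pow_le_pow_right (by norm_num) (by omega)
      rw [pow_succ]
      omega
    have h2 : ((s : ℝ) + 2) ≤ ((2 ^ (2 * ℓ + 1) : ℕ) : ℝ) := by exact_mod_cast h1
    have h3 : g ≤ Real.logb 2 ((2 ^ (2 * ℓ + 1) : ℕ) : ℝ) := by
      rw [hg]
      exact Real.logb_le_logb_of_le (by norm_num) (by positivity) h2
    rw [logb_two_pow] at h3
    have h4 : (2 : ℝ) * ((2 * ℓ + 1 : ℕ) : ℝ) ≤ d := by exact_mod_cast (by omega)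
    linarith
  rw [← hg] at h
  have h1 : (n : ℝ) * d / 50 ≤ (49 / 600 : ℝ) * N - g := by nlinarith
  have h2 : (n : ℝ) * ((n : ℝ) * d / 50) ≤ (n : ℝ) * ((49 / 600 : ℝ) * N - g) :=
    mul_le_mul_of_nonneg_left h1 (by linarith)
  have h3 : (w : ℝ) * (2 * g + (w - 1) * d) ≤ w * (w * d) := by
    apply mul_le_mul_of_nonneg_left _ (by linarith)
    nlinarith
  have h4 := mul_le_mul_of_nonneg_right h3 hs0
  have h5 : (d : ℝ) * (n : ℝ) ^ 2 ≤ d * (50 * w ^ 2 * s) := by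
    have e1 : (n : ℝ) * ((n : ℝ) * d / 50) = d * (n : ℝ) ^ 2 / 50 := by ring
    have e2 : (w : ℝ) * (w * d) * s = d * (w ^ 2 * s) := by ring
    rw [e1] at h2
    rw [e2] at h4
    linarith
  exact le_of_mul_le_mul_left h5 (by linarith)

/-- the numbers of the vectors -/
noncomputable def code (d : ℕ) : (Fin d → Bool) ≃ Fin (2 ^ d) :=
  Fintype.equivFinOfCardEq (by simp)

open Classical in
/-- is the `i`-th vector of `A` orthogonal to the `j`-th vector of `B`? -/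
noncomputable def pair (n d : ℕ) (p : Fin n × Fin n) :
    Test (Option (Fin n)) (Item n d) 2 (2 ^ d) where
  item := ![some p.1, none]
  view := fun k => match k with
    | ⟨0, _⟩ => fun (v : Fin d → Bool) => code d v
    | ⟨1, _⟩ => fun (B : Fin n → Fin d → Bool) => code d (B p.2)
  out := fun c => decide (∀ k, ¬ ((code d).symm (c 0) k = true ∧ (code d).symm (c 1) k = true))

theorem pair_eval (p : Fin n × Fin n) (x : ∀ i, Item n d i) :
    (pair n d p).eval x = true ↔ ∀ c, ¬ (x (some p.1) c = true ∧ x none p.2 c = true) := by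
  unfold Test.eval
  simp only [pair]
  rw [decide_eq_true_iff]
  have e0 : ∀ v : Fin d → Bool, (code d).symm (code d v) = v := fun v => (code d).symm_apply_apply v
  constructor
  · intro h c hc
    apply h c
    refine ⟨?_, ?_⟩
    · exact (congrFun (e0 (x (some p.1))) c).trans hc.1
    · exact (congrFun (e0 (x none p.2)) c).trans hc.2
  · intro h c hc
    apply h c
    refine ⟨?_, ?_⟩
    · exact (congrFun (e0 (x (some p.1))) c).symm.trans hc.1
    · exact (congrFun (e0 (x none p.2)) c).symm.trans hc.2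

theorem upper (hn : 1 ≤ n) :
    (∃ F : Fml (Option (Fin n)) (Item n d) 2 (2 ^ d), F.size = n ^ 2 ∧
      ∀ x, F.eval x = ov n d x) ∧
    ∃ B : Program (Option (Fin n)) (Item n d) 2 (2 ^ d) (n ^ 2), ∀ x, B.eval x = ov n d x := by
  have : NeZero n := ⟨by omega⟩
  have e : Fintype.card (Fin n × Fin n) = n ^ 2 := by simp [sq]
  have h := exists_or (κ := Fin n × Fin n) (pair n d) (ov n d) (by
    intro x
    unfold ov
    rw [decide_eq_true_iff]
    constructor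
    · rintro ⟨i, j, h⟩
      exact ⟨(i, j), (pair_eval (i, j) x).2 h⟩
    · rintro ⟨⟨i, j⟩, h⟩
      exact ⟨i, j, (pair_eval (i, j) x).1 h⟩)
  rw [e] at h
  exact h

end Pool.Agent.TH457.Ary.OV
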