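import Pool.Agent.TH457.Ary.Defs

set_option autoImplicit false

/-! # Satisfiability of lists of clauses with two literals -/

namespace Pool.Agent.TH457.Ary.Sat

open Finset

/-- A literal over `v` variables: a variable and the value which makes the literal true. -/
abbrev Lit (v : ℕ) := Fin v × Bool

/-- A clause with two literals (which may be equal). -/
abbrev Clause (v : ℕ) := Lit v × Lit v

/-- The clause is true under the assignment `a`. -/
def Holds {v : ℕ} (a : Fin v → Bool) (c : Clause v) : Prop := a c.1.1 = c.1.2 ∨ a c.2.1 = c.2.2

open Classical in
/-- Is the conjunction of the clauses `x 0, …, x (m - 1)` satisfiable? -/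
noncomputable def sat {m v : ℕ} (x : Fin m → Clause v) : Bool :=
  decide (∃ a : Fin v → Bool, ∀ p, Holds a (x p))

/-- Horn: no clause has two different positive literals. -/
def Horn {m v : ℕ} (x : Fin m → Clause v) : Prop :=
  ∀ p, (x p).1.2 = true → (x p).2.2 = true → (x p).1 = (x p).2

end Pool.Agent.TH457.Ary.Sat
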