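import Pool.Agent.TH457.Ary.Core
import Pool.Agent.TH457.Ary.SatDefs

set_option autoImplicit false

/-! # Lower bounds for the satisfiability of lists of clauses -/

namespace Pool.Agent.TH457.Ary.Sat

open Finset Pool.Agent.TH697.Form Pool.Agent.TH697.Row Pool.Agent.TH457.Ary

/-- the number of the data clauses -/
abbrev M (m k : ℕ) := m - k * 2 ^ k - 2

/-- the position with the given rank, outside block `b` -/
def pos (b ρ : ℕ) : ℕ := if ρ < 2 * b then ρ else ρ + 2

/-- the rank of a position -/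
def rank (b p : ℕ) : ℕ := if p < 2 * b then p else p - 2

theorem rank_pos (b ρ : ℕ) : rank b (pos b ρ) = ρ := by
  unfold rank pos
  split_ifs <;> omega

theorem pos_div (b ρ : ℕ) : pos b ρ / 2 ≠ b := by
  unfold pos
  split_ifs <;> omega

theorem pos_lt (b ρ m : ℕ) (h : ρ < m - 2) : pos b ρ < m := by
  unfold pos
  split_ifs <;> omega

variable {m k : ℕ}

/-- the variable with number `i` (for `i < m`) -/
def var (m : ℕ) [NeZero m] (i : ℕ) : Fin m := Fin.ofNat m i

theorem var_inj [NeZero m] {i j : ℕ} (hi : i < m) (hj : j < m) (h : var m i = var m j) :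
    i = j := by
  have := congrArg Fin.val h
  simpa [var, Fin.ofNat, Nat.mod_eq_of_lt hi, Nat.mod_eq_of_lt hj] using this

theorem var_val [NeZero m] {i : ℕ} (hi : i < m) : (var m i).val = i := by
  simp [var, Fin.ofNat, Nat.mod_eq_of_lt hi]

/-- the value which is encoded for `i` -/
def val (z : Fin (M m k) × Fin k → Bool) (i : Fin (M m k)) : ℕ := Nat.ofBits fun j => !z (i, j)

theorem val_lt (z : Fin (M m k) × Fin k → Bool) (i : Fin (M m k)) : val z i < 2 ^ k :=
  Nat.ofBits_lt_two_pow _

theorem val_testBit (z : Fin (M m k) × Fin k → Bool) (i : Fin (M m k)) (j : Fin k) :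
    (val z i).testBit j = !z (i, j) := by
  unfold val
  rw [Nat.testBit_ofBits_lt _ _ j.2]

/-- the clauses of the other blocks -/
def rest (m k : ℕ) [NeZero m] (b : ℕ) (z : Fin (M m k) × Fin k → Bool) (p : Fin m) : Clause m :=
  let ρ := rank b p.val
  if ρ < k * 2 ^ k then
    if (ρ / k).testBit (ρ % k) then
      ((var m (M m k + ρ / k), false), (var m (M m k + 2 ^ k + ρ % k), true))
    else ((var m 0, false), (var m 0, true))
  else if h : ρ - k * 2 ^ k < M m k then
    ((var m (ρ - k * 2 ^ k), false), (var m (M m k + val z ⟨ρ - k * 2 ^ k, h⟩), true))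
  else ((var m 0, false), (var m 0, true))

/-- the clauses of block `b` -/
def ask (m k : ℕ) [NeZero m] (b : ℕ) (t : Fin (M m k) × Fin k) (p : Fin m) : Clause m :=
  if p.val = 2 * b then ((var m t.1.val, true), (var m t.1.val, true))
  else ((var m (M m k + 2 ^ k + t.2.val), false), (var m (M m k + 2 ^ k + t.2.val), false))

/-- the blocks -/
def blk (m : ℕ) (p : Fin m) : ℕ := p.val / 2

theorem small (hk : 3 ≤ k) : 2 * (k * 2 ^ k) + 4 ≤ 4 ^ k := by
  induction k, hk using Nat.le_induction with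
  | base => norm_num
  | succ k hk ih =>
    have h1 : 1 ≤ 2 ^ k := Nat.one_le_two_pow
    have h2 : (k + 1) * 2 ^ (k + 1) ≤ 4 * (k * 2 ^ k) := by
      rw [pow_succ]
      nlinarith
    rw [pow_succ 4 k]
    omega

theorem small' (hk : 3 ≤ k) : 2 ^ k + k ≤ k * 2 ^ k := by
  have h1 : k < 2 ^ k := Nat.lt_two_pow_self
  have h2 : 3 * 2 ^ k ≤ k * 2 ^ k := Nat.mul_le_mul_right _ hk
  omega

theorem horn [NeZero m] (b : ℕ) (t : Fin (M m k) × Fin k)
    (z : Fin (M m k) × Fin k → Bool) : Horn (merge (blk m) b (ask m k b t) (rest m k b z)) := by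
  intro p
  unfold merge
  by_cases hp : blk m p = b
  · simp only [hp, if_true, ask]
    split_ifs <;> simp
  · simp only [hp, if_false, rest]
    split_ifs <;> simp

theorem sat_merge (hk : 3 ≤ k) (hm : 4 ^ k ≤ m) [NeZero m] (b : ℕ) (hb : b < m / 2)
    (t : Fin (M m k) × Fin k) (z : Fin (M m k) × Fin k → Bool) :
    sat (merge (blk m) b (ask m k b t) (rest m k b z)) = z t := by
  classical
  have hs := small hk
  have hs' := small' hk
  have hM : M m k = m - k * 2 ^ k - 2 := rfl
  have hF : k * 2 ^ k + 2 ≤ m := by omega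
  have ht1 := t.1.2
  have ht2 := t.2.2
  have hk0 : 0 < k := by omega
  unfold sat
  rw [Bool.eq_iff_iff, decide_eq_true_iff]
  constructor
  · rintro ⟨a, ha⟩
    by_contra hz
    rw [Bool.not_eq_true] at hz
    have hv := val_lt z t.1
    -- the first clause of the block
    have h1 := ha ⟨2 * b, by omega⟩
    have e1 : blk m (⟨2 * b, by omega⟩ : Fin m) = b := by
      change 2 * b / 2 = b
      omega
    unfold merge at h1
    simp only [e1, if_true, ask, Holds, or_self] at h1
    -- the data clause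
    have hr1 : k * 2 ^ k + t.1.val < m - 2 := by omega
    have h2 := ha ⟨pos b (k * 2 ^ k + t.1.val), pos_lt b _ m hr1⟩
    have e2 : blk m (⟨pos b (k * 2 ^ k + t.1.val), pos_lt b _ m hr1⟩ : Fin m) ≠ b :=
      pos_div b _
    unfold merge at h2
    simp only [e2, if_false, rest, rank_pos, Holds] at h2
    rw [if_neg (by omega), dif_pos (by omega)] at h2
    have e3 : (⟨k * 2 ^ k + t.1.val - k * 2 ^ k, by omega⟩ : Fin (M m k)) = t.1 :=
      Fin.ext (by simp)
    have e4 : k * 2 ^ k + t.1.val - k * 2 ^ k = t.1.val := by omega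
    simp only [e4, h1, Fin.eta] at h2
    simp only [Bool.true_eq_false, false_or] at h2
    -- the fixed clause
    have hr2 : k * val z t.1 + t.2.val < k * 2 ^ k := by
      have : k * (val z t.1 + 1) ≤ k * 2 ^ k := Nat.mul_le_mul_left _ hv
      have e : k * (val z t.1 + 1) = k * val z t.1 + k := by ring
      omega
    have h3 := ha ⟨pos b (k * val z t.1 + t.2.val), pos_lt b _ m (by omega)⟩
    have e5 : blk m (⟨pos b (k * val z t.1 + t.2.val), pos_lt b _ m (by omega)⟩ : Fin m) ≠ b :=
      pos_div b _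
    unfold merge at h3
    simp only [e5, if_false, rest, rank_pos, Holds] at h3
    have e6 : (k * val z t.1 + t.2.val) / k = val z t.1 := by
      rw [Nat.mul_add_div hk0, Nat.div_eq_of_lt ht2]; simp
    have e7 : (k * val z t.1 + t.2.val) % k = t.2.val := by
      rw [Nat.mul_add_mod, Nat.mod_eq_of_lt ht2]
    rw [if_pos hr2, e6, e7, val_testBit, hz] at h3
    simp only [Bool.not_false, if_true, h2] at h3
    simp only [Bool.true_eq_false, false_or] at h3
    -- the last clause
    have h4 := ha ⟨2 * b + 1, by omega⟩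
    have e8 : blk m (⟨2 * b + 1, by omega⟩ : Fin m) = b := by
      change (2 * b + 1) / 2 = b
      omega
    unfold merge at h4
    simp only [e8, if_true, ask, Holds] at h4
    rw [if_neg (by omega)] at h4
    simp only [or_self] at h4
    rw [h3] at h4
    exact Bool.noConfusion h4
  · intro hz
    refine ⟨fun u => if u.val < M m k then decide (u.val = t.1.val) else
      if u.val < M m k + 2 ^ k then decide (u.val = M m k + val z t.1) else
      (val z t.1).testBit (u.val - (M m k + 2 ^ k)), fun p => ?_⟩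
    have hv := val_lt z t.1
    unfold merge
    by_cases hp : blk m p = b
    · simp only [hp, if_true, ask]
      by_cases hp2 : p.val = 2 * b
      · rw [if_pos hp2]
        left
        simp only
        rw [var_val (by omega), if_pos ht1]
        simp
      · rw [if_neg hp2]
        left
        simp only
        rw [var_val (by omega), if_neg (by omega), if_neg (by omega)]
        have e : M m k + 2 ^ k + t.2.val - (M m k + 2 ^ k) = t.2.val := by omega
        rw [e, val_testBit]
        have hz' : z (t.1, t.2) = true := hz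
        rw [hz']
        rfl
    · simp only [hp, if_false, rest]
      have taut : ∀ a : Fin m → Bool, Holds a ((var m 0, false), (var m 0, true)) := by
        intro a
        unfold Holds
        cases a (var m 0) <;> simp
      by_cases h1 : rank b p.val < k * 2 ^ k
      · rw [if_pos h1]
        have h2 : rank b p.val / k < 2 ^ k := Nat.div_lt_of_lt_mul h1
        have h3 : rank b p.val % k < k := Nat.mod_lt _ hk0
        by_cases hbit : (rank b p.val / k).testBit (rank b p.val % k) = true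
        · rw [if_pos hbit]
          unfold Holds
          simp only
          rw [var_val (by omega), var_val (by omega), if_neg (Nat.not_lt.2 (Nat.le_add_right _ _)),
            if_pos (by omega), if_neg (by omega), if_neg (by omega)]
          by_cases h4 : rank b p.val / k = val z t.1
          · right
            have e : M m k + 2 ^ k + rank b p.val % k - (M m k + 2 ^ k) = rank b p.val % k := by
              omega
            rw [e, ← h4, hbit]
          · left
            rw [decide_eq_false_iff_not]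
            omega
        · rw [if_neg hbit]
          exact taut _
      · rw [if_neg h1]
        by_cases h2 : rank b p.val - k * 2 ^ k < M m k
        · rw [dif_pos h2]
          have hv2 := val_lt z ⟨rank b p.val - k * 2 ^ k, h2⟩
          unfold Holds
          simp only
          rw [var_val (by omega), var_val (by omega), if_pos h2, if_neg (by omega),
            if_pos (by omega)]
          by_cases h4 : rank b p.val - k * 2 ^ k = t.1.val
          · right
            have e : (⟨rank b p.val - k * 2 ^ k, h2⟩ : Fin (M m k)) = t.1 := Fin.ext h4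
            rw [e]
            simp
          · left
            rw [decide_eq_false_iff_not]
            exact h4
        · rw [dif_neg h2]
          exact taut _

theorem queries (hk : 3 ≤ k) (hm : 4 ^ k ≤ m) (b : ℕ) (hb : b < m / 2) :
    Queries (D := fun _ : Fin m => Clause m) (Fin (M m k) × Fin k) (blk m) Horn sat b := by
  have : NeZero m := ⟨by have : 0 < 4 ^ k := by positivity
                         omega⟩
  exact ⟨fun _ => 0, fun t _ => ask m k b t, rest m k b, fun _ _ _ _ => rfl,
    fun t z => horn b t z, fun t z => sat_merge hk hm b hb t z⟩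

/-! ## the bounds -/

theorem exists_k (hm : 400 ≤ m) : ∃ k, 4 ≤ k ∧ 4 ^ k ≤ m ∧ m < 4 ^ (k + 1) := by
  refine ⟨Nat.log 4 m, ?_, Nat.pow_log_le_self 4 (by omega), Nat.lt_pow_succ_log_self (by norm_num) m⟩
  exact Nat.le_log_of_pow_le (by norm_num) (by norm_num; omega)

theorem card_T (hk : 3 ≤ k) (hm : 4 ^ k ≤ m) :
    (m : ℝ) * k / 2 ≤ (Fintype.card (Fin (M m k) × Fin k) : ℝ) := by
  have hs := small hk
  have h1 : m ≤ 2 * M m k := by
    have : M m k = m - k * 2 ^ k - 2 := rfl
    omega
  have h2 : (m : ℝ) ≤ 2 * (M m k : ℝ) := by exact_mod_cast h1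
  rw [Fintype.card_prod, Fintype.card_fin, Fintype.card_fin, Nat.cast_mul]
  have hk0 : (0 : ℝ) ≤ k := Nat.cast_nonneg k
  nlinarith

theorem logb_four_pow (n : ℕ) : Real.logb 2 ((4 : ℝ) ^ n) = 2 * n := by
  rw [show (4 : ℝ) = 2 ^ 2 by norm_num, ← pow_mul, ← Real.rpow_natCast,
    Real.logb_rpow (by norm_num) (by norm_num)]
  push_cast
  ring

theorem logb_q (hk : 4 ≤ k) (hm0 : 0 < m) (hm : m < 4 ^ (k + 1)) :
    Real.logb 2 ((4 * m ^ 2 : ℕ) : ℝ) ≤ 6 * k := by
  have h1 : ((4 * m ^ 2 : ℕ) : ℝ) ≤ (4 : ℝ) ^ (2 * k + 3) := by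
    have h2 : m ^ 2 ≤ (4 ^ (k + 1)) ^ 2 := Nat.pow_le_pow_left hm.le 2
    have h3 : 4 * m ^ 2 ≤ 4 ^ (2 * k + 3) := by
      calc 4 * m ^ 2 ≤ 4 * (4 ^ (k + 1)) ^ 2 := Nat.mul_le_mul_left _ h2
        _ = 4 ^ (2 * k + 3) := by ring
    exact_mod_cast h3
  have h4 := Real.logb_le_logb_of_le (by norm_num : (1 : ℝ) < 2)
    (by exact_mod_cast (by positivity : 0 < 4 * m ^ 2)) h1
  rw [logb_four_pow] at h4
  push_cast at h4 ⊢
  have hk' : (4 : ℝ) ≤ k := by exact_mod_cast hk
  linarith

theorem card_I (m : ℕ) : ((m : ℝ) - 1) / 2 ≤ ((Finset.range (m / 2)).card : ℝ) := by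
  rw [card_range]
  have h : m ≤ 2 * (m / 2) + 1 := by omega
  have h2 : (m : ℝ) ≤ 2 * ((m / 2 : ℕ) : ℝ) + 1 := by exact_mod_cast h
  linarith

/-- the arithmetic for formulas -/
theorem arith_formula {m k w I N L E : ℝ} (hm : 400 ≤ m) (hk : 4 ≤ k) (hw : 1 ≤ w)
    (hI : (m - 1) / 2 ≤ I) (hN : m * k / 2 ≤ N) (hL : L ≤ 6 * k) (hE : 0 ≤ E)
    (h : I * (49 / 600 * N - 1) ≤ w * (4 + (w - 1) * L) * E) : m ^ 2 ≤ 320 * w ^ 2 * E := by
  have h1 : m * k / 25 ≤ 49 / 600 * N - 1 := by nlinarith
  have h2 : (m - 1) / 2 * (m * k / 25) ≤ I * (49 / 600 * N - 1) := by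
    apply mul_le_mul hI h1 (by positivity)
    linarith
  have h3 : w * (4 + (w - 1) * L) ≤ 6 * k * w ^ 2 := by
    have h4 : (w - 1) * L ≤ (w - 1) * (6 * k) := mul_le_mul_of_nonneg_left hL (by linarith)
    have h5 : 4 + (w - 1) * L ≤ 6 * k * w := by nlinarith
    calc w * (4 + (w - 1) * L) ≤ w * (6 * k * w) := mul_le_mul_of_nonneg_left h5 (by linarith)
      _ = _ := by ring
  have h4 := mul_le_mul_of_nonneg_right h3 hE
  have h5 : k * m ^ 2 ≤ k * (320 * w ^ 2 * E) := by
    have h6 : (399 / 400 : ℝ) * m ≤ m - 1 := by linarith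
    have h7 : (399 / 400 : ℝ) * m * (m * k) ≤ (m - 1) * (m * k) :=
      mul_le_mul_of_nonneg_right h6 (by positivity)
    have h8 : (0 : ℝ) ≤ k * w ^ 2 * E := by positivity
    nlinarith
  exact le_of_mul_le_mul_left h5 (by linarith)

/-- the arithmetic for branching programs -/
theorem arith_program {m k w I N L g s : ℝ} (hm : 400 ≤ m) (hk : 4 ≤ k) (hw : 1 ≤ w)
    (hI : (m - 1) / 2 ≤ I) (hN : m * k / 2 ≤ N) (hL : L ≤ 6 * k) (hg : g ≤ 5 * k) (hs : 0 ≤ s)
    (h : I * (49 / 600 * N - g) ≤ w * (2 * g + (w - 1) * L) * s) : m ^ 2 ≤ 900 * w ^ 2 * s := by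
  have h1 : m * k / 40 ≤ 49 / 600 * N - g := by nlinarith
  have h2 : (m - 1) / 2 * (m * k / 40) ≤ I * (49 / 600 * N - g) := by
    apply mul_le_mul hI h1 (by positivity)
    linarith
  have h3 : w * (2 * g + (w - 1) * L) ≤ 10 * k * w ^ 2 := by
    have h4 : (w - 1) * L ≤ (w - 1) * (6 * k) := mul_le_mul_of_nonneg_left hL (by linarith)
    have h5 : 2 * g + (w - 1) * L ≤ 10 * k * w := by nlinarith
    calc w * (2 * g + (w - 1) * L) ≤ w * (10 * k * w) := mul_le_mul_of_nonneg_left h5 (by linarith)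
      _ = _ := by ring
  have h4 := mul_le_mul_of_nonneg_right h3 hs
  have h5 : k * m ^ 2 ≤ k * (900 * w ^ 2 * s) := by
    have h6 : (399 / 400 : ℝ) * m ≤ m - 1 := by linarith
    have h7 : (399 / 400 : ℝ) * m * (m * k) ≤ (m - 1) * (m * k) :=
      mul_le_mul_of_nonneg_right h6 (by positivity)
    have h8 : (0 : ℝ) ≤ k * w ^ 2 * s := by positivity
    nlinarith
  exact le_of_mul_le_mul_left h5 (by linarith)

variable {w : ℕ}

theorem formula_bound (hm : 400 ≤ m) (hw : 1 ≤ w) {Ω : Type} [Fintype Ω] (μ : Ω → ℝ)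
    (hμ : IsProb μ) (F : Ω → Fml (Fin m) (fun _ => Clause m) w (4 * m ^ 2))
    (hF : ApproximatesOn μ (fun ω => (F ω).eval) Horn sat) :
    (m : ℝ) ^ 2 ≤ 320 * w ^ 2 * expSize μ F := by
  obtain ⟨k, hk, hk1, hk2⟩ := exists_k hm
  have h := formula_lower μ hμ F Horn sat hF (Nat.mul_pos (by norm_num) (pow_pos (by omega) 2)) hw (blk m) (range (m / 2))
    (T := Fin (M m k) × Fin k) (fun b hb => queries (by omega) hk1 b (mem_range.1 hb))
  exact arith_formula (by exact_mod_cast hm) (by exact_mod_cast hk) (by exact_mod_cast hw)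
    (card_I m) (card_T (by omega) hk1) (logb_q hk (by omega) hk2)
    (sum_nonneg fun ω _ => mul_nonneg (hμ.nonneg ω) (Nat.cast_nonneg _)) h

theorem logb_s {s : ℕ} (hk : 4 ≤ k) (hm : m < 4 ^ (k + 1)) (hs : s < m ^ 2) :
    Real.logb 2 ((s : ℝ) + 2) ≤ 5 * k := by
  have h1 : ((s : ℝ) + 2) ≤ (4 : ℝ) ^ (2 * k + 2) := by
    have h2 : (m + 1) ^ 2 ≤ (4 ^ (k + 1)) ^ 2 := Nat.pow_le_pow_left (by omega) 2
    have h3 : s + 2 ≤ 4 ^ (2 * k + 2) := by
      have h4 : (4 ^ (k + 1)) ^ 2 = 4 ^ (2 * k + 2) := by ring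
      have h5 : (m + 1) ^ 2 = m ^ 2 + 2 * m + 1 := by ring
      have h6 : 0 < m := by
        by_contra h0
        have : m = 0 := by omega
        subst this
        simp at hs
      omega
    exact_mod_cast h3
  have h4 := Real.logb_le_logb_of_le (by norm_num : (1 : ℝ) < 2) (by positivity) h1
  rw [logb_four_pow] at h4
  push_cast at h4
  have hk' : (4 : ℝ) ≤ k := by exact_mod_cast hk
  linarith

theorem program_bound (hm : 400 ≤ m) (hw : 1 ≤ w) {Ω : Type} [Fintype Ω] (μ : Ω → ℝ)
    (hμ : IsProb μ) (s : ℕ) (B : Ω → Program (Fin m) (fun _ => Clause m) w (4 * m ^ 2) s)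
    (hB : ApproximatesOn μ (fun ω => (B ω).eval) Horn sat) :
    (m : ℝ) ^ 2 ≤ 900 * w ^ 2 * s := by
  have hw' : (1 : ℝ) ≤ w := by exact_mod_cast hw
  by_cases hs : m ^ 2 ≤ s
  · have h1 : (m : ℝ) ^ 2 ≤ s := by exact_mod_cast hs
    have h2 : (1 : ℝ) ≤ w ^ 2 := by nlinarith
    have h3 : (0 : ℝ) ≤ s := Nat.cast_nonneg s
    nlinarith
  obtain ⟨k, hk, hk1, hk2⟩ := exists_k hm
  have h := program_lower μ hμ B Horn sat hB (Nat.mul_pos (by norm_num) (pow_pos (by omega) 2)) hw (blk m) (range (m / 2))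
    (T := Fin (M m k) × Fin k) (fun b hb => queries (by omega) hk1 b (mem_range.1 hb))
  exact arith_program (by exact_mod_cast hm) (by exact_mod_cast hk) hw'
    (card_I m) (card_T (by omega) hk1) (logb_q hk (by omega) hk2) (logb_s hk hk2 (by omega))
    (Nat.cast_nonneg s) h

end Pool.Agent.TH457.Ary.Sat
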