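import Pool.Agent.TH457.Ary.Core
import Pool.Agent.TH457.Ary.Upper
import Pool.Agent.TH697.Form.ET

set_option autoImplicit false

/-! # Exact triangles with tests of several parts of the input -/

namespace Pool.Agent.TH457.Ary.ET

open Finset Pool.Agent.TH697.Form Pool.Agent.TH697.Row Pool.Agent.TH697.Form.ET
open Pool.Agent.TH457.Ary

variable {n b c w : ℕ}

theorem queries (he : Nonempty ((Fin (2 ^ b) ⊕ (Fin b → Bool)) ↪ Fin n)) (hpow : 2 ^ (b + 1) ≤ n)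
    (i : Fin n) : Queries (Str n b) id (InRange n (n ^ 2)) (zeroTri n) (some i) := by
  classical
  obtain ⟨e⟩ := he
  exact queries_of_update (InRange n (n ^ 2)) (zeroTri n) (some i)
    (fun t : Str n b => t.2.1.val * b + t.2.2.val) (fun t z => ask e t z) (enc e)
    (fun t z z' h => ask_causal e t z z' h) (fun t z => inRange_enc e i t z hpow)
    (fun t z => zeroTri_enc e i t z hpow)

theorem exists_b (hn : 8 ≤ n) : ∃ b, 2 ≤ b ∧ 2 ^ (b + 1) ≤ n ∧ n < 2 ^ (b + 2) ∧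
    Nonempty ((Fin (2 ^ b) ⊕ (Fin b → Bool)) ↪ Fin n) := by
  have h3 : 3 ≤ Nat.log 2 n := by
    have := Nat.log_mono_right (b := 2) hn
    rwa [show Nat.log 2 8 = 3 by decide] at this
  obtain ⟨b, hb⟩ : ∃ b, Nat.log 2 n = b + 1 := ⟨Nat.log 2 n - 1, by omega⟩
  have hpow : 2 ^ (b + 1) ≤ n := by
    rw [← hb]
    exact Nat.pow_log_le_self 2 (by omega)
  refine ⟨b, by omega, hpow, ?_, ?_⟩
  · have := Nat.lt_pow_succ_log_self (b := 2) (by norm_num) n
    rw [hb] at this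
    exact this
  · rw [Function.Embedding.nonempty_iff_card_le]
    simp only [Fintype.card_sum, Fintype.card_fin, Fintype.card_fun, Fintype.card_bool]
    rw [pow_succ] at hpow
    omega

theorem card_str (h : n < 2 ^ (b + 2)) :
    (n : ℝ) ^ 2 * b / 4 ≤ ((Fintype.card (Str n b) : ℕ) : ℝ) := by
  have e1 : ((Fintype.card (Str n b) : ℕ) : ℝ) = (n : ℝ) * 2 ^ b * b := by
    simp [Str]; ring
  rw [e1]
  have e2 : (n : ℝ) / 4 ≤ 2 ^ b := by
    have h3 : (n : ℝ) < 2 ^ (b + 2) := by exact_mod_cast h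
    have h4 : (2 : ℝ) ^ (b + 2) = 4 * 2 ^ b := by rw [pow_add]; ring
    linarith
  have e3 : (n : ℝ) ^ 2 * b / 4 = n * (n / 4) * b := by ring
  rw [e3]
  gcongr

theorem logb_two_pow' (d : ℕ) : Real.logb 2 ((2 : ℝ) ^ d) = d := by
  rw [← Real.rpow_natCast, Real.logb_rpow (by norm_num) (by norm_num)]

theorem logb_n (hb : 2 ≤ b) (hn : 1 ≤ n) (h : n < 2 ^ (b + 2)) :
    Real.logb 2 ((n ^ c : ℕ) : ℝ) ≤ 2 * c * b := by
  push_cast
  rw [Real.logb_pow]
  have h1 : (n : ℝ) ≤ (2 : ℝ) ^ (b + 2) := by exact_mod_cast h.le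
  have h2 := Real.logb_le_logb_of_le (by norm_num : (1 : ℝ) < 2) (by exact_mod_cast hn) h1
  rw [logb_two_pow'] at h2
  push_cast at h2
  have hb' : (2 : ℝ) ≤ b := by exact_mod_cast hb
  calc (c : ℝ) * Real.logb 2 n ≤ c * (2 * b) :=
        mul_le_mul_of_nonneg_left (by linarith) (Nat.cast_nonneg c)
    _ = _ := by ring

/-- the arithmetic for formulas -/
theorem arith_formula {n b c w N L E : ℝ} (hn : 24 ≤ n) (hb : 2 ≤ b) (hc : 1 ≤ c) (hw : 1 ≤ w)
    (hN : n ^ 2 * b / 4 ≤ N) (hL : L ≤ 2 * c * b) (hE : 0 ≤ E)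
    (h : n * (49 / 600 * N - 1) ≤ w * (4 + (w - 1) * L) * E) : n ^ 3 ≤ 200 * c * w ^ 2 * E := by
  have h0 : 576 ≤ n ^ 2 := by nlinarith
  have h1 : n ^ 2 * b / 100 ≤ 49 / 600 * N - 1 := by nlinarith
  have h2 : n * (n ^ 2 * b / 100) ≤ n * (49 / 600 * N - 1) :=
    mul_le_mul_of_nonneg_left h1 (by linarith)
  have h3 : w * (4 + (w - 1) * L) ≤ 2 * c * b * w ^ 2 := by
    have h4 : (w - 1) * L ≤ (w - 1) * (2 * c * b) := mul_le_mul_of_nonneg_left hL (by linarith)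
    have h5 : 4 ≤ 2 * c * b := by nlinarith
    calc w * (4 + (w - 1) * L) ≤ w * (2 * c * b * w) :=
          mul_le_mul_of_nonneg_left (by nlinarith) (by linarith)
      _ = _ := by ring
  have h4 := mul_le_mul_of_nonneg_right h3 hE
  have h5 : b * n ^ 3 ≤ b * (200 * c * w ^ 2 * E) := by
    have e1 : n * (n ^ 2 * b / 100) = b * n ^ 3 / 100 := by ring
    have e2 : 2 * c * b * w ^ 2 * E = b * (200 * c * w ^ 2 * E) / 100 := by ring
    rw [e1] at h2
    rw [e2] at h4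
    linarith
  exact le_of_mul_le_mul_left h5 (by linarith)

/-- the arithmetic for branching programs -/
theorem arith_program {n b c w N L g s : ℝ} (hn : 24 ≤ n) (hb : 2 ≤ b) (hc : 1 ≤ c) (hw : 1 ≤ w)
    (hN : n ^ 2 * b / 4 ≤ N) (hL : L ≤ 2 * c * b) (hg : g ≤ 6 * b) (hs : 0 ≤ s)
    (h : n * (49 / 600 * N - g) ≤ w * (2 * g + (w - 1) * L) * s) :
    n ^ 3 ≤ 1200 * c * w ^ 2 * s := by
  have h0 : 576 ≤ n ^ 2 := by nlinarith
  have h1 : n ^ 2 * b / 100 ≤ 49 / 600 * N - g := by nlinarith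
  have h2 : n * (n ^ 2 * b / 100) ≤ n * (49 / 600 * N - g) :=
    mul_le_mul_of_nonneg_left h1 (by linarith)
  have h3 : w * (2 * g + (w - 1) * L) ≤ 12 * c * b * w ^ 2 := by
    have h4 : (w - 1) * L ≤ (w - 1) * (2 * c * b) := mul_le_mul_of_nonneg_left hL (by linarith)
    have h5 : 2 * g ≤ 12 * c * b := by nlinarith
    have h6 : 0 ≤ (w - 1) * (c * b) := by
      apply mul_nonneg (by linarith)
      positivity
    calc w * (2 * g + (w - 1) * L) ≤ w * (12 * c * b * w) :=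
          mul_le_mul_of_nonneg_left (by nlinarith) (by linarith)
      _ = _ := by ring
  have h4 := mul_le_mul_of_nonneg_right h3 hs
  have h5 : b * n ^ 3 ≤ b * (1200 * c * w ^ 2 * s) := by
    have e1 : n * (n ^ 2 * b / 100) = b * n ^ 3 / 100 := by ring
    have e2 : 12 * c * b * w ^ 2 * s = b * (1200 * c * w ^ 2 * s) / 100 := by ring
    rw [e1] at h2
    rw [e2] at h4
    linarith
  exact le_of_mul_le_mul_left h5 (by linarith)

theorem logb_s {s : ℕ} (hb : 2 ≤ b) (hn : 1 ≤ n) (h : n < 2 ^ (b + 2)) (hs : s < n ^ 3) :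
    Real.logb 2 ((s : ℝ) + 2) ≤ 6 * b := by
  have h1 : ((s : ℝ) + 2) ≤ (2 : ℝ) ^ (3 * (b + 2)) := by
    have h2 : (n + 1) ^ 3 ≤ (2 ^ (b + 2)) ^ 3 := Nat.pow_le_pow_left (by omega) 3
    have h3 : s + 2 ≤ 2 ^ (3 * (b + 2)) := by
      have h4 : (2 ^ (b + 2)) ^ 3 = 2 ^ (3 * (b + 2)) := by rw [← pow_mul, mul_comm]
      have h5 : (n + 1) ^ 3 = n ^ 3 + 3 * n ^ 2 + 3 * n + 1 := by ring
      have h6 : 0 < n ^ 2 := by positivity
      omega
    exact_mod_cast h3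
  have h4 := Real.logb_le_logb_of_le (by norm_num : (1 : ℝ) < 2) (by positivity) h1
  rw [logb_two_pow'] at h4
  push_cast at h4
  have hb' : (2 : ℝ) ≤ b := by exact_mod_cast hb
  linarith

theorem formula_bound (hn : 24 ≤ n) (hc : 1 ≤ c) (hw : 1 ≤ w) {Ω : Type} [Fintype Ω] (μ : Ω → ℝ)
    (hμ : IsProb μ) (F : Ω → Fml (Option (Fin n)) (Item n) w (n ^ c))
    (hF : ApproximatesOn μ (fun ω => (F ω).eval) (InRange n (n ^ 2)) (zeroTri n)) :
    (n : ℝ) ^ 3 ≤ 200 * c * w ^ 2 * expSize μ F := by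
  classical
  obtain ⟨b, hb, hb1, hb2, he⟩ := exists_b (n := n) (by omega)
  have h := formula_lower μ hμ F (InRange n (n ^ 2)) (zeroTri n) hF
    (Nat.one_le_pow _ _ (by omega)) hw id
    ((univ : Finset (Fin n)).map Function.Embedding.some) (T := Str n b) (by
      intro a ha
      rw [mem_map] at ha
      obtain ⟨i, -, rfl⟩ := ha
      exact queries he hb1 i)
  rw [card_map, card_univ, Fintype.card_fin] at h
  exact arith_formula (by exact_mod_cast hn) (by exact_mod_cast hb) (by exact_mod_cast hc)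
    (by exact_mod_cast hw) (card_str hb2) (logb_n hb (by omega) hb2)
    (sum_nonneg fun ω _ => mul_nonneg (hμ.nonneg ω) (Nat.cast_nonneg _)) h

theorem program_bound (hn : 24 ≤ n) (hc : 1 ≤ c) (hw : 1 ≤ w) {Ω : Type} [Fintype Ω] (μ : Ω → ℝ)
    (hμ : IsProb μ) (s : ℕ) (B : Ω → Program (Option (Fin n)) (Item n) w (n ^ c) s)
    (hB : ApproximatesOn μ (fun ω => (B ω).eval) (InRange n (n ^ 2)) (zeroTri n)) :
    (n : ℝ) ^ 3 ≤ 1200 * c * w ^ 2 * s := by
  classical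
  have hw' : (1 : ℝ) ≤ w := by exact_mod_cast hw
  have hc' : (1 : ℝ) ≤ c := by exact_mod_cast hc
  have hs0 : (0 : ℝ) ≤ s := Nat.cast_nonneg s
  by_cases hs : n ^ 3 ≤ s
  · have h1 : (n : ℝ) ^ 3 ≤ s := by exact_mod_cast hs
    have h2 : (1 : ℝ) ≤ w ^ 2 := by nlinarith
    have h3 : (1 : ℝ) ≤ c * w ^ 2 := by nlinarith
    nlinarith
  obtain ⟨b, hb, hb1, hb2, he⟩ := exists_b (n := n) (by omega)
  have h := program_lower μ hμ B (InRange n (n ^ 2)) (zeroTri n) hB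
    (Nat.one_le_pow _ _ (by omega)) hw id
    ((univ : Finset (Fin n)).map Function.Embedding.some) (T := Str n b) (by
      intro a ha
      rw [mem_map] at ha
      obtain ⟨i, -, rfl⟩ := ha
      exact queries he hb1 i)
  rw [card_map, card_univ, Fintype.card_fin] at h
  exact arith_program (by exact_mod_cast hn) (by exact_mod_cast hb) hc' hw' (card_str hb2)
    (logb_n hb (by omega) hb2)
    (logb_s hb (by omega) hb2 (by omega)) hs0 h

/-- does the triangle `i, k, j` have weight zero? -/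
def tri (n q : ℕ) [NeZero q] (p : Fin n × Fin n × Fin n) :
    Test (Option (Fin n)) (Item n) 2 q where
  item := ![some p.1, none]
  view := fun k => match k with
    | ⟨0, _⟩ => fun (v : (Fin n → ℤ) × (Fin n → ℤ)) =>
        Fin.ofNat q (v.1 p.2.1 + v.2 p.2.2 + 2 * n ^ 2).toNat
    | ⟨1, _⟩ => fun (B : Fin n → Fin n → ℤ) => Fin.ofNat q (2 * n ^ 2 - B p.2.1 p.2.2).toNat
  out := fun c => decide (c 0 = c 1)

theorem tri_eval (q : ℕ) [NeZero q] (hq : 4 * n ^ 2 < q) (p : Fin n × Fin n × Fin n)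
    (x : ∀ i, Item n i) (hx : InRange n (n ^ 2) x) : (tri n q p).eval x = true ↔
      (x (some p.1)).1 p.2.1 + x none p.2.1 p.2.2 + (x (some p.1)).2 p.2.2 = 0 := by
  have h1 := abs_le.1 (hx.1 p.2.1 p.2.2)
  have h2 := abs_le.1 (hx.2 p.1 p.2.1).1
  have h3 := abs_le.1 (hx.2 p.1 p.2.2).2
  push_cast at h1 h2 h3
  have hq' : (4 : ℤ) * (n : ℤ) ^ 2 < q := by exact_mod_cast hq
  unfold Test.eval
  simp only [tri]
  rw [decide_eq_true_iff]
  have e0 : ((Fin.ofNat q ((x (some p.1)).1 p.2.1 + (x (some p.1)).2 p.2.2 + 2 * n ^ 2).toNat :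
      Fin q) = Fin.ofNat q (2 * n ^ 2 - x none p.2.1 p.2.2).toNat) ↔
      (x (some p.1)).1 p.2.1 + x none p.2.1 p.2.2 + (x (some p.1)).2 p.2.2 = 0 := by
    obtain ⟨N, hN⟩ : ∃ N : ℤ, N = (n : ℤ) ^ 2 := ⟨_, rfl⟩
    rw [← hN] at h1 h2 h3 hq' ⊢
    rw [Fin.ext_iff, Fin.ofNat, Fin.ofNat]
    simp only
    rw [Nat.mod_eq_of_lt (by omega), Nat.mod_eq_of_lt (by omega)]
    omega
  exact e0

theorem upper (hn : 5 ≤ n) :
    (∃ F : Fml (Option (Fin n)) (Item n) 2 (n ^ 3), F.size = n ^ 3 ∧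
      ∀ x, InRange n (n ^ 2) x → F.eval x = zeroTri n x) ∧
    ∃ B : Program (Option (Fin n)) (Item n) 2 (n ^ 3) (n ^ 3),
      ∀ x, InRange n (n ^ 2) x → B.eval x = zeroTri n x := by
  classical
  have hq : 4 * n ^ 2 < n ^ 3 := by
    have : 0 < n ^ 2 := by positivity
    rw [pow_succ n 2]
    nlinarith
  have : NeZero (n ^ 3) := ⟨by omega⟩
  have : NeZero n := ⟨by omega⟩
  have e : Fintype.card (Fin n × Fin n × Fin n) = n ^ 3 := by simp; ring
  have key : ∀ x, InRange n (n ^ 2) x →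
      (decide (∃ p, (tri n (n ^ 3) p).eval x = true)) = zeroTri n x := by
    intro x hx
    unfold zeroTri
    rw [Bool.eq_iff_iff, decide_eq_true_iff, decide_eq_true_iff]
    constructor
    · rintro ⟨p, hp⟩
      exact ⟨p.1, p.2.1, p.2.2, (tri_eval (n ^ 3) hq p x hx).1 hp⟩
    · rintro ⟨i, k, j, h⟩
      exact ⟨(i, k, j), (tri_eval (n ^ 3) hq (i, k, j) x hx).2 h⟩
  have h := exists_or (tri n (n ^ 3)) (fun x => decide (∃ p, (tri n (n ^ 3) p).eval x = true))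
    (fun x => by rw [decide_eq_true_iff])
  rw [e] at h
  obtain ⟨⟨F, h1, h2⟩, B, h3⟩ := h
  exact ⟨⟨F, h1, fun x hx => (h2 x).trans (key x hx)⟩, B, fun x hx => (h3 x).trans (key x hx)⟩

end Pool.Agent.TH457.Ary.ET
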