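import Pool.Agent.TH457.Ary.Core
import Pool.Agent.TH457.Ary.Upper
import Pool.Agent.TH697.Form.MinPlus

set_option autoImplicit false

/-! # Negative triangles with tests of several parts of the input -/

namespace Pool.Agent.TH457.Ary.MinPlus

open Finset Pool.Agent.TH697.Form Pool.Agent.TH697.Row Pool.Agent.TH697.Form.MinPlus
open Pool.Agent.TH457.Ary

variable {n b c w : ℕ}

theorem queries (i : Fin n) : Queries (Fin n × Fin n × Fin b) id (InRange n (2 ^ b + 1))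
    (shortcut n) (some i) :=
  queries_of_update (InRange n (2 ^ b + 1)) (shortcut n) (some i)
    (fun t : Fin n × Fin n × Fin b => b - t.2.2.val) (fun t z => ask t z) enc
    (by
      intro t z z' hz
      simp only [ask]
      rw [thr_causal (fun s => z (t.1, t.2.1, s)) (fun s => z' (t.1, t.2.1, s)) t.2.2]
      intro s' hs'
      apply hz
      rw [Fin.lt_def] at hs'
      have := s'.2
      simp only
      omega)
    (fun t z => inRange_enc i t z) (fun t z => shortcut_enc i t z)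

theorem inRange_mono {W W' : ℕ} (h : W ≤ W') (x : ∀ i, Item n i) (hx : InRange n W x) :
    InRange n W' x :=
  ⟨fun k j => ⟨(hx.1 k j).1, (hx.1 k j).2.trans h⟩, fun i k =>
    ⟨⟨(hx.2 i k).1.1, (hx.2 i k).1.2.trans h⟩, ⟨(hx.2 i k).2.1, (hx.2 i k).2.2.trans h⟩⟩⟩

theorem card_T : ((Fintype.card (Fin n × Fin n × Fin b) : ℕ) : ℝ) = (n : ℝ) ^ 2 * b := by
  simp; ring

theorem logb_two_pow' (d : ℕ) : Real.logb 2 ((2 : ℝ) ^ d) = d := by
  rw [← Real.rpow_natCast, Real.logb_rpow (by norm_num) (by norm_num)]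

theorem logb_q (hn : 1 ≤ n) (hb : 4 ≤ b) (h : n < 2 ^ (b + 1)) :
    Real.logb 2 ((n ^ c : ℕ) : ℝ) ≤ 5 / 4 * c * b := by
  push_cast
  rw [Real.logb_pow]
  have h1 : (n : ℝ) ≤ (2 : ℝ) ^ (b + 1) := by exact_mod_cast h.le
  have h2 := Real.logb_le_logb_of_le (by norm_num : (1 : ℝ) < 2) (by exact_mod_cast hn) h1
  rw [logb_two_pow'] at h2
  push_cast at h2
  have hb' : (4 : ℝ) ≤ b := by exact_mod_cast hb
  calc (c : ℝ) * Real.logb 2 n ≤ c * (5 / 4 * b) :=
        mul_le_mul_of_nonneg_left (by linarith) (Nat.cast_nonneg c)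
    _ = _ := by ring

/-- the arithmetic for formulas -/
theorem arith_formula {n b c w L E : ℝ} (hn : 16 ≤ n) (hb : 4 ≤ b) (hc : 1 ≤ c) (hw : 1 ≤ w)
    (hL : L ≤ 5 / 4 * c * b) (hE : 0 ≤ E)
    (h : n * (49 / 600 * (n ^ 2 * b) - 1) ≤ w * (4 + (w - 1) * L) * E) :
    n ^ 3 ≤ 40 * c * w ^ 2 * E := by
  have h0 : 256 ≤ n ^ 2 := by nlinarith
  have h1 : n ^ 2 * b / 25 ≤ 49 / 600 * (n ^ 2 * b) - 1 := by nlinarith
  have h2 : n * (n ^ 2 * b / 25) ≤ n * (49 / 600 * (n ^ 2 * b) - 1) :=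
    mul_le_mul_of_nonneg_left h1 (by linarith)
  have h3 : w * (4 + (w - 1) * L) ≤ 5 / 4 * c * b * w ^ 2 := by
    have h4 : (w - 1) * L ≤ (w - 1) * (5 / 4 * c * b) := mul_le_mul_of_nonneg_left hL (by linarith)
    have h5 : 4 ≤ 5 / 4 * c * b := by nlinarith
    calc w * (4 + (w - 1) * L) ≤ w * (5 / 4 * c * b * w) :=
          mul_le_mul_of_nonneg_left (by nlinarith) (by linarith)
      _ = _ := by ring
  have h4 := mul_le_mul_of_nonneg_right h3 hE
  have h5 : b * n ^ 3 ≤ b * (40 * c * w ^ 2 * E) := by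
    have e1 : n * (n ^ 2 * b / 25) = b * n ^ 3 / 25 := by ring
    have e2 : 5 / 4 * c * b * w ^ 2 * E = b * (5 / 4 * c * w ^ 2 * E) := by ring
    have e3 : 0 ≤ b * (c * w ^ 2 * E) := by positivity
    rw [e1] at h2
    rw [e2] at h4
    nlinarith
  exact le_of_mul_le_mul_left h5 (by linarith)

/-- the arithmetic for branching programs -/
theorem arith_program {n b c w L g s : ℝ} (hn : 16 ≤ n) (hb : 4 ≤ b) (hc : 1 ≤ c) (hw : 1 ≤ w)
    (hL : L ≤ 5 / 4 * c * b) (hg : g ≤ 15 / 4 * b) (hs : 0 ≤ s)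
    (h : n * (49 / 600 * (n ^ 2 * b) - g) ≤ w * (2 * g + (w - 1) * L) * s) :
    n ^ 3 ≤ 200 * c * w ^ 2 * s := by
  have h0 : 256 ≤ n ^ 2 := by nlinarith
  have h1 : n ^ 2 * b / 25 ≤ 49 / 600 * (n ^ 2 * b) - g := by nlinarith
  have h2 : n * (n ^ 2 * b / 25) ≤ n * (49 / 600 * (n ^ 2 * b) - g) :=
    mul_le_mul_of_nonneg_left h1 (by linarith)
  have h3 : w * (2 * g + (w - 1) * L) ≤ 15 / 2 * c * b * w ^ 2 := by
    have h4 : (w - 1) * L ≤ (w - 1) * (5 / 4 * c * b) := mul_le_mul_of_nonneg_left hL (by linarith)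
    have h5 : 2 * g ≤ 15 / 2 * c * b := by nlinarith
    have h6 : 0 ≤ (w - 1) * (c * b) := by
      apply mul_nonneg (by linarith)
      positivity
    calc w * (2 * g + (w - 1) * L) ≤ w * (15 / 2 * c * b * w) :=
          mul_le_mul_of_nonneg_left (by nlinarith) (by linarith)
      _ = _ := by ring
  have h4 := mul_le_mul_of_nonneg_right h3 hs
  have h5 : b * n ^ 3 ≤ b * (200 * c * w ^ 2 * s) := by
    have e1 : n * (n ^ 2 * b / 25) = b * n ^ 3 / 25 := by ring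
    have e2 : 15 / 2 * c * b * w ^ 2 * s = b * (15 / 2 * c * w ^ 2 * s) := by ring
    have e3 : 0 ≤ b * (c * w ^ 2 * s) := by positivity
    rw [e1] at h2
    rw [e2] at h4
    nlinarith
  exact le_of_mul_le_mul_left h5 (by linarith)

theorem logb_s {s : ℕ} (hb : 4 ≤ b) (hn : 1 ≤ n) (h : n < 2 ^ (b + 1)) (hs : s < n ^ 3) :
    Real.logb 2 ((s : ℝ) + 2) ≤ 15 / 4 * b := by
  have h1 : ((s : ℝ) + 2) ≤ (2 : ℝ) ^ (3 * (b + 1)) := by
    have h2 : (n + 1) ^ 3 ≤ (2 ^ (b + 1)) ^ 3 := Nat.pow_le_pow_left (by omega) 3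
    have h3 : s + 2 ≤ 2 ^ (3 * (b + 1)) := by
      have h4 : (2 ^ (b + 1)) ^ 3 = 2 ^ (3 * (b + 1)) := by rw [← pow_mul, mul_comm]
      have h5 : (n + 1) ^ 3 = n ^ 3 + 3 * n ^ 2 + 3 * n + 1 := by ring
      have h6 : 0 < n ^ 2 := by positivity
      omega
    exact_mod_cast h3
  have h4 := Real.logb_le_logb_of_le (by norm_num : (1 : ℝ) < 2) (by positivity) h1
  rw [logb_two_pow'] at h4
  push_cast at h4
  have hb' : (4 : ℝ) ≤ b := by exact_mod_cast hb
  linarith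

theorem exists_b (hn : 16 ≤ n) : ∃ b, 4 ≤ b ∧ 2 ^ b ≤ n ∧ n < 2 ^ (b + 1) := by
  refine ⟨Nat.log 2 n, ?_, Nat.pow_log_le_self 2 (by omega),
    Nat.lt_pow_succ_log_self (by norm_num) n⟩
  have := Nat.log_mono_right (b := 2) hn
  rwa [show Nat.log 2 16 = 4 by decide +kernel] at this

theorem formula_bound (hn : 16 ≤ n) (hc : 1 ≤ c) (hw : 1 ≤ w) {Ω : Type} [Fintype Ω] (μ : Ω → ℝ)
    (hμ : IsProb μ) (F : Ω → Fml (Option (Fin n)) (Item n) w (n ^ c))
    (hF : ApproximatesOn μ (fun ω => (F ω).eval) (InRange n (n + 1)) (shortcut n)) :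
    (n : ℝ) ^ 3 ≤ 40 * c * w ^ 2 * expSize μ F := by
  classical
  obtain ⟨b, hb, hb1, hb2⟩ := exists_b hn
  have h := formula_lower μ hμ F (InRange n (2 ^ b + 1)) (shortcut n)
    (fun x hx => hF x (inRange_mono (by omega) x hx)) (Nat.one_le_pow _ _ (by omega)) hw id
    ((univ : Finset (Fin n)).map Function.Embedding.some) (T := Fin n × Fin n × Fin b) (by
      intro a ha
      rw [mem_map] at ha
      obtain ⟨i, -, rfl⟩ := ha
      exact queries i)
  rw [card_map, card_univ, Fintype.card_fin, card_T] at h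
  exact arith_formula (by exact_mod_cast hn) (by exact_mod_cast hb) (by exact_mod_cast hc)
    (by exact_mod_cast hw) (logb_q (by omega) hb hb2)
    (sum_nonneg fun ω _ => mul_nonneg (hμ.nonneg ω) (Nat.cast_nonneg _)) h

theorem program_bound (hn : 16 ≤ n) (hc : 1 ≤ c) (hw : 1 ≤ w) {Ω : Type} [Fintype Ω] (μ : Ω → ℝ)
    (hμ : IsProb μ) (s : ℕ) (B : Ω → Program (Option (Fin n)) (Item n) w (n ^ c) s)
    (hB : ApproximatesOn μ (fun ω => (B ω).eval) (InRange n (n + 1)) (shortcut n)) :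
    (n : ℝ) ^ 3 ≤ 200 * c * w ^ 2 * s := by
  classical
  have hw' : (1 : ℝ) ≤ w := by exact_mod_cast hw
  have hc' : (1 : ℝ) ≤ c := by exact_mod_cast hc
  have hs0 : (0 : ℝ) ≤ s := Nat.cast_nonneg s
  by_cases hs : n ^ 3 ≤ s
  · have h1 : (n : ℝ) ^ 3 ≤ s := by exact_mod_cast hs
    have h2 : (1 : ℝ) ≤ w ^ 2 := by nlinarith
    have h3 : (1 : ℝ) ≤ c * w ^ 2 := by nlinarith
    nlinarith
  obtain ⟨b, hb, hb1, hb2⟩ := exists_b hn
  have h := program_lower μ hμ B (InRange n (2 ^ b + 1)) (shortcut n)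
    (fun x hx => hB x (inRange_mono (by omega) x hx)) (Nat.one_le_pow _ _ (by omega)) hw id
    ((univ : Finset (Fin n)).map Function.Embedding.some) (T := Fin n × Fin n × Fin b) (by
      intro a ha
      rw [mem_map] at ha
      obtain ⟨i, -, rfl⟩ := ha
      exact queries i)
  rw [card_map, card_univ, Fintype.card_fin, card_T] at h
  exact arith_program (by exact_mod_cast hn) (by exact_mod_cast hb) hc' hw'
    (logb_q (by omega) hb hb2) (logb_s hb (by omega) hb2 (by omega)) hs0 h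

/-- is the path `i → k → j` shorter than the edge `i → j`? -/
def tri (n q : ℕ) [NeZero q] (p : Fin n × Fin n × Fin n) :
    Test (Option (Fin n)) (Item n) 2 q where
  item := ![some p.1, none]
  view := fun k => match k with
    | ⟨0, _⟩ => fun (v : (Fin n → ℕ) × (Fin n → ℕ)) =>
        Fin.ofNat q (v.1 p.2.1 + (n + 1) - v.2 p.2.2)
    | ⟨1, _⟩ => fun (B : Fin n → Fin n → ℕ) => Fin.ofNat q (n + 1 - B p.2.1 p.2.2)
  out := fun c => decide ((c 0).val < (c 1).val)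

theorem tri_eval (q : ℕ) [NeZero q] (hq : 2 * n + 2 < q) (p : Fin n × Fin n × Fin n)
    (x : ∀ i, Item n i) (hx : InRange n (n + 1) x) : (tri n q p).eval x = true ↔
      (x (some p.1)).1 p.2.1 + x none p.2.1 p.2.2 < (x (some p.1)).2 p.2.2 := by
  have h1 := hx.1 p.2.1 p.2.2
  have h2 := (hx.2 p.1 p.2.1).1
  have h3 := (hx.2 p.1 p.2.2).2
  unfold Test.eval
  simp only [tri]
  rw [decide_eq_true_iff]
  have e0 : (Fin.ofNat q ((x (some p.1)).1 p.2.1 + (n + 1) - (x (some p.1)).2 p.2.2) :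
      Fin q).val < (Fin.ofNat q (n + 1 - x none p.2.1 p.2.2) : Fin q).val ↔
      (x (some p.1)).1 p.2.1 + x none p.2.1 p.2.2 < (x (some p.1)).2 p.2.2 := by
    rw [Fin.ofNat, Fin.ofNat]
    simp only
    rw [Nat.mod_eq_of_lt (by omega), Nat.mod_eq_of_lt (by omega)]
    omega
  exact e0

theorem upper (hn : 4 ≤ n) :
    (∃ F : Fml (Option (Fin n)) (Item n) 2 (n ^ 2), F.size = n ^ 3 ∧
      ∀ x, InRange n (n + 1) x → F.eval x = shortcut n x) ∧
    ∃ B : Program (Option (Fin n)) (Item n) 2 (n ^ 2) (n ^ 3),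
      ∀ x, InRange n (n + 1) x → B.eval x = shortcut n x := by
  classical
  have hq : 2 * n + 2 < n ^ 2 := by nlinarith
  have : NeZero (n ^ 2) := ⟨by omega⟩
  have : NeZero n := ⟨by omega⟩
  have e : Fintype.card (Fin n × Fin n × Fin n) = n ^ 3 := by simp; ring
  have key : ∀ x, InRange n (n + 1) x →
      (decide (∃ p, (tri n (n ^ 2) p).eval x = true)) = shortcut n x := by
    intro x hx
    unfold shortcut
    rw [Bool.eq_iff_iff, decide_eq_true_iff, decide_eq_true_iff]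
    constructor
    · rintro ⟨p, hp⟩
      exact ⟨p.1, p.2.1, p.2.2, (tri_eval (n ^ 2) hq p x hx).1 hp⟩
    · rintro ⟨i, k, j, h⟩
      exact ⟨(i, k, j), (tri_eval (n ^ 2) hq (i, k, j) x hx).2 h⟩
  have h := exists_or (tri n (n ^ 2)) (fun x => decide (∃ p, (tri n (n ^ 2) p).eval x = true))
    (fun x => by rw [decide_eq_true_iff])
  rw [e] at h
  obtain ⟨⟨F, h1, h2⟩, B, h3⟩ := h
  exact ⟨⟨F, h1, fun x hx => (h2 x).trans (key x hx)⟩, B, fun x hx => (h3 x).trans (key x hx)⟩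

end Pool.Agent.TH457.Ary.MinPlus
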