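import Pool.Agent.TH697.Form.ThreeSumDefs

set_option autoImplicit false

/-! # 3SUM: three numbers with sum zero -/

namespace Pool.Agent.TH457.Ary.ZeroSum

open Pool.Agent.TH697.Form.ThreeSum

/-- Do three different ones of the numbers have the sum zero? -/
def zeroSum (n : ℕ) (x : ∀ i, Item n n i) : Bool :=
  decide (∃ p q r : Fin n ⊕ Fin n, p ≠ q ∧ p ≠ r ∧ q ≠ r ∧ nums x p + nums x q + nums x r = 0)

end Pool.Agent.TH457.Ary.ZeroSum
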