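import Pool.Agent.TH457.Ary.ThreeSum
import Pool.Agent.TH457.Ary.ZeroSumDefs

set_option autoImplicit false

/-! # 3SUM: three numbers with sum zero -/

namespace Pool.Agent.TH457.Ary.ZeroSum

open Finset Pool.Agent.TH697.Form Pool.Agent.TH697.Row Pool.Agent.TH697.Form.ThreeSum
open Pool.Agent.TH457.Ary Pool.Agent.TH457.Ary.ThreeSum

variable {n b c w : ℕ}

/-- the sign of a number changes -/
def Flips (n : ℕ) (p : Fin n ⊕ Fin n) : Prop := ∃ j, p = .inr j ∧ j.val < n / 2

open Classical in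
/-- the numbers with the sign changed for the first half of the list -/
noncomputable def flip (x : ∀ i, Item n n i) : ∀ i, Item n n i
  | none => fun j => if j.val < n / 2 then -(x none j) else x none j
  | some i => x (some i)

theorem flip_update (x : ∀ i, Item n n i) (i : Fin n) (d : ℤ) :
    flip (Function.update x (some i) d) = Function.update (flip x) (some i) d := by
  funext k
  rcases k with _ | k
  · simp only [flip]
    rw [Function.update_of_ne (by simp), Function.update_of_ne (by simp)]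
    rfl
  · by_cases hk : k = i
    · subst hk
      simp only [flip]
      rw [Function.update_self, Function.update_self]
    · simp only [flip]
      rw [Function.update_of_ne (by simpa using hk), Function.update_of_ne (by simpa using hk)]
      rfl

theorem nums_flip (x : ∀ i, Item n n i) (p : Fin n ⊕ Fin n) (h : Flips n p) :
    nums (flip x) p = -nums x p := by
  obtain ⟨j, rfl, hj⟩ := h
  simp only [nums, flip]
  rw [if_pos hj]

theorem nums_not_flip (x : ∀ i, Item n n i) (p : Fin n ⊕ Fin n) (h : ¬ Flips n p) :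
    nums (flip x) p = nums x p := by
  rcases p with i | j
  · rfl
  · have hj : ¬ j.val < n / 2 := fun hj => h ⟨j, rfl, hj⟩
    simp only [nums, flip]
    rw [if_neg hj]

section

variable (i : Fin n) (t : Fin (n / 2) × Fin b) (z : Fin (n / 2) × Fin b → Bool)

theorem nums_pos (hb : 2 * (b * 2 ^ b) ≤ n) (p : Fin n ⊕ Fin n) : 0 < nums (inp i t z) p := by
  obtain ⟨g, l, e, a, c⟩ := desc2 i t z hb p
  have hn : (0 : ℤ) < ((n + n : ℕ) : ℤ) ^ 2 := by
    have := i.2
    have : 0 < n + n := by omega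
    positivity
  have hg : 1 ≤ g := by
    rcases c with c | c | c | c <;> omega
  have h3 := abs_le.1 a
  rw [e]
  nlinarith

theorem valid_flip (hb : 2 * (b * 2 ^ b) ≤ n) (hn : 400 ≤ n) :
    Valid n n (flip (inp i t z)) := by
  obtain ⟨h1, h2⟩ := valid_inp i t z hb (by omega)
  constructor
  · intro p q h
    apply h1
    have hp := nums_pos i t z hb p
    have hq := nums_pos i t z hb q
    by_cases hp' : Flips n p <;> by_cases hq' : Flips n q
    · rw [nums_flip _ p hp', nums_flip _ q hq'] at h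
      linarith
    · rw [nums_flip _ p hp', nums_not_flip _ q hq'] at h
      linarith
    · rw [nums_not_flip _ p hp', nums_flip _ q hq'] at h
      linarith
    · rw [nums_not_flip _ p hp', nums_not_flip _ q hq'] at h
      linarith
  · intro p
    by_cases hp' : Flips n p
    · rw [nums_flip _ p hp', abs_neg]
      exact h2 p
    · rw [nums_not_flip _ p hp']
      exact h2 p

theorem zeroSum_flip (hb : 2 * (b * 2 ^ b) ≤ n) :
    zeroSum n (flip (inp i t z)) = z t := by
  rw [← threeSum_inp i t z hb]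
  unfold zeroSum threeSum
  rw [Bool.eq_iff_iff, decide_eq_true_iff, decide_eq_true_iff]
  constructor
  · rintro ⟨p, q, r, hpq, hpr, hqr, h⟩
    have hp := nums_pos i t z hb p
    have hq := nums_pos i t z hb q
    have hr := nums_pos i t z hb r
    by_cases hp' : Flips n p <;> by_cases hq' : Flips n q <;> by_cases hr' : Flips n r
    · exfalso
      rw [nums_flip _ p hp', nums_flip _ q hq', nums_flip _ r hr'] at h
      linarith
    · rw [nums_flip _ p hp', nums_flip _ q hq', nums_not_flip _ r hr'] at h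
      exact ⟨p, q, r, hpq, hpr, hqr, by linarith⟩
    · rw [nums_flip _ p hp', nums_not_flip _ q hq', nums_flip _ r hr'] at h
      exact ⟨p, r, q, hpr, hpq, hqr.symm, by linarith⟩
    · rw [nums_flip _ p hp', nums_not_flip _ q hq', nums_not_flip _ r hr'] at h
      exact ⟨q, r, p, hqr, hpq.symm, hpr.symm, by linarith⟩
    · rw [nums_not_flip _ p hp', nums_flip _ q hq', nums_flip _ r hr'] at h
      exact ⟨q, r, p, hqr, hpq.symm, hpr.symm, by linarith⟩
    · rw [nums_not_flip _ p hp', nums_flip _ q hq', nums_not_flip _ r hr'] at h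
      exact ⟨p, r, q, hpr, hpq, hqr.symm, by linarith⟩
    · rw [nums_not_flip _ p hp', nums_not_flip _ q hq', nums_flip _ r hr'] at h
      exact ⟨p, q, r, hpq, hpr, hqr, by linarith⟩
    · exfalso
      rw [nums_not_flip _ p hp', nums_not_flip _ q hq', nums_not_flip _ r hr'] at h
      linarith
  · rintro ⟨p, q, r, hpq, hpr, hqr, h⟩
    obtain ⟨g1, l1, e1, a1, c1⟩ := desc2 i t z hb p
    obtain ⟨g2, l2, e2, a2, c2⟩ := desc2 i t z hb q
    obtain ⟨g3, l3, e3, a3, c3⟩ := desc2 i t z hb r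
    have hn : (0 : ℤ) < ((n + n : ℕ) : ℤ) ^ 2 := by
      have := i.2
      have : 0 < n + n := by omega
      positivity
    have h' := h
    rw [e1, e2, e3] at h'
    obtain ⟨hg, -⟩ := sum_eq (by linarith) (by linarith) (by linarith) h'
    have hr' : g3 = 4 → Flips n r := by
      intro hg3
      rcases c3 with c | ⟨-, t', ⟨j, hj1, hj2⟩, -⟩ | c | c
      · omega
      · exact ⟨j, hj1, by rw [hj2]; exact t'.2⟩
      · omega
      · omega
    have hnf : ∀ (p : Fin n ⊕ Fin n) (g l : ℤ), (g = 1 ∨ g = 3) →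
        ((g = 1 ∧ p = .inl i ∧ l = t.1.val * (4 * (n + n : ℕ)) + 2 * (t.2.val * 2 ^ b)) ∨
       (g = 4 ∧ ∃ t' : Fin (n / 2), (∃ j, p = .inr j ∧ j.val = t'.val) ∧
          l = t'.val * (4 * (n + n : ℕ)) + val z t') ∨
       (g = 3 ∧ ∃ s v : ℕ, s < b ∧ v < 2 ^ b ∧ v.testBit s = true ∧
          (∃ j, p = .inr j ∧ j.val = n / 2 + (s * 2 ^ b + v)) ∧
          l = (v : ℤ) - 2 * (s * 2 ^ b)) ∨
       (g = 10 ∧ l = ((Sum.elim (fun i => i.val) (fun j => n + j.val) p : ℕ) : ℤ))) →
        ¬ Flips n p := by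
      rintro p g l hg c ⟨j', hj1, hj2⟩
      rcases c with ⟨-, c, -⟩ | ⟨c, -⟩ | ⟨-, s, v, -, -, -, ⟨j, hj3, hj4⟩, -⟩ | ⟨c, -⟩
      · rw [hj1] at c
        simp at c
      · omega
      · rw [hj1] at hj3
        rw [Sum.inr.injEq] at hj3
        subst hj3
        omega
      · omega
    have hcases : (g1 = 1 ∨ g1 = 3) ∧ (g2 = 1 ∨ g2 = 3) ∧ g3 = 4 := by
      rcases c1 with ⟨d1, d1', -⟩ | ⟨d1, -⟩ | ⟨d1, -⟩ | ⟨d1, -⟩ <;>
      rcases c2 with ⟨d2, d2', -⟩ | ⟨d2, -⟩ | ⟨d2, -⟩ | ⟨d2, -⟩ <;>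
      rcases c3 with ⟨d3, -⟩ | ⟨d3, -⟩ | ⟨d3, -⟩ | ⟨d3, -⟩ <;>
      first
      | (exfalso; omega)
      | omega
    refine ⟨p, q, r, hpq, hpr, hqr, ?_⟩
    rw [nums_not_flip _ p (hnf p g1 l1 hcases.1 c1), nums_not_flip _ q (hnf q g2 l2 hcases.2.1 c2),
      nums_flip _ r (hr' hcases.2.2)]
    linarith

end

theorem queries (hb : 2 * (b * 2 ^ b) ≤ n) (hn : 400 ≤ n) (i : Fin n) :
    Queries (Fin (n / 2) × Fin b) id (Valid n n) (zeroSum n) (some i) :=
  queries_of_update (Valid n n) (zeroSum n) (some i) (fun _ => 0)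
    (fun t _ => ask n t) (fun z => flip (enc z)) (fun _ _ _ _ => rfl)
    (fun t z => by rw [← flip_update]; exact valid_flip i t z hb hn)
    (fun t z => by rw [← flip_update]; exact zeroSum_flip i t z hb)

theorem formula_bound (hn : 400 ≤ n) (hc : 1 ≤ c) (hw : 1 ≤ w) {Ω : Type} [Fintype Ω] (μ : Ω → ℝ)
    (hμ : IsProb μ) (F : Ω → Fml (Option (Fin n)) (Item n n) w ((2 * n) ^ c))
    (hF : ApproximatesOn μ (fun ω => (F ω).eval) (Valid n n) (zeroSum n)) :
    (n : ℝ) ^ 2 ≤ 200 * c * w ^ 2 * expSize μ F := by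
  classical
  obtain ⟨b, hb, hL, hb2⟩ := params hn
  have h := formula_lower μ hμ F (Valid n n) (zeroSum n) hF
    (Nat.one_le_pow _ _ (by omega)) hw id
    ((univ : Finset (Fin n)).map Function.Embedding.some) (T := Fin (n / 2) × Fin b) (by
      intro a ha
      rw [mem_map] at ha
      obtain ⟨i, -, rfl⟩ := ha
      exact queries hb hn i)
  rw [card_map, card_univ, Fintype.card_fin] at h
  exact arith_formula (by exact_mod_cast hn) (by exact_mod_cast hL) (by exact_mod_cast hc)
    (by exact_mod_cast hw) (card_T hn hb2) (logb_q (by omega) hL)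
    (sum_nonneg fun ω _ => mul_nonneg (hμ.nonneg ω) (Nat.cast_nonneg _)) h

theorem program_bound (hn : 400 ≤ n) (hc : 1 ≤ c) (hw : 1 ≤ w) {Ω : Type} [Fintype Ω] (μ : Ω → ℝ)
    (hμ : IsProb μ) (s : ℕ) (B : Ω → Program (Option (Fin n)) (Item n n) w ((2 * n) ^ c) s)
    (hB : ApproximatesOn μ (fun ω => (B ω).eval) (Valid n n) (zeroSum n)) :
    (n : ℝ) ^ 2 ≤ 1000 * c * w ^ 2 * s := by
  classical
  have hw' : (1 : ℝ) ≤ w := by exact_mod_cast hw
  have hc' : (1 : ℝ) ≤ c := by exact_mod_cast hc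
  have hs0 : (0 : ℝ) ≤ s := Nat.cast_nonneg s
  by_cases hs : n ^ 2 ≤ s
  · have h1 : (n : ℝ) ^ 2 ≤ s := by exact_mod_cast hs
    have h2 : (1 : ℝ) ≤ w ^ 2 := by nlinarith
    have h3 : (1 : ℝ) ≤ c * w ^ 2 := by nlinarith
    nlinarith
  obtain ⟨b, hb, hL, hb2⟩ := params hn
  have h := program_lower μ hμ B (Valid n n) (zeroSum n) hB
    (Nat.one_le_pow _ _ (by omega)) hw id
    ((univ : Finset (Fin n)).map Function.Embedding.some) (T := Fin (n / 2) × Fin b) (by
      intro a ha
      rw [mem_map] at ha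
      obtain ⟨i, -, rfl⟩ := ha
      exact queries hb hn i)
  rw [card_map, card_univ, Fintype.card_fin] at h
  exact arith_program (by exact_mod_cast hn) (by exact_mod_cast hL) hc' hw' (card_T hn hb2)
    (logb_q (by omega) hL) (logb_s (by omega) hL (by omega)) hs0 h

end Pool.Agent.TH457.Ary.ZeroSum
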