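import Pool.Agent.TH457.Ary.Defs

set_option autoImplicit false

/-! # Comparator circuits -/

namespace Pool.Agent.TH457.Ary.Comp

/-- The items of the input: the `m` comparators and the initial bits of the `N` wires. A comparator
is a pair of wires. -/
abbrev Item (m N : ℕ) : Fin m ⊕ Fin N → Type
  | .inl _ => Fin N × Fin N
  | .inr _ => Bool

/-- The comparator `(a, b)` puts the minimum of the two bits on wire `a` and the maximum on
wire `b`. -/
def apply {N : ℕ} (g : Fin N × Fin N) (x : Fin N → Bool) : Fin N → Bool :=
  Function.update (Function.update x g.1 (x g.1 && x g.2)) g.2 (x g.1 || x g.2)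

/-- The bits of the wires after the first `t` comparators. -/
def bits {m N : ℕ} (x : ∀ i, Item m N i) : ℕ → Fin N → Bool
  | 0 => fun a => x (.inr a)
  | t + 1 => if h : t < m then apply (x (.inl ⟨t, h⟩)) (bits x t) else bits x t

/-- The value of the comparator circuit: the final bit of the first wire. -/
def value {m N : ℕ} [NeZero N] (x : ∀ i, Item m N i) : Bool := bits x m 0

end Pool.Agent.TH457.Ary.Comp
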