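import Pool.Agent.TH457.Ary.Core

set_option autoImplicit false

/-! # Few subfunctions of nondeterministic branching programs -/

namespace Pool.Agent.TH457.Ary

open Finset

variable {ι β : Type} {D : ι → Type} [DecidableEq β] {w q s : ℕ}

section

variable (B : NBP ι D w q s) (blk : ι → β) (b : β)

/-- the labels which see block `b` -/
abbrev Lab := {e : Fin s // (B.test e).Sees blk b}

/-- the number of labels which see block `b` -/
def cnt : ℕ := (univ.filter (fun e => (B.test e).Sees blk b)).card

theorem sum_cnt (I : Finset β) : ∑ b ∈ I, cnt B blk b ≤ w * s := by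
  unfold cnt
  simp_rw [card_filter]
  rw [sum_comm]
  calc ∑ e : Fin s, ∑ b ∈ I, (if (B.test e).Sees blk b then 1 else 0)
      ≤ ∑ _e : Fin s, w := by
        apply sum_le_sum
        intro e _
        rw [← card_filter]
        exact (B.test e).card_sees blk I
    _ = w * s := by rw [sum_const, card_univ, Fintype.card_fin, smul_eq_mul, mul_comm]

theorem card_lab : Fintype.card (Lab B blk b) = cnt B blk b := by
  unfold cnt
  rw [Fintype.card_subtype]

/-- the point from which we continue -/
def pt : Option (Lab B blk b) → B.V
  | none => B.start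
  | some e => B.dst e.1

/-- the point to which we go -/
def qt : Option (Lab B blk b) → B.V
  | none => B.target
  | some e => B.src e.1

/-- the edges which can be used, without the edges which see block `b` -/
def Rel0 (x : ∀ i, D i) (a c : B.V) : Prop :=
  B.free a c ∨ ∃ e, ¬ (B.test e).Sees blk b ∧ B.src e = a ∧ B.dst e = c ∧ (B.test e).eval x = true

open Classical in
/-- the key of the other blocks -/
noncomputable def key (x : ∀ i, D i) (p : Option (Lab B blk b) × Option (Lab B blk b)) : Bool :=
  decide (Relation.ReflTransGen (Rel0 B blk b x) (pt B blk b p.1) (qt B blk b p.2))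

/-- the function given by a key and by the usable edges -/
def byKey (K : Option (Lab B blk b) × Option (Lab B blk b) → Bool) (c : Lab B blk b → Bool) :
    Prop :=
  ∃ a, Relation.ReflTransGen (fun a a' => ∃ e, a' = some e ∧ c e = true ∧ K (a, a') = true) none a ∧
    K (a, none) = true

theorem accepts_iff (y z : ∀ i, D i) :
    B.Accepts (merge blk b y z) ↔
      byKey B blk b (key B blk b z) (fun e => (B.test e.1).eval (merge blk b y z)) := by
  constructor
  · intro h
    have key1 : ∀ v, Relation.ReflTransGen (fun a c => B.free a c ∨
        ∃ e, B.src e = a ∧ B.dst e = c ∧ (B.test e).eval (merge blk b y z) = true)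
          B.start v →
        ∃ a, Relation.ReflTransGen (fun a a' => ∃ e : Lab B blk b, a' = some e ∧
          (B.test e.1).eval (merge blk b y z) = true ∧
          key B blk b z (a, a') = true) none a ∧
          Relation.ReflTransGen (Rel0 B blk b z) (pt B blk b a) v := by
      intro v hv
      induction hv with
      | refl => exact ⟨none, .refl, .refl⟩
      | tail _ h2 ih =>
        rename_i u c _
        obtain ⟨a, ha, hb⟩ := ih
        rcases h2 with h2 | ⟨e, h3, h4, h5⟩
        · exact ⟨a, ha, hb.tail (Or.inl h2)⟩
        · by_cases he : (B.test e).Sees blk b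
          · refine ⟨some ⟨e, he⟩, ha.tail ⟨⟨e, he⟩, rfl, h5, ?_⟩, ?_⟩
            · unfold key
              simp only [decide_eq_true_eq]
              change Relation.ReflTransGen (Rel0 B blk b z) (pt B blk b a) (B.src e)
              rw [h3]
              exact hb
            · change Relation.ReflTransGen (Rel0 B blk b z) (B.dst e) c
              rw [h4]
          · rw [(B.test e).eval_merge_of_not blk b he] at h5
            exact ⟨a, ha, hb.tail (Or.inr ⟨e, he, h3, h4, h5⟩)⟩
    obtain ⟨a, ha, hb⟩ := key1 _ h
    refine ⟨a, ha, ?_⟩
    unfold key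
    simp only [decide_eq_true_eq]
    exact hb
  · rintro ⟨a, ha, hb⟩
    have mono : ∀ v c, Relation.ReflTransGen (Rel0 B blk b z) v c →
        Relation.ReflTransGen (fun a c => B.free a c ∨
        ∃ e, B.src e = a ∧ B.dst e = c ∧ (B.test e).eval (merge blk b y z) = true)
          v c := by
      intro v c hvc
      induction hvc with
      | refl => exact .refl
      | tail _ h2 ih =>
        refine ih.tail ?_
        rcases h2 with h1 | ⟨e, h1, h2, h3, h4⟩
        · exact Or.inl h1
        · refine Or.inr ⟨e, h2, h3, ?_⟩
          rw [(B.test e).eval_merge_of_not blk b h1]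
          exact h4
    have key1 : ∀ a, Relation.ReflTransGen (fun a a' => ∃ e : Lab B blk b, a' = some e ∧
          (B.test e.1).eval (merge blk b y z) = true ∧
          key B blk b z (a, a') = true) none a →
        Relation.ReflTransGen (fun a c => B.free a c ∨
        ∃ e, B.src e = a ∧ B.dst e = c ∧ (B.test e).eval (merge blk b y z) = true)
          B.start (pt B blk b a) := by
      intro a ha
      induction ha with
      | refl => exact .refl
      | tail _ h2 ih =>
        rename_i u c _
        obtain ⟨e, rfl, h3, h4⟩ := h2
        unfold key at h4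
        simp only [decide_eq_true_eq] at h4
        exact (ih.trans (mono _ _ h4)).tail (Or.inr ⟨e.1, rfl, rfl, h3⟩)
    refine (key1 a ha).trans (mono _ _ ?_)
    unfold key at hb
    simp only [decide_eq_true_eq] at hb
    exact hb

open Classical in
/-- If the bits of `z` can be queried, there are many labels. -/
theorem nbp_count {T : Type} [Fintype T] (Q : T → ∀ i, D i) (R : (T → Bool) → ∀ i, D i) (c : Bool)
    (hf : ∀ t z, B.Accepts (merge blk b (Q t) (R z)) ↔ z t = c) :
    2 ^ Fintype.card T ≤ 2 ^ ((cnt B blk b + 1) ^ 2) * (q ^ (w - 1)) ^ cnt B blk b := by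
  choose S hS1 hS2 using fun e : Lab B blk b => (B.test e.1).family blk b e.2
  have hmem : ∀ z : ∀ i, D i, (fun (e : Lab B blk b) (y : ∀ i, D i) =>
      (B.test e.1).eval (merge blk b y z)) ∈ Fintype.piFinset S := by
    intro z
    rw [Fintype.mem_piFinset]
    exact fun e => hS2 e z
  have hinj : Set.InjOn (fun z : T → Bool => (key B blk b (R z),
      fun (e : Lab B blk b) (y : ∀ i, D i) => (B.test e.1).eval (merge blk b y (R z))))
      ((univ : Finset (T → Bool)) : Set (T → Bool)) := by
    intro z _ z' _ hz
    simp only [Prod.mk.injEq] at hz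
    funext t
    have h1 : B.Accepts (merge blk b (Q t) (R z)) ↔ B.Accepts (merge blk b (Q t) (R z')) := by
      rw [accepts_iff, accepts_iff, hz.1]
      have h2 : (fun e : Lab B blk b => (B.test e.1).eval (merge blk b (Q t) (R z))) =
          fun e : Lab B blk b => (B.test e.1).eval (merge blk b (Q t) (R z')) := by
        funext e
        exact congrFun (congrFun hz.2 e) (Q t)
      rw [h2]
    rw [hf, hf] at h1
    cases h3 : z t <;> cases h4 : z' t <;> cases c <;> simp_all
  have h := card_le_card_of_injOn (t := (univ : Finset (Option (Lab B blk b) ×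
    Option (Lab B blk b) → Bool)) ×ˢ Fintype.piFinset S) _ (fun z _ => by
      simp only [coe_product, coe_univ, Set.mem_prod, Set.mem_univ, true_and, mem_coe]
      exact hmem (R z)) hinj
  rw [card_univ, Fintype.card_fun, Fintype.card_bool, card_product, card_univ, Fintype.card_fun,
    Fintype.card_bool, Fintype.card_prod, Fintype.card_option, card_lab, Fintype.card_piFinset,
    ← sq] at h
  refine h.trans (Nat.mul_le_mul_left _ ?_)
  calc ∏ e : Lab B blk b, (S e).card ≤ ∏ _e : Lab B blk b, q ^ (w - 1) :=
        prod_le_prod' fun e _ => hS1 e
    _ = _ := by rw [prod_const, card_univ, card_lab]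

end

end Pool.Agent.TH457.Ary
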