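import Pool.Agent.TH457.Ary.Core
import Pool.Agent.TH457.Ary.Nondet
import Pool.Agent.TH457.Ary.OuMv
import Pool.Agent.TH457.Ary.CompDefs

set_option autoImplicit false

/-! # Lower bounds for comparator circuits -/

namespace Pool.Agent.TH457.Ary.Comp

open Finset Pool.Agent.TH697.Form Pool.Agent.TH697.Row Pool.Agent.TH457.Ary

variable {m w s : ℕ}

/-- the wire with number `a` -/
def wire (m a : ℕ) : Fin (m + 3) := Fin.ofNat (m + 3) a

theorem wire_val {a : ℕ} (h : a < m + 3) : (wire m a).val = a := by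
  simp [wire, Fin.ofNat, Nat.mod_eq_of_lt h]

theorem wire_inj {a b : ℕ} (ha : a < m + 3) (hb : b < m + 3) (h : wire m a = wire m b) : a = b := by
  rw [← wire_val ha, ← wire_val hb, h]

/-- the comparators and bits of the other items -/
def rest (m : ℕ) (z : Fin (m / 2) → Bool) : ∀ i, Item m (m + 3) i
  | .inl p => if h : p.val < m / 2 then
      (if z ⟨p.val, h⟩ then (wire m (3 + 2 * p.val), wire m (4 + 2 * p.val))
        else (wire m 1, wire m 2))
      else (wire m 1, wire m 2)
  | .inr a => decide (a.val = 2 ∨ (3 ≤ a.val ∧ a.val % 2 = 1))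

/-- the comparator which asks -/
def ask (m : ℕ) (t : Fin (m / 2)) : Fin (m + 3) × Fin (m + 3) := (wire m (4 + 2 * t.val), wire m 0)

section

variable (p : Fin m) (t : Fin (m / 2)) (z : Fin (m / 2) → Bool)

/-- the input -/
abbrev inp : ∀ i, Item m (m + 3) i := Function.update (rest m z) (.inl p) (ask m t)

theorem inp_bit (a : Fin (m + 3)) :
    inp p t z (.inr a) = decide (a.val = 2 ∨ (3 ≤ a.val ∧ a.val % 2 = 1)) := by
  simp only [inp]
  rw [Function.update_of_ne (by simp)]
  rfl

theorem inp_self : inp p t z (.inl p) = ask m t := by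
  simp only [inp]
  rw [Function.update_self]

theorem inp_other (p' : Fin m) (h : p' ≠ p) : inp p t z (.inl p') = rest m z (.inl p') := by
  simp only [inp]
  rw [Function.update_of_ne (by simpa using h)]

/-- the bits before the comparator which asks -/
def before (τ : ℕ) (a : ℕ) : Bool :=
  if a < 3 then decide (a = 2) else
    if h : (a - 3) / 2 < m / 2 then
      (if (a - 3) / 2 < τ ∧ z ⟨(a - 3) / 2, h⟩ = true then decide (a % 2 = 0)
        else decide (a % 2 = 1))
    else decide (a % 2 = 1)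

/-- idle comparators -/
theorem apply_idle (x : Fin (m + 3) → Bool) (h1 : x (wire m 1) = false) (h2 : x (wire m 2) = true) :
    apply (wire m 1, wire m 2) x = x := by
  unfold apply
  simp only [h1, h2, Bool.false_and, Bool.false_or]
  rw [← h1, Function.update_eq_self, ← h2, Function.update_eq_self]

theorem bits_before (τ : ℕ) (hτ : τ ≤ p.val) (a : Fin (m + 3)) :
    bits (inp p t z) τ a = before z τ a.val := by
  induction τ generalizing a with
  | zero =>
    simp only [bits, inp_bit, before]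
    by_cases h : a.val < 3
    · rw [if_pos h]
      have : ¬ (3 ≤ a.val ∧ a.val % 2 = 1) := by omega
      simp [this]
    · rw [if_neg h]
      have h1 : ¬ a.val = 2 := by omega
      have h2 : 3 ≤ a.val := by omega
      simp [h1, h2]
  | succ τ ih =>
    have hτm : τ < m := by have := p.2; omega
    have hne : (⟨τ, hτm⟩ : Fin m) ≠ p := by
      intro h
      have := congrArg Fin.val h
      simp only at this
      omega
    simp only [bits, dif_pos hτm]
    rw [inp_other p t z _ hne]
    have e0 : bits (inp p t z) τ = fun a => before z τ a.val := by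
      funext a
      exact ih (by omega) a
    rw [e0]
    have hw1 : (wire m 1).val = 1 := wire_val (by omega)
    have hw2 : (wire m 2).val = 2 := wire_val (by omega)
    have idle : apply (wire m 1, wire m 2) (fun a : Fin (m + 3) => before z τ a.val) =
        fun a => before z τ a.val := by
      apply apply_idle
      · simp [hw1, before]
      · simp [hw2, before]
    by_cases h : τ < m / 2
    · by_cases hz : z ⟨τ, h⟩ = true
      · have e1 : rest m z (.inl ⟨τ, hτm⟩) = (wire m (3 + 2 * τ), wire m (4 + 2 * τ)) := by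
          simp [rest, h, hz]
        rw [e1]
        have hv1 : (wire m (3 + 2 * τ)).val = 3 + 2 * τ := wire_val (by omega)
        have hv2 : (wire m (4 + 2 * τ)).val = 4 + 2 * τ := wire_val (by omega)
        have d1 : (3 + 2 * τ - 3) / 2 = τ := by omega
        have d2 : (4 + 2 * τ - 3) / 2 = τ := by omega
        have b1 : before z τ (3 + 2 * τ) = true := by
          simp only [before]
          rw [if_neg (by omega), dif_pos (by omega), if_neg (by omega)]
          simp only [decide_eq_true_eq]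
          omega
        have b2 : before z τ (4 + 2 * τ) = false := by
          simp only [before]
          rw [if_neg (by omega), dif_pos (by omega), if_neg (by omega)]
          simp only [decide_eq_false_iff_not]
          omega
        unfold apply
        simp only [hv1, hv2, b1, b2, Bool.true_and, Bool.true_or]
        by_cases ha2 : a = wire m (4 + 2 * τ)
        · subst ha2
          rw [Function.update_self, hv2]
          simp only [before]
          have hz' : z ⟨(4 + 2 * τ - 3) / 2, by omega⟩ = true := by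
            rw [← hz]; congr 1; exact Fin.ext d2
          rw [if_neg (by omega), dif_pos (by omega), if_pos ⟨by omega, hz'⟩]
          simp only [true_eq_decide_iff]
          omega
        · rw [Function.update_of_ne ha2]
          by_cases ha1 : a = wire m (3 + 2 * τ)
          · subst ha1
            rw [Function.update_self, hv1]
            simp only [before]
            have hz' : z ⟨(3 + 2 * τ - 3) / 2, by omega⟩ = true := by
              rw [← hz]; congr 1; exact Fin.ext d1
            rw [if_neg (by omega), dif_pos (by omega), if_pos ⟨by omega, hz'⟩]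
            simp only [false_eq_decide_iff]
            omega
          · rw [Function.update_of_ne ha1]
            have n1 : a.val ≠ 3 + 2 * τ := fun h => ha1 (Fin.ext (h.trans hv1.symm))
            have n2 : a.val ≠ 4 + 2 * τ := fun h => ha2 (Fin.ext (h.trans hv2.symm))
            simp only [before]
            by_cases h3 : a.val < 3
            · rw [if_pos h3, if_pos h3]
            · rw [if_neg h3, if_neg h3]
              by_cases h4 : (a.val - 3) / 2 < m / 2
              · rw [dif_pos h4, dif_pos h4]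
                have h5 : ((a.val - 3) / 2 < τ + 1) ↔ ((a.val - 3) / 2 < τ) := by omega
                simp only [h5]
              · rw [dif_neg h4, dif_neg h4]
      · have e1 : rest m z (.inl ⟨τ, hτm⟩) = (wire m 1, wire m 2) := by
          simp [rest, h, hz]
        rw [e1, idle]
        simp only [before]
        by_cases h3 : a.val < 3
        · rw [if_pos h3, if_pos h3]
        · rw [if_neg h3, if_neg h3]
          by_cases h4 : (a.val - 3) / 2 < m / 2
          · rw [dif_pos h4, dif_pos h4]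
            by_cases h5 : (a.val - 3) / 2 = τ
            · have hz' : ¬ z ⟨(a.val - 3) / 2, h4⟩ = true := by
                have : (⟨(a.val - 3) / 2, h4⟩ : Fin (m / 2)) = ⟨τ, h⟩ := Fin.ext h5
                rw [this]
                exact hz
              rw [if_neg (fun h => hz' h.2), if_neg (fun h => hz' h.2)]
            · have h6 : ((a.val - 3) / 2 < τ + 1) ↔ ((a.val - 3) / 2 < τ) := by omega
              simp only [h6]
          · rw [dif_neg h4, dif_neg h4]
    · have e1 : rest m z (.inl ⟨τ, hτm⟩) = (wire m 1, wire m 2) := by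
        simp [rest, h]
      rw [e1, idle]
      simp only [before]
      by_cases h3 : a.val < 3
      · rw [if_pos h3, if_pos h3]
      · rw [if_neg h3, if_neg h3]
        by_cases h4 : (a.val - 3) / 2 < m / 2
        · rw [dif_pos h4, dif_pos h4]
          have h5 : (a.val - 3) / 2 < τ + 1 := by omega
          have h6 : (a.val - 3) / 2 < τ := by omega
          simp only [h5, h6, true_and]
        · rw [dif_neg h4, dif_neg h4]

theorem bits_after (hp : m / 2 ≤ p.val) (τ : ℕ) (hτ : p.val < τ) (hτm : τ ≤ m) :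
    bits (inp p t z) τ (wire m 0) = z t ∧ bits (inp p t z) τ (wire m 1) = false ∧
      bits (inp p t z) τ (wire m 2) = true := by
  have ht := t.2
  have hw0 : (wire m 0).val = 0 := wire_val (by omega)
  have hw1 : (wire m 1).val = 1 := wire_val (by omega)
  have hw2 : (wire m 2).val = 2 := wire_val (by omega)
  have hv : (wire m (4 + 2 * t.val)).val = 4 + 2 * t.val := wire_val (by omega)
  induction τ, hτ using Nat.le_induction with
  | base =>
    have e0 : bits (inp p t z) p.val = fun a => before z p.val a.val := by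
      funext a
      exact bits_before p t z p.val le_rfl a
    simp only [bits, dif_pos p.2, Fin.eta]
    rw [inp_self, e0]
    unfold apply ask
    simp only
    have b0 : before z p.val (wire m 0).val = false := by simp [hw0, before]
    have b4 : before z p.val (wire m (4 + 2 * t.val)).val = z t := by
      rw [hv]
      simp only [before]
      have d2 : (4 + 2 * t.val - 3) / 2 = t.val := by omega
      have e1 : ∀ h, z ⟨(4 + 2 * t.val - 3) / 2, h⟩ = z t := by
        intro h
        congr 1
        exact Fin.ext d2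
      rw [if_neg (by omega), dif_pos (by omega), e1]
      by_cases hz : z t = true
      · rw [if_pos ⟨by omega, hz⟩, hz, decide_eq_true_eq]
        omega
      · rw [if_neg (fun h => hz h.2)]
        rw [Bool.not_eq_true] at hz
        rw [hz, decide_eq_false_iff_not]
        omega
    have n1 : wire m 1 ≠ wire m 0 := fun h => by
      have := wire_inj (by omega) (by omega) h
      omega
    have n2 : wire m 2 ≠ wire m 0 := fun h => by
      have := wire_inj (by omega) (by omega) h
      omega
    have n3 : wire m 1 ≠ wire m (4 + 2 * t.val) := fun h => by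
      have := wire_inj (by omega) (by omega) h
      omega
    have n4 : wire m 2 ≠ wire m (4 + 2 * t.val) := fun h => by
      have := wire_inj (by omega) (by omega) h
      omega
    refine ⟨?_, ?_, ?_⟩
    · rw [Function.update_self, b0, b4, Bool.or_false]
    · rw [Function.update_of_ne n1, Function.update_of_ne n3, hw1]
      simp [before]
    · rw [Function.update_of_ne n2, Function.update_of_ne n4, hw2]
      simp [before]
  | succ τ hτ ih =>
    obtain ⟨h0, h1, h2⟩ := ih (by omega)
    have hτm' : τ < m := by omega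
    have hne : (⟨τ, hτm'⟩ : Fin m) ≠ p := by
      intro h
      have := congrArg Fin.val h
      simp only at this
      omega
    have e1 : rest m z (.inl ⟨τ, hτm'⟩) = (wire m 1, wire m 2) := by
      have : ¬ τ < m / 2 := by omega
      simp [rest, this]
    simp only [bits, dif_pos hτm']
    rw [inp_other p t z _ hne, e1, apply_idle _ h1 h2]
    exact ⟨h0, h1, h2⟩

theorem value_inp (hp : m / 2 ≤ p.val) : value (inp p t z) = z t := by
  have h := (bits_after p t z hp m p.2 le_rfl).1
  unfold value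
  have e : (0 : Fin (m + 3)) = wire m 0 := by
    apply Fin.ext
    rw [wire_val (by omega)]
    simp
  rw [e]
  exact h

end

theorem queries (p : Fin m) (hp : m / 2 ≤ p.val) :
    Queries (D := Item m (m + 3)) (Fin (m / 2)) id (fun _ => True) value (.inl p) :=
  queries_of_update (fun _ => True) value (.inl p) (fun _ => 0) (fun t _ => ask m t) (rest m)
    (fun _ _ _ _ => rfl) (fun _ _ => trivial) (fun t z => value_inp p t z hp)

/-- the comparators of the second half -/
def late (m : ℕ) : Finset (Fin m ⊕ Fin (m + 3)) :=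
  (univ.filter (fun p : Fin m => m / 2 ≤ p.val)).map Function.Embedding.inl

theorem mem_late {a : Fin m ⊕ Fin (m + 3)} (h : a ∈ late m) : ∃ p : Fin m, m / 2 ≤ p.val ∧
    a = .inl p := by
  unfold late at h
  rw [mem_map] at h
  obtain ⟨p, hp, rfl⟩ := h
  rw [mem_filter] at hp
  exact ⟨p, hp.2, rfl⟩

theorem card_late : (m : ℝ) / 2 ≤ ((late m).card : ℝ) := by
  have h1 : (late m).card = m - m / 2 := by
    unfold late
    rw [card_map]
    have h2 : (univ.filter (fun p : Fin m => m / 2 ≤ p.val)).card = (Finset.Ico (m / 2) m).card := by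
      rw [← card_map Fin.valEmbedding]
      congr 1
      ext a
      simp only [mem_map, mem_filter, mem_univ, true_and, Fin.valEmbedding_apply, mem_Ico]
      constructor
      · rintro ⟨p, hp, rfl⟩
        exact ⟨hp, p.2⟩
      · rintro ⟨h1, h2⟩
        exact ⟨⟨a, h2⟩, h1, rfl⟩
    rw [h2, Nat.card_Ico]
  rw [h1]
  have h2 : m ≤ 2 * (m - m / 2) := by omega
  have h3 : (m : ℝ) ≤ 2 * ((m - m / 2 : ℕ) : ℝ) := by exact_mod_cast h2
  linarith

theorem card_T : ((m : ℝ) - 1) / 2 ≤ ((Fintype.card (Fin (m / 2)) : ℕ) : ℝ) := by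
  rw [Fintype.card_fin]
  have h : m ≤ 2 * (m / 2) + 1 := by omega
  have h2 : (m : ℝ) ≤ 2 * ((m / 2 : ℕ) : ℝ) + 1 := by exact_mod_cast h
  linarith

/-- the logarithm of the number of views -/
theorem logb_q (hm : 64 ≤ m) : Real.logb 2 (((m + 3) ^ 2 : ℕ) : ℝ) ≤ 3 * Real.logb 2 m ∧
    6 ≤ Real.logb 2 m := by
  have hm0 : (64 : ℝ) ≤ m := by exact_mod_cast hm
  have h1 : (((m + 3) ^ 2 : ℕ) : ℝ) ≤ (m : ℝ) ^ 3 := by
    push_cast
    nlinarith [sq_nonneg ((m : ℝ) - 64)]
  have h2 := Real.logb_le_logb_of_le (by norm_num : (1 : ℝ) < 2) (by positivity) h1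
  rw [Real.logb_pow] at h2
  refine ⟨by exact_mod_cast h2, ?_⟩
  rw [Real.le_logb_iff_rpow_le (by norm_num) (by linarith)]
  norm_num
  exact hm

theorem formula_bound (hm : 64 ≤ m) (hw : 1 ≤ w) {Ω : Type} [Fintype Ω] (μ : Ω → ℝ)
    (hμ : IsProb μ) (F : Ω → Fml (Fin m ⊕ Fin (m + 3)) (Item m (m + 3)) w ((m + 3) ^ 2))
    (hF : ApproximatesOn μ (fun ω => (F ω).eval) (fun _ => True) value) :
    (m : ℝ) ^ 2 ≤ 400 * w * (1 + (w - 1) * Real.logb 2 m) * expSize μ F := by
  classical
  have h := formula_lower μ hμ F (fun _ => True) value hF (Nat.one_le_pow _ _ (by omega)) hw id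
    (late m) (T := Fin (m / 2)) (by
      intro a ha
      obtain ⟨p, hp, rfl⟩ := mem_late ha
      exact queries p hp)
  obtain ⟨hq, hl⟩ := logb_q hm
  have hI := card_late (m := m)
  have hT := card_T (m := m)
  obtain ⟨I, hI'⟩ : ∃ I : ℝ, I = ((late m).card : ℝ) := ⟨_, rfl⟩
  obtain ⟨N, hN'⟩ : ∃ N : ℝ, N = ((Fintype.card (Fin (m / 2)) : ℕ) : ℝ) := ⟨_, rfl⟩
  obtain ⟨L, hL'⟩ : ∃ L : ℝ, L = Real.logb 2 (((m + 3) ^ 2 : ℕ) : ℝ) := ⟨_, rfl⟩
  obtain ⟨l, hl'⟩ : ∃ l : ℝ, l = Real.logb 2 (m : ℝ) := ⟨_, rfl⟩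
  rw [← hI'] at h hI
  rw [← hN'] at h hT
  rw [← hL'] at h hq
  rw [← hl'] at hq hl ⊢
  have hm' : (64 : ℝ) ≤ m := by exact_mod_cast hm
  have hw' : (1 : ℝ) ≤ w := by exact_mod_cast hw
  have hE : 0 ≤ expSize μ F := sum_nonneg fun ω _ => mul_nonneg (hμ.nonneg ω) (Nat.cast_nonneg _)
  have h1 : (m : ℝ) / 50 ≤ 49 / 600 * N - 1 := by linarith
  have h2 : (m : ℝ) / 2 * (m / 50) ≤ I * (49 / 600 * N - 1) :=
    mul_le_mul hI h1 (by positivity) (by linarith)
  have h3 : (w : ℝ) * (4 + (w - 1) * L) ≤ 4 * (w * (1 + (w - 1) * l)) := by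
    have h4 : ((w : ℝ) - 1) * L ≤ (w - 1) * (3 * l) :=
      mul_le_mul_of_nonneg_left hq (by linarith)
    have h5 : 0 ≤ ((w : ℝ) - 1) * l := mul_nonneg (by linarith) (by linarith)
    have h6 : 4 + ((w : ℝ) - 1) * L ≤ 4 * (1 + (w - 1) * l) := by linarith
    calc (w : ℝ) * (4 + (w - 1) * L) ≤ w * (4 * (1 + (w - 1) * l)) :=
          mul_le_mul_of_nonneg_left h6 (by linarith)
      _ = _ := by ring
  have h4 := mul_le_mul_of_nonneg_right h3 hE
  nlinarith

/-- the logarithm is small -/
theorem logb_small (hm : 4096 ≤ m) : Real.logb 2 m ≤ m / 100 := by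
  obtain ⟨K, hK⟩ : ∃ K, K = Nat.log 2 m := ⟨_, rfl⟩
  have hK9 : 12 ≤ K := by
    rw [hK]
    have := Nat.log_mono_right (b := 2) hm
    rwa [show Nat.log 2 4096 = 12 by decide +kernel] at this
  have h5 := Nat.lt_pow_succ_log_self (b := 2) (by norm_num) m
  have h6 : (m : ℝ) ≤ (2 : ℝ) ^ (Nat.log 2 m + 1) := by exact_mod_cast h5.le
  have hm0 : (0 : ℝ) < m := by
    have : 0 < m := by omega
    exact_mod_cast this
  have h7 := Real.logb_le_logb_of_le (by norm_num : (1 : ℝ) < 2) hm0 h6
  rw [Pool.Agent.TH457.Ary.OuMv.logb_two_pow', ← hK] at h7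
  push_cast at h7
  have h8 : 100 * (K + 1) ≤ 2 ^ K := by
    clear h7 hK
    induction K, hK9 using Nat.le_induction with
    | base => norm_num
    | succ k hk ih =>
      rw [pow_succ]
      omega
  have h10 : 2 ^ K ≤ m := by
    rw [hK]
    exact Nat.pow_log_le_self 2 (by omega)
  have h11 : 100 * ((K : ℝ) + 1) ≤ m := by exact_mod_cast h8.trans h10
  linarith

theorem program_bound (hm : 4096 ≤ m) (hw : 1 ≤ w) {Ω : Type} [Fintype Ω] (μ : Ω → ℝ)
    (hμ : IsProb μ) (s : ℕ)
    (B : Ω → Program (Fin m ⊕ Fin (m + 3)) (Item m (m + 3)) w ((m + 3) ^ 2) s)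
    (hB : ApproximatesOn μ (fun ω => (B ω).eval) (fun _ => True) value) :
    (m : ℝ) ^ 2 ≤ 500 * w ^ 2 * Real.logb 2 m * s := by
  classical
  obtain ⟨hq, hl⟩ := logb_q (by omega : 64 ≤ m)
  have hl2 := logb_small hm
  have hm' : (4096 : ℝ) ≤ m := by exact_mod_cast hm
  have hw' : (1 : ℝ) ≤ w := by exact_mod_cast hw
  have hs0 : (0 : ℝ) ≤ s := Nat.cast_nonneg s
  have hw2 : (1 : ℝ) ≤ w ^ 2 := by nlinarith
  obtain ⟨l, hl'⟩ : ∃ l : ℝ, l = Real.logb 2 (m : ℝ) := ⟨_, rfl⟩
  rw [← hl'] at hq hl hl2 ⊢
  by_cases hs : m ^ 2 ≤ s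
  · have h1 : (m : ℝ) ^ 2 ≤ s := by exact_mod_cast hs
    have h3 : (1 : ℝ) ≤ 500 * w ^ 2 * l := by nlinarith
    nlinarith
  have h := program_lower μ hμ B (fun _ => True) value hB (Nat.one_le_pow _ _ (by omega)) hw id
    (late m) (T := Fin (m / 2)) (by
      intro a ha
      obtain ⟨p, hp, rfl⟩ := mem_late ha
      exact queries p hp)
  have hI := card_late (m := m)
  have hT := card_T (m := m)
  obtain ⟨I, hI'⟩ : ∃ I : ℝ, I = ((late m).card : ℝ) := ⟨_, rfl⟩
  obtain ⟨N, hN'⟩ : ∃ N : ℝ, N = ((Fintype.card (Fin (m / 2)) : ℕ) : ℝ) := ⟨_, rfl⟩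
  obtain ⟨L, hL'⟩ : ∃ L : ℝ, L = Real.logb 2 (((m + 3) ^ 2 : ℕ) : ℝ) := ⟨_, rfl⟩
  obtain ⟨g, hg'⟩ : ∃ g : ℝ, g = Real.logb 2 ((s : ℝ) + 2) := ⟨_, rfl⟩
  rw [← hI'] at h hI
  rw [← hN'] at h hT
  rw [← hL'] at h hq
  have hg : g ≤ 2 * l + 1 := by
    have h1 : ((s : ℝ) + 2) ≤ 2 * (m : ℝ) ^ 2 := by
      have h3 : s + 2 ≤ 2 * m ^ 2 := by
        have : 1 ≤ m ^ 2 := Nat.one_le_pow _ _ (by omega)
        omega
      exact_mod_cast h3
    have h4 := Real.logb_le_logb_of_le (by norm_num : (1 : ℝ) < 2) (by positivity) h1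
    rw [Real.logb_mul (by norm_num) (by positivity), Real.logb_pow,
      Real.logb_self_eq_one (by norm_num), ← hl'] at h4
    rw [hg']
    push_cast at h4
    linarith
  rw [← hg'] at h
  have h1 : (m : ℝ) / 50 ≤ 49 / 600 * N - g := by linarith
  have h2 : (m : ℝ) / 2 * (m / 50) ≤ I * (49 / 600 * N - g) :=
    mul_le_mul hI h1 (by positivity) (by linarith)
  have h3 : (w : ℝ) * (2 * g + (w - 1) * L) ≤ 5 * l * w ^ 2 := by
    have h4 : ((w : ℝ) - 1) * L ≤ (w - 1) * (3 * l) :=
      mul_le_mul_of_nonneg_left hq (by linarith)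
    have h6 : 2 * g + ((w : ℝ) - 1) * L ≤ 5 * l * w := by nlinarith
    calc (w : ℝ) * (2 * g + (w - 1) * L) ≤ w * (5 * l * w) :=
          mul_le_mul_of_nonneg_left h6 (by linarith)
      _ = _ := by ring
  have h4 := mul_le_mul_of_nonneg_right h3 hs0
  nlinarith

theorem nbp_bound (hm : 4096 ≤ m) (hw : 1 ≤ w) (hw2 : 40 * (w * Real.logb 2 m) ^ 2 ≤ m) (s : ℕ)
    (B : NBP (Fin m ⊕ Fin (m + 3)) (Item m (m + 3)) w ((m + 3) ^ 2) s) (c : Bool)
    (hB : ∀ x, B.Accepts x ↔ value x = c) : (m : ℝ) ^ 3 ≤ 16 * (w * s + m) ^ 2 := by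
  classical
  obtain ⟨hq, hl⟩ := logb_q (by omega : 64 ≤ m)
  have hm' : (4096 : ℝ) ≤ m := by exact_mod_cast hm
  have hw' : (1 : ℝ) ≤ w := by exact_mod_cast hw
  obtain ⟨l, hl'⟩ : ∃ l : ℝ, l = Real.logb 2 (m : ℝ) := ⟨_, rfl⟩
  rw [← hl'] at hq hl hw2
  have hT := card_T (m := m)
  obtain ⟨g, hg⟩ : ∃ g : ℝ, g = Real.sqrt m := ⟨_, rfl⟩
  have hg2 : g ^ 2 = m := by rw [hg, Real.sq_sqrt (by positivity)]
  have hg0 : 0 ≤ g := by rw [hg]; exact Real.sqrt_nonneg _
  have hwl : w * l ≤ g * (4 / 25) := by
    by_contra hcon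
    rw [not_le] at hcon
    have h1 : (g * (4 / 25)) ^ 2 < (w * l) ^ 2 :=
      pow_lt_pow_left₀ hcon (by positivity) (by norm_num)
    rw [mul_pow, hg2] at h1
    nlinarith
  have key : ∀ a ∈ late m, g / 2 ≤ (cnt B id a : ℝ) + 1 := by
    intro a ha
    obtain ⟨p, hp, rfl⟩ := mem_late ha
    have h := nbp_count B id (.inl p : Fin m ⊕ Fin (m + 3)) (T := Fin (m / 2))
      (fun t => Function.update (rest m fun _ => false) (.inl p) (ask m t)) (rest m) c (by
        intro t z
        have e : merge id (.inl p : Fin m ⊕ Fin (m + 3))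
            (Function.update (rest m fun _ => false) (.inl p) (ask m t)) (rest m z) =
            inp p t z := by
          funext j
          unfold merge
          by_cases hj : j = .inl p
          · subst hj
            simp [inp]
          · simp [hj, inp]
        rw [e, hB, value_inp p t z hp])
    have h1 : ((2 : ℝ) ^ Fintype.card (Fin (m / 2))) ≤
        2 ^ ((cnt B id (.inl p : Fin m ⊕ Fin (m + 3)) + 1) ^ 2) *
          ((((m + 3) ^ 2 : ℕ) : ℝ) ^ (w - 1)) ^ cnt B id (.inl p : Fin m ⊕ Fin (m + 3)) := by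
      exact_mod_cast h
    have h2 := Real.logb_le_logb_of_le (by norm_num : (1 : ℝ) < 2) (by positivity) h1
    rw [Real.logb_mul (by positivity) (by positivity), Real.logb_pow, Real.logb_pow,
      Real.logb_pow, Real.logb_pow, Real.logb_self_eq_one (by norm_num)] at h2
    obtain ⟨r, hr⟩ : ∃ r : ℝ, r = (cnt B id (.inl p : Fin m ⊕ Fin (m + 3)) : ℝ) := ⟨_, rfl⟩
    have hr0 : 0 ≤ r := by rw [hr]; exact Nat.cast_nonneg _
    push_cast [Nat.cast_sub hw] at h2
    rw [← hr] at h2 ⊢
    have hq' : Real.logb 2 (((m : ℝ) + 3) ^ 2) ≤ 3 * l := by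
      push_cast at hq
      exact hq
    by_contra hlt
    rw [not_le] at hlt
    have h3 : (r + 1) ^ 2 < m / 4 := by
      rw [← hg2]
      nlinarith
    have h4 : r * (((w : ℝ) - 1) * Real.logb 2 (((m : ℝ) + 3) ^ 2)) ≤ r * (w * (3 * l)) := by
      apply mul_le_mul_of_nonneg_left _ hr0
      calc ((w : ℝ) - 1) * Real.logb 2 (((m : ℝ) + 3) ^ 2) ≤ (w - 1) * (3 * l) :=
            mul_le_mul_of_nonneg_left hq' (by linarith)
        _ ≤ w * (3 * l) := mul_le_mul_of_nonneg_right (by linarith) (by linarith)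
    have h5 : r * (w * (3 * l)) ≤ g / 2 * (3 * (g * (4 / 25))) := by
      have h6 : w * (3 * l) ≤ 3 * (g * (4 / 25)) := by linarith
      exact mul_le_mul (by linarith) h6 (by positivity) (by positivity)
    have h6 : g / 2 * (3 * (g * (4 / 25))) = 6 / 25 * m := by rw [← hg2]; ring
    linarith
  have h1 := sum_le_sum key
  rw [sum_const, nsmul_eq_mul, sum_add_distrib, sum_const, nsmul_eq_mul, mul_one] at h1
  have h2 : ∑ a ∈ late m, (cnt B id a : ℝ) ≤ w * s := by
    exact_mod_cast sum_cnt B id (late m)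
  have hI := card_late (m := m)
  have hI2 : ((late m).card : ℝ) ≤ m := by
    have : (late m).card ≤ m := by
      unfold late
      rw [card_map]
      exact (card_le_univ _).trans (by simp)
    exact_mod_cast this
  have h3 : (m : ℝ) / 2 * (g / 2) ≤ w * s + m := by
    have h6 : (m : ℝ) / 2 * (g / 2) ≤ ((late m).card : ℝ) * (g / 2) :=
      mul_le_mul_of_nonneg_right hI (by positivity)
    linarith
  have h4 : (m : ℝ) * g ≤ 4 * (w * s + m) := by linarith
  have h5 : ((m : ℝ) * g) ^ 2 ≤ (4 * (w * s + m)) ^ 2 := pow_le_pow_left₀ (by positivity) h4 2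
  have h6 : ((m : ℝ) * g) ^ 2 = (m : ℝ) ^ 3 := by rw [mul_pow, hg2]; ring
  rw [h6] at h5
  linarith

end Pool.Agent.TH457.Ary.Comp
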