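import Pool.Agent.TH457.Ary.SatDefs

set_option autoImplicit false

/-! # Tautologies given by lists of terms with two literals -/

namespace Pool.Agent.TH457.Ary.Taut

open Finset Pool.Agent.TH457.Ary.Sat

/-- A term: the conjunction of two literals (which may be equal). -/
abbrev Term (v : ℕ) := Lit v × Lit v

/-- The term is true under the assignment `a`. -/
def Satisfies {v : ℕ} (a : Fin v → Bool) (c : Term v) : Prop := a c.1.1 = c.1.2 ∧ a c.2.1 = c.2.2

open Classical in
/-- Is the disjunction of the terms `x 0, …, x (m - 1)` a tautology? -/
noncomputable def taut {m v : ℕ} (x : Fin m → Term v) : Bool :=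
  decide (∀ a : Fin v → Bool, ∃ p, Satisfies a (x p))

/-- No term has two different negative literals. -/
def DualHorn {m v : ℕ} (x : Fin m → Term v) : Prop :=
  ∀ p, (x p).1.2 = false → (x p).2.2 = false → (x p).1 = (x p).2

end Pool.Agent.TH457.Ary.Taut
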