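import Pool.Agent.TH457.Ary.Nondet
import Pool.Agent.TH457.Ary.Sat
import Pool.Agent.TH457.Ary.TautDefs

set_option autoImplicit false

/-! # Lower bounds for nondeterministic branching programs for tautologies -/

namespace Pool.Agent.TH457.Ary.Taut

open Finset Pool.Agent.TH457.Ary Pool.Agent.TH457.Ary.Sat

variable {m k w s : ℕ}

/-- the negation of a clause -/
def neg {v : ℕ} (c : Clause v) : Term v := ((c.1.1, !c.1.2), (c.2.1, !c.2.2))

theorem true_neg {v : ℕ} (a : Fin v → Bool) (c : Clause v) : Satisfies a (neg c) ↔ ¬ Holds a c := by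
  unfold Satisfies neg Holds
  cases a c.1.1 <;> cases c.1.2 <;> cases a c.2.1 <;> cases c.2.2 <;> simp

theorem taut_neg {v : ℕ} (x : Fin m → Clause v) : taut (fun p => neg (x p)) = !sat x := by
  classical
  unfold taut sat
  rw [Bool.eq_iff_iff, Bool.not_eq_true', decide_eq_true_iff, decide_eq_false_iff_not]
  simp only [true_neg]
  push Not
  rfl

theorem merge_neg {v : ℕ} {β : Type} [DecidableEq β] (blk : Fin m → β) (b : β)
    (y z : Fin m → Clause v) :
    merge (D := fun _ => Term v) blk b (fun p => neg (y p)) (fun p => neg (z p)) =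
      fun p => neg (merge (D := fun _ => Clause v) blk b y z p) := by
  funext p
  unfold merge
  split_ifs <;> rfl

theorem dualHorn_neg {v : ℕ} (x : Fin m → Clause v) (hx : Horn x) :
    DualHorn (fun p => neg (x p)) := by
  intro p h1 h2
  have h3 : (x p).1.2 = true := by
    have : (!(x p).1.2) = false := h1
    simpa using this
  have h4 : (x p).2.2 = true := by
    have : (!(x p).2.2) = false := h2
    simpa using this
  have h := hx p h3 h4
  simp only [neg, h]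

theorem count (hk : 4 ≤ k) (hm : 4 ^ k ≤ m) (hm2 : m < 4 ^ (k + 1)) (hw : 1 ≤ w)
    (B : NBP (Fin m) (fun _ => Term m) w (4 * m ^ 2) s) (c : Bool)
    (hB : ∀ x, DualHorn x → (B.Accepts x ↔ taut x = c)) (b : ℕ) (hb : b < m / 2) :
    (m : ℝ) * k / 2 ≤ ((cnt B (blk m) b : ℝ) + 1) ^ 2 + 6 * k * (w - 1) * cnt B (blk m) b := by
  have hne : NeZero m := ⟨by have : 0 < 4 ^ k := by positivity
                             omega⟩
  have h := nbp_count B (blk m) b (T := Fin (M m k) × Fin k) (fun t p => neg (ask m k b t p))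
    (fun z p => neg (rest m k b z p)) (!c) (by
      intro t z
      rw [merge_neg, hB _ (dualHorn_neg _ (horn b t z)), taut_neg,
        sat_merge (by omega) hm b hb t z]
      cases z t <;> cases c <;> simp)
  have hT := card_T (m := m) (by omega : 3 ≤ k) hm
  have hq : 4 * m ^ 2 ≤ 2 ^ (6 * k) := by
    have h2 : m ^ 2 ≤ (4 ^ (k + 1)) ^ 2 := Nat.pow_le_pow_left hm2.le 2
    calc 4 * m ^ 2 ≤ 4 * (4 ^ (k + 1)) ^ 2 := Nat.mul_le_mul_left _ h2
      _ = 2 ^ (4 * k + 6) := by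
        rw [show (4 : ℕ) = 2 ^ 2 by norm_num, ← pow_mul, ← pow_mul, ← pow_add]
        congr 1
        ring
      _ ≤ 2 ^ (6 * k) := Nat.pow_le_pow_right (by norm_num) (by omega)
  have h3 : ((4 * m ^ 2) ^ (w - 1)) ^ cnt B (blk m) b ≤
      2 ^ (6 * k * (w - 1) * cnt B (blk m) b) := by
    rw [pow_mul, pow_mul]
    exact Nat.pow_le_pow_left (Nat.pow_le_pow_left hq _) _
  have h4 := h.trans (Nat.mul_le_mul_left _ h3)
  rw [← pow_add] at h4
  have h5 := (Nat.pow_le_pow_iff_right (by norm_num : 1 < 2)).1 h4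
  have h6 : (Fintype.card (Fin (M m k) × Fin k) : ℝ) ≤
      (((cnt B (blk m) b + 1) ^ 2 + 6 * k * (w - 1) * cnt B (blk m) b : ℕ) : ℝ) := by
    exact_mod_cast h5
  push_cast [Nat.cast_sub hw] at h6
  linarith

theorem bound (hm : 400 ≤ m) (hw : 1 ≤ w) (hw2 : 72 * (w : ℝ) ^ 2 * Real.logb 2 m ≤ m)
    (B : NBP (Fin m) (fun _ => Term m) w (4 * m ^ 2) s) (c : Bool)
    (hB : ∀ x, DualHorn x → (B.Accepts x ↔ taut x = c)) :
    (m : ℝ) ^ 3 * Real.logb 2 m ≤ 50 * (w * s + m) ^ 2 := by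
  obtain ⟨k, hk, hk1, hk2⟩ := exists_k hm
  have hk' : (4 : ℝ) ≤ k := by exact_mod_cast hk
  have hm' : (400 : ℝ) ≤ m := by exact_mod_cast hm
  have hw' : (1 : ℝ) ≤ w := by exact_mod_cast hw
  -- the logarithm
  have hl1 : 2 * (k : ℝ) ≤ Real.logb 2 m := by
    have h1 : ((4 : ℝ) ^ k) ≤ m := by exact_mod_cast hk1
    have h2 := Real.logb_le_logb_of_le (by norm_num : (1 : ℝ) < 2) (by positivity) h1
    rwa [logb_four_pow] at h2
  have hl2 : Real.logb 2 m ≤ 2 * (k : ℝ) + 2 := by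
    have h1 : (m : ℝ) ≤ (4 : ℝ) ^ (k + 1) := by exact_mod_cast hk2.le
    have h2 := Real.logb_le_logb_of_le (by norm_num : (1 : ℝ) < 2) (by linarith) h1
    rw [logb_four_pow] at h2
    push_cast at h2
    linarith
  have hkw : 144 * (w : ℝ) ^ 2 * k ≤ m := by
    have h1 : 72 * (w : ℝ) ^ 2 * (2 * k) ≤ 72 * (w : ℝ) ^ 2 * Real.logb 2 m :=
      mul_le_mul_of_nonneg_left hl1 (by positivity)
    linarith
  -- each block
  have key : ∀ b ∈ range (m / 2), Real.sqrt (m * k) / 2 ≤ (cnt B (blk m) b : ℝ) + 1 := by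
    intro b hb
    have h := count hk hk1 hk2 hw B c hB b (mem_range.1 hb)
    obtain ⟨r, hr⟩ : ∃ r : ℝ, r = (cnt B (blk m) b : ℝ) + 1 := ⟨_, rfl⟩
    have hr1 : 1 ≤ r := by
      rw [hr]
      have : (0 : ℝ) ≤ cnt B (blk m) b := Nat.cast_nonneg _
      linarith
    have hr2 : (cnt B (blk m) b : ℝ) = r - 1 := by rw [hr]; ring
    rw [← hr, hr2] at h
    rw [← hr]
    by_contra hlt
    rw [not_le] at hlt
    obtain ⟨g, hg⟩ : ∃ g : ℝ, g = Real.sqrt (m * k) := ⟨_, rfl⟩
    have hg2 : g ^ 2 = m * k := by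
      rw [hg, Real.sq_sqrt (by positivity)]
    rw [← hg] at hlt
    have hg0 : 0 ≤ g := by rw [hg]; exact Real.sqrt_nonneg _
    have h1 : r ^ 2 < m * k / 4 := by nlinarith
    have h2 : 12 * w * k ≤ g := by
      rw [hg]
      apply Real.le_sqrt_of_sq_le
      have : (12 * (w : ℝ) * k) ^ 2 = 144 * (w : ℝ) ^ 2 * k * k := by ring
      rw [this]
      exact mul_le_mul_of_nonneg_right hkw (by linarith)
    have h3 : 6 * (k : ℝ) * (w - 1) * (r - 1) ≤ m * k / 4 := by
      have h4 : 6 * (k : ℝ) * (w - 1) ≤ g / 2 := by nlinarith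
      have h5 : (r - 1 : ℝ) ≤ g / 2 := by linarith
      calc 6 * (k : ℝ) * (w - 1) * (r - 1) ≤ g / 2 * (g / 2) :=
            mul_le_mul h4 h5 (by linarith) (by positivity)
        _ = m * k / 4 := by rw [← hg2]; ring
    linarith
  have h1 := sum_le_sum key
  rw [sum_const, nsmul_eq_mul, sum_add_distrib, sum_const, nsmul_eq_mul, mul_one] at h1
  have h2 : ∑ b ∈ range (m / 2), (cnt B (blk m) b : ℝ) ≤ w * s := by
    exact_mod_cast sum_cnt B (blk m) (range (m / 2))
  have h3 := card_I m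
  have h4 : ((range (m / 2)).card : ℝ) ≤ m := by
    rw [card_range]
    exact_mod_cast Nat.div_le_self m 2
  obtain ⟨g, hg⟩ : ∃ g : ℝ, g = Real.sqrt (m * k) := ⟨_, rfl⟩
  have hg2 : g ^ 2 = m * k := by
    rw [hg, Real.sq_sqrt (by positivity)]
  have hg0 : 0 ≤ g := by rw [hg]; exact Real.sqrt_nonneg _
  rw [← hg] at h1
  have h5 : (m - 1) / 2 * (g / 2) ≤ w * s + m := by
    have h6 : ((m : ℝ) - 1) / 2 * (g / 2) ≤ ((range (m / 2)).card : ℝ) * (g / 2) :=
      mul_le_mul_of_nonneg_right h3 (by positivity)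
    linarith
  have h7 : (399 / 400 * m) * g ≤ 4 * (w * s + m) := by
    have h8 : (399 / 400 : ℝ) * m ≤ m - 1 := by linarith
    have h9 := mul_le_mul_of_nonneg_right h8 hg0
    linarith
  have h10 : ((399 / 400 * m) * g) ^ 2 ≤ (4 * (w * s + m)) ^ 2 :=
    pow_le_pow_left₀ (by positivity) h7 2
  have h11 : ((399 / 400 * m) * g) ^ 2 = (399 / 400) ^ 2 * ((m : ℝ) ^ 3 * k) := by
    rw [mul_pow, mul_pow, hg2]; ring
  rw [h11] at h10
  have h12 : (m : ℝ) ^ 3 * Real.logb 2 m ≤ (m : ℝ) ^ 3 * (5 / 2 * k) :=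
    mul_le_mul_of_nonneg_left (by linarith) (by positivity)
  have h13 : 0 ≤ (m : ℝ) ^ 3 * k := by positivity
  nlinarith

end Pool.Agent.TH457.Ary.Taut
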