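import Pool.Agent.TH457.Ary.Defs

set_option autoImplicit false

/-! # Triangles in graphs which are given by lists of edges -/

namespace Pool.Agent.TH457.Ary.Tri

/-- An edge between two of the vertices `0, …, v - 1`: the smaller and the larger vertex. -/
abbrev Edge (v : ℕ) := Fin v × Fin v

/-- The list `x` is a list of the edges of a simple graph: `a < b` for every edge `(a, b)`, and no
edge is listed twice. -/
def Simple {m v : ℕ} (x : Fin m → Edge v) : Prop :=
  (∀ p, (x p).1 < (x p).2) ∧ Function.Injective x

open Classical in
/-- Has the graph a triangle? -/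
noncomputable def triangle {m v : ℕ} (x : Fin m → Edge v) : Bool :=
  decide (∃ a b c : Fin v, (∃ p, x p = (a, b)) ∧ (∃ p, x p = (b, c)) ∧ ∃ p, x p = (a, c))

end Pool.Agent.TH457.Ary.Tri
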