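import Pool.Agent.TH457.Ary.Sat
import Pool.Agent.TH457.Ary.TriDefs

set_option autoImplicit false

/-! # Lower bounds for triangles in lists of edges -/

namespace Pool.Agent.TH457.Ary.Tri

open Finset Pool.Agent.TH697.Form Pool.Agent.TH697.Row Pool.Agent.TH457.Ary
open Pool.Agent.TH457.Ary.Sat (small small' exists_k logb_q logb_s arith_formula arith_program)

variable {m k w : ℕ}

/-- the number of the data edges -/
abbrev M (m k : ℕ) := m - 1 - k * 2 ^ k

/-- the rank of an item, if item `p` is left out -/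
def rank (p p' : ℕ) : ℕ := if p' < p then p' else p' - 1

/-- the item with the given rank -/
def pos (p ρ : ℕ) : ℕ := if ρ < p then ρ else ρ + 1

theorem rank_pos (p ρ : ℕ) : rank p (pos p ρ) = ρ := by
  unfold rank pos
  split_ifs <;> omega

theorem pos_ne (p ρ : ℕ) : pos p ρ ≠ p := by
  unfold pos
  split_ifs <;> omega

theorem rank_inj (p p' p'' : ℕ) (h' : p' ≠ p) (h'' : p'' ≠ p) (h : rank p p' = rank p p'') :
    p' = p'' := by
  unfold rank at h
  split_ifs at h <;> omega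

/-- the encoded value -/
def val (z : Fin (M m k) × Fin k → Bool) (i : Fin (M m k)) : ℕ := Nat.ofBits fun j => z (i, j)

theorem val_lt (z : Fin (M m k) × Fin k → Bool) (i : Fin (M m k)) : val z i < 2 ^ k :=
  Nat.ofBits_lt_two_pow _

theorem val_testBit (z : Fin (M m k) × Fin k → Bool) (i : Fin (M m k)) (j : Fin k) :
    (val z i).testBit j = z (i, j) := by
  unfold val
  rw [Nat.testBit_ofBits_lt _ _ j.2]

/-- the edge with the given rank, as a pair of numbers -/
def edge (z : Fin (M m k) × Fin k → Bool) (ρ : ℕ) : ℕ × ℕ :=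
  if ρ < k * 2 ^ k then
    if (ρ / k).testBit (ρ % k) then (M m k + ρ / k, M m k + 2 ^ k + ρ % k)
    else (M m k + 2 ^ k + k, M m k + 2 ^ k + k + 1 + ρ)
  else if h : ρ - k * 2 ^ k < M m k then (ρ - k * 2 ^ k, M m k + val z ⟨ρ - k * 2 ^ k, h⟩)
  else (M m k + 2 ^ k + k, M m k + 2 ^ k + k + 1 + ρ)

/-- the edge which asks -/
def askEdge (t : Fin (M m k) × Fin k) : ℕ × ℕ := (t.1.val, M m k + 2 ^ k + t.2.val)

/-- the input as pairs of numbers -/
def inp (p : ℕ) (t : Fin (M m k) × Fin k) (z : Fin (M m k) × Fin k → Bool) (p' : ℕ) : ℕ × ℕ :=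
  if p' = p then askEdge t else edge z (rank p p')

/-- The kinds of the edges. -/
theorem kinds (hk : 3 ≤ k) (hm : 4 ^ k ≤ m) (p : ℕ) (hp : p < m) (t : Fin (M m k) × Fin k)
    (z : Fin (M m k) × Fin k → Bool) (p' : ℕ) (hp' : p' < m) :
    (p' = p ∧ inp p t z p' = (t.1.val, M m k + 2 ^ k + t.2.val)) ∨
    (p' ≠ p ∧ ∃ v j, v < 2 ^ k ∧ j < k ∧ v.testBit j = true ∧ rank p p' = k * v + j ∧
      inp p t z p' = (M m k + v, M m k + 2 ^ k + j)) ∨
    (p' ≠ p ∧ ∃ i : Fin (M m k), rank p p' = k * 2 ^ k + i.val ∧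
      inp p t z p' = (i.val, M m k + val z i)) ∨
    (p' ≠ p ∧ rank p p' < k * 2 ^ k ∧
      inp p t z p' = (M m k + 2 ^ k + k, M m k + 2 ^ k + k + 1 + rank p p')) := by
  have hs := small hk
  have hk0 : 0 < k := by omega
  have hM : M m k = m - 1 - k * 2 ^ k := rfl
  by_cases h : p' = p
  · exact Or.inl ⟨h, by simp [inp, h, askEdge]⟩
  have hr : rank p p' < m - 1 := by
    unfold rank
    split_ifs <;> omega
  have e : inp p t z p' = edge z (rank p p') := by simp [inp, h]
  rw [e]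
  unfold edge
  by_cases h1 : rank p p' < k * 2 ^ k
  · rw [if_pos h1]
    by_cases h2 : (rank p p' / k).testBit (rank p p' % k) = true
    · rw [if_pos h2]
      exact Or.inr (Or.inl ⟨h, rank p p' / k, rank p p' % k, Nat.div_lt_of_lt_mul h1,
        Nat.mod_lt _ hk0, h2, (Nat.div_add_mod _ _).symm, rfl⟩)
    · rw [if_neg h2]
      exact Or.inr (Or.inr (Or.inr ⟨h, h1, rfl⟩))
  · rw [if_neg h1, dif_pos (by omega)]
    exact Or.inr (Or.inr (Or.inl ⟨h, ⟨rank p p' - k * 2 ^ k, by omega⟩, by simp only; omega, rfl⟩))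

theorem bounds (hk : 3 ≤ k) (hm : 4 ^ k ≤ m) (p : ℕ) (hp : p < m) (t : Fin (M m k) × Fin k)
    (z : Fin (M m k) × Fin k → Bool) (p' : ℕ) (hp' : p' < m) :
    (inp p t z p').1 < (inp p t z p').2 ∧ (inp p t z p').2 < 2 * m := by
  have hs := small hk
  have hs' := small' hk
  have h2k : 1 ≤ 2 ^ k := Nat.one_le_two_pow
  have hM : M m k = m - 1 - k * 2 ^ k := rfl
  have ht1 := t.1.2
  have ht2 := t.2.2
  rcases kinds hk hm p hp t z p' hp' with ⟨-, h⟩ | ⟨-, v, j, h1, h2, -, -, h⟩ |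
    ⟨-, i, -, h⟩ | ⟨-, h1, h⟩
  · rw [h]; simp only; omega
  · rw [h]; simp only; omega
  · rw [h]
    have := val_lt z i
    have := i.2
    simp only
    omega
  · rw [h]; simp only; omega

theorem inj (hk : 3 ≤ k) (hm : 4 ^ k ≤ m) (p : ℕ) (hp : p < m) (t : Fin (M m k) × Fin k)
    (z : Fin (M m k) × Fin k → Bool) (p' p'' : ℕ) (hp' : p' < m) (hp'' : p'' < m)
    (h : inp p t z p' = inp p t z p'') : p' = p'' := by
  have h2k : 1 ≤ 2 ^ k := Nat.one_le_two_pow
  have ht1 := t.1.2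
  have ht2 := t.2.2
  rcases kinds hk hm p hp t z p' hp' with ⟨a, e⟩ | ⟨a, v, j, h1, h2, -, r, e⟩ |
    ⟨a, i, r, e⟩ | ⟨a, r, e⟩ <;>
  rcases kinds hk hm p hp t z p'' hp'' with ⟨a', e'⟩ | ⟨a', v', j', h1', h2', -, r', e'⟩ |
    ⟨a', i', r', e'⟩ | ⟨a', r', e'⟩ <;>
  rw [e, e', Prod.mk.injEq] at h
  · omega
  · omega
  · have := val_lt z i'; omega
  · omega
  · omega
  · apply rank_inj p p' p'' a a'
    have hv : v = v' := by omega
    have hj : j = j' := by omega
    rw [r, r', hv, hj]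
  · have := i'.2; omega
  · omega
  · have := val_lt z i; omega
  · have := i.2; omega
  · apply rank_inj p p' p'' a a'
    rw [r, r', h.1]
  · have := i.2; omega
  · omega
  · omega
  · have := i'.2; omega
  · apply rank_inj p p' p'' a a'
    omega

/-- A triangle contains the edge which asks. -/
theorem tri_iff (hk : 3 ≤ k) (hm : 4 ^ k ≤ m) (p : ℕ) (hp : p < m) (t : Fin (M m k) × Fin k)
    (z : Fin (M m k) × Fin k → Bool) :
    (∃ a b c : ℕ, (∃ p' < m, inp p t z p' = (a, b)) ∧ (∃ p' < m, inp p t z p' = (b, c)) ∧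
      ∃ p' < m, inp p t z p' = (a, c)) ↔ z t = true := by
  have hs := small hk
  have h2k : 1 ≤ 2 ^ k := Nat.one_le_two_pow
  have hM : M m k = m - 1 - k * 2 ^ k := rfl
  have ht1 := t.1.2
  have ht2 := t.2.2
  constructor
  · rintro ⟨a, b, c, ⟨p1, q1, e1⟩, ⟨p2, q2, e2⟩, ⟨p3, q3, e3⟩⟩
    rcases kinds hk hm p hp t z p1 q1 with ⟨-, e⟩ | ⟨-, v, j, h1, h2, -, -, e⟩ |
      ⟨-, i, -, e⟩ | ⟨-, r, e⟩
    · -- first edge asks
      exfalso
      rw [e, Prod.mk.injEq] at e1
      rcases kinds hk hm p hp t z p2 q2 with ⟨-, e'⟩ | ⟨-, v', j', h1', h2', -, -, e'⟩ |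
        ⟨-, i', -, e'⟩ | ⟨-, r', e'⟩ <;> rw [e', Prod.mk.injEq] at e2
      · omega
      · omega
      · have := i'.2; omega
      · omega
    · exfalso
      rw [e, Prod.mk.injEq] at e1
      rcases kinds hk hm p hp t z p2 q2 with ⟨-, e'⟩ | ⟨-, v', j', h1', h2', -, -, e'⟩ |
        ⟨-, i', -, e'⟩ | ⟨-, r', e'⟩ <;> rw [e', Prod.mk.injEq] at e2
      · omega
      · omega
      · have := i'.2; omega
      · omega
    · have hv := val_lt z i
      have hi := i.2
      rw [e, Prod.mk.injEq] at e1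
      rcases kinds hk hm p hp t z p2 q2 with ⟨-, e'⟩ | ⟨-, v', j', h1', h2', h3', -, e'⟩ |
        ⟨-, i', -, e'⟩ | ⟨-, r', e'⟩ <;> rw [e', Prod.mk.injEq] at e2
      · exfalso; omega
      · rcases kinds hk hm p hp t z p3 q3 with ⟨-, e''⟩ | ⟨-, v'', j'', -, -, -, -, e''⟩ |
          ⟨-, i'', -, e''⟩ | ⟨-, r'', e''⟩ <;> rw [e'', Prod.mk.injEq] at e3
        · have h4 : i = t.1 := Fin.ext (by omega)
          have h5 : j' = t.2.val := by omega
          have h6 : v' = val z t.1 := by rw [← h4]; omega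
          rw [h5, h6, val_testBit] at h3'
          exact h3'
        · exfalso; omega
        · exfalso
          have := val_lt z i''
          omega
        · exfalso; omega
      · exfalso
        have := i'.2; omega
      · exfalso; omega
    · exfalso
      rw [e, Prod.mk.injEq] at e1
      rcases kinds hk hm p hp t z p2 q2 with ⟨-, e'⟩ | ⟨-, v', j', h1', h2', -, -, e'⟩ |
        ⟨-, i', -, e'⟩ | ⟨-, r', e'⟩ <;> rw [e', Prod.mk.injEq] at e2
      · omega
      · omega
      · have := i'.2; omega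
      · omega
  · intro hz
    have hk0 : 0 < k := by omega
    have hv := val_lt z t.1
    have hr2 : k * val z t.1 + t.2.val < k * 2 ^ k := by
      have : k * (val z t.1 + 1) ≤ k * 2 ^ k := Nat.mul_le_mul_left _ hv
      have e : k * (val z t.1 + 1) = k * val z t.1 + k := by ring
      omega
    have hlt : ∀ ρ, ρ < m - 1 → pos p ρ < m := by
      intro ρ hρ
      unfold pos
      split_ifs <;> omega
    refine ⟨t.1.val, M m k + val z t.1, M m k + 2 ^ k + t.2.val, ?_, ?_, ?_⟩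
    · refine ⟨pos p (k * 2 ^ k + t.1.val), hlt _ (by omega), ?_⟩
      simp only [inp, pos_ne, if_false, rank_pos, edge]
      rw [if_neg (by omega), dif_pos (by omega)]
      have e3 : (⟨k * 2 ^ k + t.1.val - k * 2 ^ k, by omega⟩ : Fin (M m k)) = t.1 :=
        Fin.ext (by simp)
      have e4 : k * 2 ^ k + t.1.val - k * 2 ^ k = t.1.val := by omega
      rw [e3, e4]
    · refine ⟨pos p (k * val z t.1 + t.2.val), hlt _ (by omega), ?_⟩
      simp only [inp, pos_ne, if_false, rank_pos, edge]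
      have e6 : (k * val z t.1 + t.2.val) / k = val z t.1 := by
        rw [Nat.mul_add_div hk0, Nat.div_eq_of_lt ht2]; simp
      have e7 : (k * val z t.1 + t.2.val) % k = t.2.val := by
        rw [Nat.mul_add_mod, Nat.mod_eq_of_lt ht2]
      have hz' : z (t.1, t.2) = true := hz
      rw [if_pos hr2, e6, e7, val_testBit, if_pos hz']
    · exact ⟨p, hp, by simp [inp, askEdge]⟩

/-- an edge with vertices below `2 m` -/
def toEdge (m : ℕ) [NeZero m] (e : ℕ × ℕ) : Edge (2 * m) :=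
  haveI : NeZero (2 * m) := ⟨by have := NeZero.ne m; omega⟩
  (Fin.ofNat (2 * m) e.1, Fin.ofNat (2 * m) e.2)

theorem toEdge_val [NeZero m] (e : ℕ × ℕ) (h1 : e.1 < 2 * m) (h2 : e.2 < 2 * m) :
    ((toEdge m e).1.val, (toEdge m e).2.val) = e := by
  simp [toEdge, Fin.ofNat, Nat.mod_eq_of_lt h1, Nat.mod_eq_of_lt h2]

theorem queries (hk : 3 ≤ k) (hm : 4 ^ k ≤ m) (p : Fin m) :
    Queries (D := fun _ : Fin m => Edge (2 * m)) (Fin (M m k) × Fin k) id Simple triangle p := by
  classical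
  have hne : NeZero m := ⟨by have : 0 < 4 ^ k := by positivity
                             omega⟩
  -- the input
  have key : ∀ t (z : Fin (M m k) × Fin k → Bool) (p' : Fin m),
      Function.update (fun p' : Fin m => toEdge m (edge z (rank p.val p'.val))) p
        (toEdge m (askEdge t)) p' = toEdge m (inp p.val t z p'.val) := by
    intro t z p'
    by_cases h : p' = p
    · subst h
      rw [Function.update_self]
      simp [inp]
    · rw [Function.update_of_ne h]
      have : p'.val ≠ p.val := fun h' => h (Fin.ext h')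
      simp [inp, this]
  have hval : ∀ t (z : Fin (M m k) × Fin k → Bool) (p' : Fin m),
      ((toEdge m (inp p.val t z p'.val)).1.val, (toEdge m (inp p.val t z p'.val)).2.val) =
        inp p.val t z p'.val := by
    intro t z p'
    have hb := bounds hk hm p.val p.2 t z p'.val p'.2
    exact toEdge_val _ (by omega) hb.2
  refine queries_of_update Simple triangle p (fun _ => 0) (fun t _ => toEdge m (askEdge t))
    (fun z p' => toEdge m (edge z (rank p.val p'.val))) (fun _ _ _ _ => rfl) ?_ ?_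
  · intro t z
    refine ⟨fun p' => ?_, fun p' p'' h => ?_⟩
    · rw [key]
      have hb := bounds hk hm p.val p.2 t z p'.val p'.2
      have hv := hval t z p'
      rw [Prod.ext_iff] at hv
      rw [Fin.lt_def]
      simp only at hv
      omega
    · rw [key, key] at h
      apply Fin.ext
      apply inj hk hm p.val p.2 t z _ _ p'.2 p''.2
      rw [← hval t z p', ← hval t z p'', h]
  · intro t z
    unfold triangle
    rw [Bool.eq_iff_iff, decide_eq_true_iff, ← tri_iff hk hm p.val p.2 t z]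
    simp only [key]
    constructor
    · rintro ⟨a, b, c, ⟨p1, e1⟩, ⟨p2, e2⟩, ⟨p3, e3⟩⟩
      refine ⟨a.val, b.val, c.val, ⟨p1.val, p1.2, ?_⟩, ⟨p2.val, p2.2, ?_⟩, ⟨p3.val, p3.2, ?_⟩⟩
      · rw [← hval t z p1, e1]
      · rw [← hval t z p2, e2]
      · rw [← hval t z p3, e3]
    · rintro ⟨a, b, c, ⟨p1, h1, e1⟩, ⟨p2, h2, e2⟩, ⟨p3, h3, e3⟩⟩
      have b1 := bounds hk hm p.val p.2 t z p1 h1
      have b2 := bounds hk hm p.val p.2 t z p2 h2
      rw [e1] at b1
      rw [e2] at b2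
      simp only at b1 b2
      have v1 := hval t z ⟨p1, h1⟩
      have v2 := hval t z ⟨p2, h2⟩
      have v3 := hval t z ⟨p3, h3⟩
      simp only at v1 v2 v3
      rw [e1, Prod.mk.injEq] at v1
      rw [e2, Prod.mk.injEq] at v2
      rw [e3, Prod.mk.injEq] at v3
      refine ⟨⟨a, by omega⟩, ⟨b, by omega⟩, ⟨c, by omega⟩, ⟨⟨p1, h1⟩, ?_⟩, ⟨⟨p2, h2⟩, ?_⟩,
        ⟨⟨p3, h3⟩, ?_⟩⟩
      · simp only
        rw [e1]
        exact Prod.ext (Fin.ext v1.1) (Fin.ext v1.2)
      · simp only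
        rw [e2]
        exact Prod.ext (Fin.ext v2.1) (Fin.ext v2.2)
      · simp only
        rw [e3]
        exact Prod.ext (Fin.ext v3.1) (Fin.ext v3.2)

theorem card_T (hk : 3 ≤ k) (hm : 4 ^ k ≤ m) :
    (m : ℝ) * k / 2 ≤ (Fintype.card (Fin (M m k) × Fin k) : ℝ) := by
  have hs := small hk
  have h1 : m ≤ 2 * M m k := by
    have : M m k = m - 1 - k * 2 ^ k := rfl
    omega
  have h2 : (m : ℝ) ≤ 2 * (M m k : ℝ) := by exact_mod_cast h1
  rw [Fintype.card_prod, Fintype.card_fin, Fintype.card_fin, Nat.cast_mul]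
  have hk0 : (0 : ℝ) ≤ k := Nat.cast_nonneg k
  nlinarith

theorem card_I (m : ℕ) : ((m : ℝ) - 1) / 2 ≤ ((univ : Finset (Fin m)).card : ℝ) := by
  rw [card_univ, Fintype.card_fin]
  have : (0 : ℝ) ≤ m := Nat.cast_nonneg m
  linarith

theorem formula_bound (hm : 400 ≤ m) (hw : 1 ≤ w) {Ω : Type} [Fintype Ω] (μ : Ω → ℝ)
    (hμ : IsProb μ) (F : Ω → Fml (Fin m) (fun _ => Edge (2 * m)) w (4 * m ^ 2))
    (hF : ApproximatesOn μ (fun ω => (F ω).eval) Simple triangle) :
    (m : ℝ) ^ 2 ≤ 320 * w ^ 2 * expSize μ F := by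
  obtain ⟨k, hk, hk1, hk2⟩ := exists_k hm
  have h := formula_lower μ hμ F Simple triangle hF (Nat.mul_pos (by norm_num)
    (pow_pos (by omega) 2)) hw id univ (T := Fin (M m k) × Fin k)
    (fun p _ => queries (by omega) hk1 p)
  exact arith_formula (by exact_mod_cast hm) (by exact_mod_cast hk) (by exact_mod_cast hw)
    (card_I m) (card_T (by omega) hk1) (logb_q hk (by omega) hk2)
    (sum_nonneg fun ω _ => mul_nonneg (hμ.nonneg ω) (Nat.cast_nonneg _)) h

theorem program_bound (hm : 400 ≤ m) (hw : 1 ≤ w) {Ω : Type} [Fintype Ω] (μ : Ω → ℝ)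
    (hμ : IsProb μ) (s : ℕ) (B : Ω → Program (Fin m) (fun _ => Edge (2 * m)) w (4 * m ^ 2) s)
    (hB : ApproximatesOn μ (fun ω => (B ω).eval) Simple triangle) :
    (m : ℝ) ^ 2 ≤ 900 * w ^ 2 * s := by
  have hw' : (1 : ℝ) ≤ w := by exact_mod_cast hw
  by_cases hs : m ^ 2 ≤ s
  · have h1 : (m : ℝ) ^ 2 ≤ s := by exact_mod_cast hs
    have h2 : (1 : ℝ) ≤ w ^ 2 := by nlinarith
    have h3 : (0 : ℝ) ≤ s := Nat.cast_nonneg s
    nlinarith
  obtain ⟨k, hk, hk1, hk2⟩ := exists_k hm
  have h := program_lower μ hμ B Simple triangle hB (Nat.mul_pos (by norm_num)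
    (pow_pos (by omega) 2)) hw id univ (T := Fin (M m k) × Fin k)
    (fun p _ => queries (by omega) hk1 p)
  exact arith_program (by exact_mod_cast hm) (by exact_mod_cast hk) hw'
    (card_I m) (card_T (by omega) hk1) (logb_q hk (by omega) hk2) (logb_s hk hk2 (by omega))
    (Nat.cast_nonneg s) h

end Pool.Agent.TH457.Ary.Tri
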