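import Pool.Agent.TH457.Ary.Defs

set_option autoImplicit false

/-! # Few subfunctions -/

namespace Pool.Agent.TH457.Ary

open Finset Pool.Agent.TH697.Form Pool.Agent.TH697.Row

variable {ι β : Type} {D : ι → Type} [DecidableEq β] {w q : ℕ}

/-- block `b` from `y`, the other blocks from `z` -/
def merge (blk : ι → β) (b : β) (y z : ∀ i, D i) : ∀ i, D i := fun j => if blk j = b then y j else z j

namespace Test

/-- the test sees an item of block `b` -/
def Sees (blk : ι → β) (b : β) (τ : Test ι D w q) : Prop := ∃ k, blk (τ.item k) = b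

instance (blk : ι → β) (b : β) (τ : Test ι D w q) : Decidable (τ.Sees blk b) := by
  unfold Sees; infer_instance

theorem eval_merge_of_not (blk : ι → β) (b : β) (τ : Test ι D w q) (h : ¬ τ.Sees blk b)
    (y z : ∀ i, D i) : τ.eval (merge blk b y z) = τ.eval z := by
  unfold eval merge
  congr 1
  funext k
  have hk : blk (τ.item k) ≠ b := fun hk => h ⟨k, hk⟩
  simp [hk]

open Classical in
theorem family (blk : ι → β) (b : β) (τ : Test ι D w q) (h : τ.Sees blk b) :
    ∃ S : Finset ((∀ i, D i) → Bool), S.card ≤ q ^ (w - 1) ∧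
      ∀ z : (∀ i, D i), (fun y => τ.eval (merge blk b y z)) ∈ S := by
  obtain ⟨k0, hk0⟩ := h
  refine ⟨(univ : Finset ({k : Fin w // k ≠ k0} → Fin q)).image (fun c => fun y =>
    τ.out (fun k => if blk (τ.item k) = b then τ.view k (y (τ.item k)) else
      if h : k ≠ k0 then c ⟨k, h⟩ else τ.view k (y (τ.item k)))), ?_, fun z => ?_⟩
  · refine card_image_le.trans (le_of_eq ?_)
    rw [card_univ, Fintype.card_fun, Fintype.card_fin]
    congr 1
    rw [Fintype.card_subtype_compl]
    simp
  · rw [mem_image]
    refine ⟨fun k => τ.view k.1 (z (τ.item k.1)), mem_univ _, ?_⟩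
    funext y
    unfold eval merge
    congr 1
    funext k
    by_cases hk : blk (τ.item k) = b
    · simp [hk]
    · have hk1 : k ≠ k0 := by rintro rfl; exact hk hk0
      simp [hk, hk1]

theorem card_sees (blk : ι → β) (I : Finset β) (τ : Test ι D w q) :
    (I.filter (fun b => τ.Sees blk b)).card ≤ w := by
  have h : I.filter (fun b => τ.Sees blk b) ⊆
      (univ : Finset (Fin w)).image (fun k => blk (τ.item k)) := by
    intro b hb
    rw [mem_filter] at hb
    obtain ⟨k, hk⟩ := hb.2
    exact mem_image.2 ⟨k, mem_univ _, hk⟩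
  exact (card_le_card h).trans (card_image_le.trans (by simp))

end Test

/-! ## formulas -/

namespace Fml

/-- The number of leaves which see block `b`. -/
def reads (blk : ι → β) (b : β) : Fml ι D w q → ℕ
  | leaf τ => if τ.Sees blk b then 1 else 0
  | gate _ F G => F.reads blk b + G.reads blk b

theorem eval_merge_of_reads (blk : ι → β) (b : β) (F : Fml ι D w q) (h : F.reads blk b = 0)
    (y z : ∀ i, D i) : F.eval (merge blk b y z) = F.eval z := by
  induction F with
  | leaf τ =>
    have hτ : ¬ τ.Sees blk b := by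
      intro hτ
      simp [reads, hτ] at h
    exact τ.eval_merge_of_not blk b hτ y z
  | gate g a c iha ihc =>
    simp only [reads] at h
    simp only [eval]
    rw [iha (by omega), ihc (by omega)]

theorem sum_reads_le (blk : ι → β) (I : Finset β) (F : Fml ι D w q) :
    ∑ b ∈ I, F.reads blk b ≤ w * F.size := by
  induction F with
  | leaf τ =>
    simp only [reads, size]
    rw [← card_filter, mul_one]
    exact τ.card_sees blk I
  | gate g a c iha ihc =>
    simp only [reads, size, sum_add_distrib]
    rw [mul_add]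
    omega

open Classical in
/-- Few subfunctions. -/
theorem subfunctions_pos (blk : ι → β) (b : β) (F : Fml ι D w q) (h : 1 ≤ F.reads blk b) :
    ∃ S : Finset ((∀ i, D i) → Bool),
      S.card ≤ 4 ^ (2 * F.reads blk b - 1) * (q ^ (w - 1)) ^ F.reads blk b ∧
      ∀ (z : ∀ i, D i) (u : Bool → Bool), (fun y => u (F.eval (merge blk b y z))) ∈ S := by
  induction F with
  | leaf τ =>
    by_cases hτ : τ.Sees blk b
    · obtain ⟨S, hS1, hS2⟩ := τ.family blk b hτ
      refine ⟨((univ : Finset (Bool → Bool)) ×ˢ S).image (fun p => fun y => p.1 (p.2 y)), ?_, ?_⟩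
      · refine card_image_le.trans ?_
        rw [card_product]
        simp only [reads, if_pos hτ, pow_one]
        have e1 : (univ : Finset (Bool → Bool)).card = 4 := by simp
        rw [e1]
        exact Nat.mul_le_mul_left _ hS1
      · intro z u
        rw [mem_image]
        exact ⟨(u, fun y => τ.eval (merge blk b y z)), mem_product.2 ⟨mem_univ _, hS2 z⟩, rfl⟩
    · simp [reads, hτ] at h
  | gate g a c iha ihc =>
    simp only [reads] at h
    by_cases ha : a.reads blk b = 0
    · obtain ⟨S, h1, h2⟩ := ihc (by omega)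
      refine ⟨S, by simpa [reads, ha] using h1, fun z u => ?_⟩
      have := h2 z (fun y => u (g (a.eval z) y))
      simp only [eval, eval_merge_of_reads blk b a ha]
      exact this
    by_cases hc : c.reads blk b = 0
    · obtain ⟨S, h1, h2⟩ := iha (by omega)
      refine ⟨S, by simpa [reads, hc] using h1, fun z u => ?_⟩
      have := h2 z (fun y => u (g y (c.eval z)))
      simp only [eval, eval_merge_of_reads blk b c hc]
      exact this
    obtain ⟨S1, h1, h2⟩ := iha (by omega)
    obtain ⟨S2, h3, h4⟩ := ihc (by omega)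
    refine ⟨((univ : Finset (Bool → Bool)) ×ˢ S1 ×ˢ S2).image
      (fun p => fun y => p.1 (g (p.2.1 y) (p.2.2 y))), ?_, fun z u => ?_⟩
    · refine card_image_le.trans ?_
      rw [card_product, card_product]
      have e1 : (univ : Finset (Bool → Bool)).card = 4 := by simp
      rw [e1]
      calc 4 * (S1.card * S2.card)
          ≤ 4 * ((4 ^ (2 * a.reads blk b - 1) * (q ^ (w - 1)) ^ a.reads blk b) *
              (4 ^ (2 * c.reads blk b - 1) * (q ^ (w - 1)) ^ c.reads blk b)) :=
            Nat.mul_le_mul_left _ (Nat.mul_le_mul h1 h3)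
        _ = (4 * (4 ^ (2 * a.reads blk b - 1) * 4 ^ (2 * c.reads blk b - 1))) *
              (q ^ (w - 1)) ^ (a.reads blk b + c.reads blk b) := by
            rw [pow_add (q ^ (w - 1))]
            ring
        _ = 4 ^ (2 * (Fml.gate g a c).reads blk b - 1) *
              (q ^ (w - 1)) ^ (Fml.gate g a c).reads blk b := by
            rw [← pow_add, ← pow_succ']
            congr 2
            simp only [reads]
            omega
    · rw [mem_image]
      refine ⟨(u, fun y => a.eval (merge blk b y z), fun y => c.eval (merge blk b y z)), ?_, rfl⟩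
      rw [mem_product, mem_product]
      exact ⟨mem_univ _, h2 z id, h4 z id⟩

open Classical in
theorem subfunctions (blk : ι → β) (b : β) (F : Fml ι D w q) :
    ∃ S : Finset ((∀ i, D i) → Bool), S.card ≤ 2 * (16 * q ^ (w - 1)) ^ F.reads blk b ∧
      ∀ z : (∀ i, D i), (fun y => F.eval (merge blk b y z)) ∈ S := by
  by_cases h : F.reads blk b = 0
  · refine ⟨(univ : Finset Bool).image (fun c => fun _ => c), ?_, fun x => ?_⟩
    · refine card_image_le.trans ?_
      simp [h]
    · rw [mem_image]
      refine ⟨F.eval x, mem_univ _, ?_⟩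
      funext y
      exact (eval_merge_of_reads blk b F h y x).symm
  · obtain ⟨S, h1, h2⟩ := subfunctions_pos blk b F (by omega)
    refine ⟨S, h1.trans ?_, fun x => h2 x id⟩
    rw [mul_pow]
    have h3 : 4 ^ (2 * F.reads blk b - 1) ≤ 2 * 16 ^ F.reads blk b := by
      calc 4 ^ (2 * F.reads blk b - 1) ≤ 4 ^ (2 * F.reads blk b) :=
            Nat.pow_le_pow_right (by norm_num) (by omega)
        _ = 16 ^ F.reads blk b := by rw [pow_mul]; norm_num
        _ ≤ 2 * 16 ^ F.reads blk b := by omega
    calc _ ≤ (2 * 16 ^ F.reads blk b) * (q ^ (w - 1)) ^ F.reads blk b :=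
          Nat.mul_le_mul_right _ h3
      _ = _ := by ring

end Fml

/-! ## branching programs -/

namespace BP

/-- The number of nodes which see block `b`. -/
def reads (blk : ι → β) (b : β) : {s : ℕ} → BP ι D w q s → ℕ
  | _, sinks => 0
  | _, node B τ _ _ => B.reads blk b + if τ.Sees blk b then 1 else 0

theorem reads_le (blk : ι → β) (b : β) : ∀ {s : ℕ} (B : BP ι D w q s), B.reads blk b ≤ s
  | _, sinks => by simp [reads]
  | _, node B τ _ _ => by
      have := reads_le blk b B
      simp only [reads]
      split_ifs <;> omega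

theorem sum_reads_le (blk : ι → β) (I : Finset β) :
    ∀ {s : ℕ} (B : BP ι D w q s), ∑ b ∈ I, B.reads blk b ≤ w * s
  | _, sinks => by simp [reads]
  | _, node B τ _ _ => by
      simp only [reads, sum_add_distrib]
      have h1 := sum_reads_le blk I B
      have h2 := τ.card_sees blk I
      rw [card_filter] at h2
      rw [mul_add]
      omega

open Classical in
/-- The functions of block `b` at the nodes belong to a small family. -/
theorem families (blk : ι → β) (b : β) : ∀ {s : ℕ} (B : BP ι D w q s),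
    ∃ 𝒮 : Finset (Fin (B.reads blk b + 2) → (∀ i, D i) → Bool),
      𝒮.card ≤ (s + 2) ^ (2 * B.reads blk b) * (q ^ (w - 1)) ^ B.reads blk b ∧
      ∀ z : (∀ i, D i), ∃ t ∈ 𝒮, ∀ v : Fin (s + 2), ∃ j : Fin (B.reads blk b + 2),
        ∀ y, B.val (merge blk b y z) v = t j y
  | _, sinks => by
      refine ⟨{fun j _ => decide (j = 1)}, ?_, fun x => ⟨_, mem_singleton_self _, ?_⟩⟩
      · rw [card_singleton]
        exact Nat.one_le_iff_ne_zero.2 (by simp [reads])
      intro v
      exact ⟨v, fun d => rfl⟩
  | _, @node _ _ _ _ s B τ no yes => by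
      obtain ⟨𝒮, hcard, hS⟩ := families blk b B
      by_cases hτ : τ.Sees blk b
      · obtain ⟨S1, hS1, hS2⟩ := τ.family blk b hτ
        have hr : (node B τ no yes).reads blk b = B.reads blk b + 1 := by simp [reads, hτ]
        rw [hr]
        refine ⟨((𝒮 ×ˢ (univ : Finset (Fin (B.reads blk b + 2) × Fin (B.reads blk b + 2)))) ×ˢ
          S1).image
          (fun a => Fin.lastCases (motive := fun _ => (∀ i, D i) → Bool)
            (fun y => if a.2 y then a.1.1 a.1.2.1 y else a.1.1 a.1.2.2 y)
            (fun j => a.1.1 j)), ?_, ?_⟩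
        · refine card_image_le.trans ?_
          rw [card_product, card_product, card_univ, Fintype.card_prod, Fintype.card_fin]
          have h1 : B.reads blk b ≤ s := reads_le blk b B
          calc 𝒮.card * ((B.reads blk b + 2) * (B.reads blk b + 2)) * S1.card
              ≤ (((s + 1 + 2) ^ (2 * B.reads blk b) * (q ^ (w - 1)) ^ B.reads blk b) *
                  ((s + 1 + 2) * (s + 1 + 2))) * q ^ (w - 1) := by
                apply Nat.mul_le_mul _ hS1
                apply Nat.mul_le_mul
                · exact hcard.trans (Nat.mul_le_mul_right _ (Nat.pow_le_pow_left (by omega) _))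
                · exact Nat.mul_le_mul (by omega) (by omega)
            _ = (s + 1 + 2) ^ (2 * (B.reads blk b + 1)) *
                  (q ^ (w - 1)) ^ (B.reads blk b + 1) := by
                rw [show 2 * (B.reads blk b + 1) = 2 * B.reads blk b + 2 by ring, pow_add,
                  pow_succ (q ^ (w - 1))]
                ring
        · intro z
          obtain ⟨t, ht, hv⟩ := hS z
          obtain ⟨j1, hj1⟩ := hv yes
          obtain ⟨j2, hj2⟩ := hv no
          refine ⟨_, mem_image.2 ⟨((t, (j1, j2)), fun y => τ.eval (merge blk b y z)),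
            mem_product.2 ⟨mem_product.2 ⟨ht, mem_univ _⟩, hS2 z⟩, rfl⟩, ?_⟩
          intro v
          refine Fin.lastCases ?_ (fun u => ?_) v
          · refine ⟨Fin.last _, fun y => ?_⟩
            simp only [val, Fin.lastCases_last]
            rw [hj1 y, hj2 y]
          · obtain ⟨j, hj⟩ := hv u
            refine ⟨j.castSucc, fun y => ?_⟩
            simp only [val, Fin.lastCases_castSucc]
            exact hj y
      · have hr : (node B τ no yes).reads blk b = B.reads blk b := by simp [reads, hτ]
        rw [hr]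
        refine ⟨𝒮, hcard.trans (Nat.mul_le_mul_right _ (Nat.pow_le_pow_left (by omega) _)),
          fun z => ?_⟩
        obtain ⟨t, ht, hv⟩ := hS z
        refine ⟨t, ht, fun v => ?_⟩
        refine Fin.lastCases ?_ (fun u => ?_) v
        · cases hp : τ.eval z with
          | true =>
            obtain ⟨j, hj⟩ := hv yes
            refine ⟨j, fun y => ?_⟩
            simp only [val, Fin.lastCases_last, τ.eval_merge_of_not blk b hτ, hp, if_true]
            exact hj y
          | false =>
            obtain ⟨j, hj⟩ := hv no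
            refine ⟨j, fun y => ?_⟩
            simp only [val, Fin.lastCases_last, τ.eval_merge_of_not blk b hτ, hp]
            exact hj y
        · obtain ⟨j, hj⟩ := hv u
          refine ⟨j, fun y => ?_⟩
          simp only [val, Fin.lastCases_castSucc]
          exact hj y

open Classical in
/-- Few subfunctions. -/
theorem subfunctions (blk : ι → β) (b : β) {s : ℕ} (B : BP ι D w q s) (v : Fin (s + 2)) :
    ∃ S : Finset ((∀ i, D i) → Bool),
      S.card ≤ (s + 2) ^ (2 * B.reads blk b + 1) * (q ^ (w - 1)) ^ B.reads blk b ∧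
      ∀ z : (∀ i, D i), (fun y => B.val (merge blk b y z) v) ∈ S := by
  obtain ⟨𝒮, hcard, hS⟩ := families blk b B
  refine ⟨(𝒮 ×ˢ (univ : Finset (Fin (B.reads blk b + 2)))).image (fun a => a.1 a.2), ?_, ?_⟩
  · refine card_image_le.trans ?_
    rw [card_product, card_univ, Fintype.card_fin, pow_succ]
    have h1 : B.reads blk b ≤ s := reads_le blk b B
    calc _ ≤ ((s + 2) ^ (2 * B.reads blk b) * (q ^ (w - 1)) ^ B.reads blk b) * (s + 2) :=
          Nat.mul_le_mul hcard (by omega)
      _ = _ := by ring
  · intro z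
    obtain ⟨t, ht, hv⟩ := hS z
    obtain ⟨j, hj⟩ := hv v
    exact mem_image.2 ⟨(t, j), mem_product.2 ⟨ht, mem_univ _⟩, by funext y; exact (hj y).symm⟩

end BP

/-! ## the lower bounds -/

section

variable {T : Type} [Fintype T] {Ω : Type} [Fintype Ω]

/-- The bits of a string `z : T → Bool` which is encoded in the other blocks can be queried by
block `b`. -/
def Queries (T : Type) (blk : ι → β) (P : (∀ i, D i) → Prop) (f : (∀ i, D i) → Bool) (b : β) : Prop :=
  ∃ (r : T → ℕ) (Q : T → (T → Bool) → (∀ i, D i)) (R : (T → Bool) → (∀ i, D i)),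
    (∀ t z z', (∀ s, r s < r t → z s = z' s) → Q t z = Q t z') ∧
    (∀ t z, P (merge blk b (Q t z) (R z))) ∧
    ∀ t z, f (merge blk b (Q t z) (R z)) = z t

open Classical in
theorem gen (μ : Ω → ℝ) (hμ : IsProb μ) (G : Ω → (∀ i, D i) → Bool) (P : (∀ i, D i) → Prop)
    (f : (∀ i, D i) → Bool) (hG : ApproximatesOn μ G P f) (blk : ι → β) (b : β)
    (S : Ω → Finset ((∀ i, D i) → Bool))
    (hS : ∀ ω z, (fun y => G ω (merge blk b y z)) ∈ S ω) (hQ : Queries T blk P f b) :
    (49 / 600 : ℝ) * Fintype.card T * Real.log 2 ≤ ∑ ω, μ ω * Real.log (S ω).card := by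
  obtain ⟨r, Q, R, h1, h2, h3⟩ := hQ
  refine gen_lower_on (ι := Bool) (D := fun _ => ∀ i, D i) μ hμ
    (fun ω x => G ω (merge blk b (x true) (x false)))
    (fun x => P (merge blk b (x true) (x false))) (fun x => f (merge blk b (x true) (x false)))
    (fun x hx => hG _ hx) true S ?_ r Q h1 (fun z _ => R z) ?_ ?_
  · intro ω x
    have := hS ω (x false)
    simpa using this
  · intro t z
    simpa using h2 t z
  · intro t z
    simpa using h3 t z

/-- The lower bound for random formulas. -/
theorem formula_lower (μ : Ω → ℝ) (hμ : IsProb μ) (F : Ω → Fml ι D w q)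
    (P : (∀ i, D i) → Prop) (f : (∀ i, D i) → Bool)
    (hF : ApproximatesOn μ (fun ω => (F ω).eval) P f) (hq : 1 ≤ q) (hw : 1 ≤ w)
    (blk : ι → β) (I : Finset β) (h : ∀ b ∈ I, Queries T blk P f b) :
    (I.card : ℝ) * ((49 / 600 : ℝ) * Fintype.card T - 1) ≤
      w * (4 + (w - 1) * Real.logb 2 q) * expSize μ F := by
  have h6 : (0 : ℝ) < Real.log 2 := Real.log_pos (by norm_num)
  have hlq : 0 ≤ Real.log (q : ℝ) := Real.log_nonneg (by exact_mod_cast hq)
  have hw' : ((w - 1 : ℕ) : ℝ) = (w : ℝ) - 1 := by
    rw [Nat.cast_sub hw, Nat.cast_one]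
  have hw1 : (0 : ℝ) ≤ (w : ℝ) - 1 := by rw [← hw']; positivity
  obtain ⟨c, hc⟩ : ∃ c : ℝ, c = 4 * Real.log 2 + (w - 1) * Real.log q := ⟨_, rfl⟩
  have hc0 : 0 ≤ c := by rw [hc]; positivity
  have h1 : ∀ b ∈ I, (49 / 600 : ℝ) * Fintype.card T * Real.log 2
      ≤ ∑ ω, μ ω * (Real.log 2 + c * ((F ω).reads blk b : ℝ)) := by
    intro b hb
    choose S hS1 hS2 using fun ω => Fml.subfunctions blk b (F ω)
    refine (gen μ hμ (fun ω => (F ω).eval) P f hF blk b S (fun ω z => hS2 ω z) (h b hb)).trans ?_
    apply sum_le_sum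
    intro ω _
    apply mul_le_mul_of_nonneg_left _ (hμ.nonneg ω)
    obtain ⟨-, -, R, -⟩ := h b hb
    have hne : 1 ≤ (S ω).card := card_pos.2 ⟨_, hS2 ω (R (fun _ => false))⟩
    have h2 : ((S ω).card : ℝ) ≤ 2 * (16 * (q : ℝ) ^ (w - 1)) ^ (F ω).reads blk b := by
      exact_mod_cast hS1 ω
    have h4 := Real.log_le_log (by exact_mod_cast hne) h2
    have hq' : (0 : ℝ) < q := by exact_mod_cast hq
    rw [Real.log_mul (by norm_num) (by positivity), Real.log_pow,
      Real.log_mul (by norm_num) (by positivity), Real.log_pow, hw',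
      show (16 : ℝ) = 2 ^ 4 by norm_num, Real.log_pow] at h4
    push_cast at h4
    rw [hc]
    linarith
  have h2 := sum_le_sum h1
  rw [sum_const, nsmul_eq_mul, sum_comm] at h2
  have h3 : ∑ ω, ∑ b ∈ I, μ ω * (Real.log 2 + c * ((F ω).reads blk b : ℝ)) ≤
      I.card * Real.log 2 + c * w * expSize μ F := by
    have e1 : (I.card : ℝ) * Real.log 2 + c * w * expSize μ F =
        ∑ ω, μ ω * (I.card * Real.log 2 + c * w * (F ω).size) := by
      unfold expSize
      simp_rw [mul_add]
      rw [sum_add_distrib, ← sum_mul, hμ.sum_one, one_mul, mul_sum]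
      congr 1
      exact sum_congr rfl fun ω _ => by ring
    rw [e1]
    apply sum_le_sum
    intro ω _
    rw [← mul_sum]
    apply mul_le_mul_of_nonneg_left _ (hμ.nonneg ω)
    rw [sum_add_distrib, sum_const, nsmul_eq_mul, ← mul_sum]
    have h5 : ∑ b ∈ I, ((F ω).reads blk b : ℝ) ≤ w * (F ω).size := by
      exact_mod_cast Fml.sum_reads_le blk I (F ω)
    have h7 := mul_le_mul_of_nonneg_left h5 hc0
    linarith
  have h4 := h2.trans h3
  have h5 : (I.card : ℝ) * ((49 / 600 : ℝ) * Fintype.card T - 1) * Real.log 2 ≤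
      c * w * expSize μ F := by linarith
  have h7 : w * (4 + (w - 1) * Real.logb 2 q) * expSize μ F * Real.log 2 =
      c * w * expSize μ F := by
    rw [hc, Real.logb]
    field_simp
  rw [← h7] at h5
  exact le_of_mul_le_mul_right h5 h6

/-- The lower bound for random branching programs. -/
theorem program_lower (μ : Ω → ℝ) (hμ : IsProb μ) {s : ℕ} (B : Ω → Program ι D w q s)
    (P : (∀ i, D i) → Prop) (f : (∀ i, D i) → Bool)
    (hB : ApproximatesOn μ (fun ω => (B ω).eval) P f) (hq : 1 ≤ q) (hw : 1 ≤ w)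
    (blk : ι → β) (I : Finset β) (h : ∀ b ∈ I, Queries T blk P f b) :
    (I.card : ℝ) * ((49 / 600 : ℝ) * Fintype.card T - Real.logb 2 (s + 2)) ≤
      w * (2 * Real.logb 2 (s + 2) + (w - 1) * Real.logb 2 q) * s := by
  have h6 : (0 : ℝ) < Real.log 2 := Real.log_pos (by norm_num)
  have hlq : 0 ≤ Real.log (q : ℝ) := Real.log_nonneg (by exact_mod_cast hq)
  have hls : 0 ≤ Real.log ((s : ℝ) + 2) := Real.log_nonneg (by
    have : (0 : ℝ) ≤ s := by positivity
    linarith)
  have hw' : ((w - 1 : ℕ) : ℝ) = (w : ℝ) - 1 := by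
    rw [Nat.cast_sub hw, Nat.cast_one]
  have hw1 : (0 : ℝ) ≤ (w : ℝ) - 1 := by rw [← hw']; positivity
  obtain ⟨c, hc⟩ : ∃ c : ℝ, c = 2 * Real.log (s + 2) + (w - 1) * Real.log q := ⟨_, rfl⟩
  have hc0 : 0 ≤ c := by rw [hc]; positivity
  have h1 : ∀ b ∈ I, (49 / 600 : ℝ) * Fintype.card T * Real.log 2
      ≤ ∑ ω, μ ω * (Real.log (s + 2) + c * ((B ω).bp.reads blk b : ℝ)) := by
    intro b hb
    choose S hS1 hS2 using fun ω => BP.subfunctions blk b (B ω).bp (B ω).start
    refine (gen μ hμ (fun ω => (B ω).eval) P f hB blk b S (fun ω z => hS2 ω z) (h b hb)).trans ?_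
    apply sum_le_sum
    intro ω _
    apply mul_le_mul_of_nonneg_left _ (hμ.nonneg ω)
    obtain ⟨-, -, R, -⟩ := h b hb
    have hne : 1 ≤ (S ω).card := card_pos.2 ⟨_, hS2 ω (R (fun _ => false))⟩
    have h2 : ((S ω).card : ℝ) ≤ ((s : ℝ) + 2) ^ (2 * (B ω).bp.reads blk b + 1) *
        ((q : ℝ) ^ (w - 1)) ^ (B ω).bp.reads blk b := by
      have h3 : (S ω).card ≤ (s + 2) ^ (2 * (B ω).bp.reads blk b + 1) *
          (q ^ (w - 1)) ^ (B ω).bp.reads blk b :=
        (hS1 ω).trans (Nat.mul_le_mul_right _
          (Nat.pow_le_pow_left (by have := (B ω).size_le; omega) _))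
      exact_mod_cast h3
    have h4 := Real.log_le_log (by exact_mod_cast hne) h2
    have hq' : (0 : ℝ) < q := by exact_mod_cast hq
    rw [Real.log_mul (by positivity) (by positivity), Real.log_pow, Real.log_pow,
      Real.log_pow, hw'] at h4
    push_cast at h4
    rw [hc]
    linarith
  have h2 := sum_le_sum h1
  rw [sum_const, nsmul_eq_mul, sum_comm] at h2
  have h3 : ∑ ω, ∑ b ∈ I, μ ω * (Real.log (s + 2) + c * ((B ω).bp.reads blk b : ℝ)) ≤
      I.card * Real.log (s + 2) + c * w * s := by
    have e1 : (I.card : ℝ) * Real.log (s + 2) + c * w * s =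
        ∑ ω, μ ω * (I.card * Real.log (s + 2) + c * w * s) := by
      rw [← sum_mul, hμ.sum_one, one_mul]
    rw [e1]
    apply sum_le_sum
    intro ω _
    rw [← mul_sum]
    apply mul_le_mul_of_nonneg_left _ (hμ.nonneg ω)
    rw [sum_add_distrib, sum_const, nsmul_eq_mul, ← mul_sum]
    have h5 : ∑ b ∈ I, ((B ω).bp.reads blk b : ℝ) ≤ w * s := by
      have h8 : ∑ b ∈ I, (B ω).bp.reads blk b ≤ w * s :=
        (BP.sum_reads_le blk I (B ω).bp).trans (Nat.mul_le_mul_left _ (B ω).size_le)
      exact_mod_cast h8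
    have h7 := mul_le_mul_of_nonneg_left h5 hc0
    linarith
  have h4 := h2.trans h3
  have h7 : w * (2 * Real.logb 2 (s + 2) + (w - 1) * Real.logb 2 q) * s * Real.log 2 =
      c * w * s := by
    rw [hc, Real.logb, Real.logb]
    field_simp
  have h8 : (I.card : ℝ) * ((49 / 600 : ℝ) * Fintype.card T - Real.logb 2 (s + 2)) * Real.log 2 =
      I.card * ((49 / 600 : ℝ) * Fintype.card T * Real.log 2) - I.card * Real.log (s + 2) := by
    rw [Real.logb]
    field_simp
  have h5 : (I.card : ℝ) * ((49 / 600 : ℝ) * Fintype.card T - Real.logb 2 (s + 2)) * Real.log 2 ≤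
      w * (2 * Real.logb 2 (s + 2) + (w - 1) * Real.logb 2 q) * s * Real.log 2 := by
    rw [h7, h8]
    linarith
  exact le_of_mul_le_mul_right h5 h6

/-- Queries by one item. -/
theorem queries_of_update [DecidableEq ι] (P : (∀ i, D i) → Prop) (f : (∀ i, D i) → Bool) (i : ι)
    (r : T → ℕ) (q : T → (T → Bool) → D i) (R : (T → Bool) → ∀ i, D i)
    (hq : ∀ t z z', (∀ s, r s < r t → z s = z' s) → q t z = q t z')
    (hP : ∀ t z, P (Function.update (R z) i (q t z)))
    (hf : ∀ t z, f (Function.update (R z) i (q t z)) = z t) : Queries T id P f i := by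
  have key : ∀ t z, merge id i (Function.update (R fun _ => false) i (q t z)) (R z) =
      Function.update (R z) i (q t z) := by
    intro t z
    funext j
    unfold merge
    by_cases hj : j = i
    · subst hj
      simp
    · simp [hj]
  refine ⟨r, fun t z => Function.update (R fun _ => false) i (q t z), R, ?_, ?_, ?_⟩
  · intro t z z' h
    simp only
    rw [hq t z z' h]
  · intro t z
    rw [key]
    exact hP t z
  · intro t z
    rw [key]
    exact hf t z

end

end Pool.Agent.TH457.Ary
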