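import Pool.Agent.TH697.Row.Promise

set_option autoImplicit false

/-! # Formulas and branching programs whose tests see several items of the input -/

namespace Pool.Agent.TH457.Ary

open Finset

/-- A test. The input consists of items `x i`, `i : ι`. A test is an arbitrary Boolean function of
(at most) `w` items, each of which is seen through an arbitrary function with `q` values. If no item
has more than `q` possible values, these are the arbitrary predicates of `w` items. -/
structure Test (ι : Type) (D : ι → Type) (w q : ℕ) where
  /-- the items which are seen -/
  item : Fin w → ι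
  /-- what is seen of them -/
  view : ∀ k, D (item k) → Fin q
  /-- the outcome -/
  out : (Fin w → Fin q) → Bool

/-- The outcome of the test. -/
def Test.eval {ι : Type} {D : ι → Type} {w q : ℕ} (τ : Test ι D w q) (x : ∀ i, D i) : Bool :=
  τ.out (fun k => τ.view k (x (τ.item k)))

/-- Formulas. The leaves are tests, and a gate is an arbitrary function of two bits. -/
inductive Fml (ι : Type) (D : ι → Type) (w q : ℕ) : Type
  | leaf : Test ι D w q → Fml ι D w q
  | gate : (Bool → Bool → Bool) → Fml ι D w q → Fml ι D w q → Fml ι D w q

namespace Fml

variable {ι : Type} {D : ι → Type} {w q : ℕ}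

/-- The value of the formula. -/
def eval : Fml ι D w q → (∀ i, D i) → Bool
  | leaf τ, x => τ.eval x
  | gate g a b, x => g (a.eval x) (b.eval x)

/-- The number of leaves. -/
def size : Fml ι D w q → ℕ
  | leaf _ => 1
  | gate _ a b => a.size + b.size

end Fml

/-- The expected number of leaves of a random formula. -/
def expSize {ι : Type} {D : ι → Type} {w q : ℕ} {Ω : Type} [Fintype Ω] (μ : Ω → ℝ) (F : Ω → Fml ι D w q) : ℝ :=
  ∑ ω, μ ω * ((F ω).size : ℝ)

/-- Branching programs with `s` inner nodes. The nodes are numbered: `0` and `1` are the two sinks,
`2, 3, …, s + 1` are the inner nodes. An inner node is labelled with a test, and its two successors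
are nodes with smaller numbers. -/
inductive BP (ι : Type) (D : ι → Type) (w q : ℕ) : ℕ → Type
  | sinks : BP ι D w q 0
  | node : {s : ℕ} → BP ι D w q s → Test ι D w q → (no yes : Fin (s + 2)) → BP ι D w q (s + 1)

namespace BP

variable {ι : Type} {D : ι → Type} {w q : ℕ}

/-- The value of the sink which is reached from a node (`0` rejects, `1` accepts). -/
def val : {s : ℕ} → BP ι D w q s → (∀ i, D i) → Fin (s + 2) → Bool
  | _, sinks, _, v => decide (v = 1)
  | _, node B τ no yes, x, v =>
      Fin.lastCases (motive := fun _ => Bool) (if τ.eval x then B.val x yes else B.val x no)
        (fun u => B.val x u) v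

end BP

/-- A branching program with at most `s` inner nodes and with a start node. -/
structure Program (ι : Type) (D : ι → Type) (w q s : ℕ) where
  /-- number of inner nodes -/
  size : ℕ
  size_le : size ≤ s
  bp : BP ι D w q size
  start : Fin (size + 2)

/-- The result of the computation. -/
def Program.eval {ι : Type} {D : ι → Type} {w q s : ℕ} (B : Program ι D w q s) (x : ∀ i, D i) : Bool :=
  B.bp.val x B.start

/-- Nondeterministic branching programs: a directed graph (cycles are allowed) with any number of
vertices, any number of unlabelled edges `free`, and `s` edges labelled with tests. A labelled edge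
may be used if its test holds. -/
structure NBP (ι : Type) (D : ι → Type) (w q s : ℕ) where
  V : Type
  start : V
  target : V
  free : V → V → Prop
  src : Fin s → V
  dst : Fin s → V
  test : Fin s → Test ι D w q

/-- The target can be reached from the start. -/
def NBP.Accepts {ι : Type} {D : ι → Type} {w q s : ℕ} (B : NBP ι D w q s) (x : ∀ i, D i) : Prop :=
  Relation.ReflTransGen (fun a b => B.free a b ∨
    ∃ e, B.src e = a ∧ B.dst e = b ∧ (B.test e).eval x = true) B.start B.target

end Pool.Agent.TH457.Ary
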