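import Pool.Agent.TH457.Ary.Core
import Pool.Agent.TH697.Form.ThreeSum

set_option autoImplicit false

/-! # 3SUM with tests of several parts of the input -/

namespace Pool.Agent.TH457.Ary.ThreeSum

open Finset Pool.Agent.TH697.Form Pool.Agent.TH697.Row Pool.Agent.TH697.Form.ThreeSum
open Pool.Agent.TH457.Ary

variable {n b c w : ℕ}

theorem queries (hb : 2 * (b * 2 ^ b) ≤ n) (hn : 400 ≤ n) (i : Fin n) :
    Queries (Fin (n / 2) × Fin b) id (Valid n n) (threeSum n n) (some i) :=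
  queries_of_update (Valid n n) (threeSum n n) (some i) (fun _ => 0)
    (fun t _ => ask n t) enc (fun _ _ _ _ => rfl)
    (fun t z => valid_inp i t z hb (by omega)) (fun t z => threeSum_inp i t z hb)

/-- the parameters -/
theorem params (hn : 400 ≤ n) : ∃ b : ℕ, 2 * (b * 2 ^ b) ≤ n ∧ 8 ≤ Nat.log 2 n ∧
    Nat.log 2 n + 2 ≤ 3 * b := by
  have hlog : 8 ≤ Nat.log 2 n := by
    have := Nat.log_mono_right (b := 2) (show 256 ≤ n by omega)
    rwa [show Nat.log 2 256 = 8 by decide +kernel] at this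
  obtain ⟨b, hb⟩ : ∃ b, b = Nat.log 2 n / 2 := ⟨_, rfl⟩
  have h2b : 2 * b ≤ 2 ^ b := by
    have : ∀ k : ℕ, 2 * (k + 1) ≤ 2 ^ (k + 1) := by
      intro k
      induction k with
      | zero => norm_num
      | succ k ih => rw [pow_succ]; omega
    obtain ⟨k, rfl⟩ : ∃ k, b = k + 1 := ⟨b - 1, by omega⟩
    exact this k
  refine ⟨b, ?_, hlog, by omega⟩
  calc 2 * (b * 2 ^ b) = 2 * b * 2 ^ b := by ring
    _ ≤ 2 ^ b * 2 ^ b := Nat.mul_le_mul_right _ h2b
    _ = 2 ^ (2 * b) := by rw [← pow_add]; congr 1; omega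
    _ ≤ 2 ^ Nat.log 2 n := Nat.pow_le_pow_right (by norm_num) (by omega)
    _ ≤ n := Nat.pow_log_le_self 2 (by omega)

theorem card_T (hn : 400 ≤ n) (hb : Nat.log 2 n + 2 ≤ 3 * b) :
    (n : ℝ) * Nat.log 2 n / 7 ≤ ((Fintype.card (Fin (n / 2) × Fin b) : ℕ) : ℝ) := by
  have e : ((Fintype.card (Fin (n / 2) × Fin b) : ℕ) : ℝ) = ((n / 2 : ℕ) : ℝ) * b := by simp
  rw [e]
  have h3 : (n : ℝ) - 1 ≤ 2 * ((n / 2 : ℕ) : ℝ) := by
    have : n ≤ 2 * (n / 2) + 1 := by omega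
    have : (n : ℝ) ≤ 2 * ((n / 2 : ℕ) : ℝ) + 1 := by exact_mod_cast this
    linarith
  have h4 : (Nat.log 2 n : ℝ) ≤ 3 * b := by
    have : Nat.log 2 n ≤ 3 * b := by omega
    exact_mod_cast this
  have hn' : (400 : ℝ) ≤ n := by exact_mod_cast hn
  have hL : (0 : ℝ) ≤ Nat.log 2 n := Nat.cast_nonneg _
  have e1 : ((n : ℝ) - 1) / 2 ≤ ((n / 2 : ℕ) : ℝ) := by linarith
  have e2 : (Nat.log 2 n : ℝ) / 3 ≤ b := by linarith
  have e3 : ((n : ℝ) - 1) / 2 * (Nat.log 2 n / 3) ≤ ((n / 2 : ℕ) : ℝ) * b :=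
    mul_le_mul e1 e2 (by positivity) (by positivity)
  refine le_trans ?_ e3
  nlinarith

theorem logb_two_pow' (d : ℕ) : Real.logb 2 ((2 : ℝ) ^ d) = d := by
  rw [← Real.rpow_natCast, Real.logb_rpow (by norm_num) (by norm_num)]

theorem logb_n (hn : 1 ≤ n) : Real.logb 2 n ≤ Nat.log 2 n + 1 := by
  have h := Nat.lt_pow_succ_log_self (b := 2) (by norm_num) n
  have h1 : (n : ℝ) ≤ (2 : ℝ) ^ (Nat.log 2 n + 1) := by exact_mod_cast h.le
  have h2 := Real.logb_le_logb_of_le (by norm_num : (1 : ℝ) < 2) (by exact_mod_cast hn) h1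
  rw [logb_two_pow'] at h2
  push_cast at h2
  exact h2

theorem logb_q (hn : 1 ≤ n) (hL : 8 ≤ Nat.log 2 n) :
    Real.logb 2 (((2 * n) ^ c : ℕ) : ℝ) ≤ 4 / 3 * c * Nat.log 2 n := by
  push_cast
  have hn' : (0 : ℝ) < n := by exact_mod_cast hn
  rw [Real.logb_pow, Real.logb_mul (by norm_num) hn'.ne', Real.logb_self_eq_one (by norm_num)]
  have h1 := logb_n hn
  have hL' : (8 : ℝ) ≤ Nat.log 2 n := by exact_mod_cast hL
  have hc : (0 : ℝ) ≤ c := Nat.cast_nonneg c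
  calc (c : ℝ) * (1 + Real.logb 2 n) ≤ c * (4 / 3 * Nat.log 2 n) :=
        mul_le_mul_of_nonneg_left (by linarith) hc
    _ = _ := by ring

/-- the arithmetic for formulas -/
theorem arith_formula {n g c w N L E : ℝ} (hn : 400 ≤ n) (hg : 8 ≤ g) (hc : 1 ≤ c) (hw : 1 ≤ w)
    (hN : n * g / 7 ≤ N) (hL : L ≤ 4 / 3 * c * g) (hE : 0 ≤ E)
    (h : n * (49 / 600 * N - 1) ≤ w * (4 + (w - 1) * L) * E) : n ^ 2 ≤ 200 * c * w ^ 2 * E := by
  have h1 : n * g / 100 ≤ 49 / 600 * N - 1 := by nlinarith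
  have h2 : n * (n * g / 100) ≤ n * (49 / 600 * N - 1) :=
    mul_le_mul_of_nonneg_left h1 (by linarith)
  have h3 : w * (4 + (w - 1) * L) ≤ 4 / 3 * c * g * w ^ 2 := by
    have h4 : (w - 1) * L ≤ (w - 1) * (4 / 3 * c * g) := mul_le_mul_of_nonneg_left hL (by linarith)
    have h5 : 4 ≤ 4 / 3 * c * g := by nlinarith
    calc w * (4 + (w - 1) * L) ≤ w * (4 / 3 * c * g * w) :=
          mul_le_mul_of_nonneg_left (by nlinarith) (by linarith)
      _ = _ := by ring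
  have h4 := mul_le_mul_of_nonneg_right h3 hE
  have h5 : g * n ^ 2 ≤ g * (200 * c * w ^ 2 * E) := by
    have e1 : n * (n * g / 100) = g * n ^ 2 / 100 := by ring
    have e2 : 4 / 3 * c * g * w ^ 2 * E = g * (4 / 3 * c * w ^ 2 * E) := by ring
    rw [e1] at h2
    rw [e2] at h4
    have e3 : 0 ≤ g * (c * w ^ 2 * E) := by positivity
    nlinarith
  exact le_of_mul_le_mul_left h5 (by linarith)

/-- the arithmetic for branching programs -/
theorem arith_program {n g c w N L l s : ℝ} (hn : 400 ≤ n) (hg : 8 ≤ g) (hc : 1 ≤ c) (hw : 1 ≤ w)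
    (hN : n * g / 7 ≤ N) (hL : L ≤ 4 / 3 * c * g) (hl : l ≤ 5 / 2 * g) (hs : 0 ≤ s)
    (h : n * (49 / 600 * N - l) ≤ w * (2 * l + (w - 1) * L) * s) :
    n ^ 2 ≤ 1000 * c * w ^ 2 * s := by
  have h1 : n * g / 200 ≤ 49 / 600 * N - l := by nlinarith
  have h2 : n * (n * g / 200) ≤ n * (49 / 600 * N - l) :=
    mul_le_mul_of_nonneg_left h1 (by linarith)
  have h3 : w * (2 * l + (w - 1) * L) ≤ 5 * c * g * w ^ 2 := by
    have h4 : (w - 1) * L ≤ (w - 1) * (4 / 3 * c * g) := mul_le_mul_of_nonneg_left hL (by linarith)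
    have h5 : 2 * l ≤ 5 * c * g := by nlinarith
    have h6 : 0 ≤ (w - 1) * (c * g) := by
      apply mul_nonneg (by linarith)
      positivity
    calc w * (2 * l + (w - 1) * L) ≤ w * (5 * c * g * w) :=
          mul_le_mul_of_nonneg_left (by nlinarith) (by linarith)
      _ = _ := by ring
  have h4 := mul_le_mul_of_nonneg_right h3 hs
  have h5 : g * n ^ 2 ≤ g * (1000 * c * w ^ 2 * s) := by
    have e1 : n * (n * g / 200) = g * n ^ 2 / 200 := by ring
    have e2 : 5 * c * g * w ^ 2 * s = g * (1000 * c * w ^ 2 * s) / 200 := by ring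
    rw [e1] at h2
    rw [e2] at h4
    linarith
  exact le_of_mul_le_mul_left h5 (by linarith)

theorem logb_s {s : ℕ} (hn : 1 ≤ n) (hL : 8 ≤ Nat.log 2 n) (hs : s < n ^ 2) :
    Real.logb 2 ((s : ℝ) + 2) ≤ 5 / 2 * Nat.log 2 n := by
  have h1 : ((s : ℝ) + 2) ≤ (2 : ℝ) ^ (2 * (Nat.log 2 n + 1)) := by
    have h0 := Nat.lt_pow_succ_log_self (b := 2) (by norm_num) n
    have h2 : (n + 1) ^ 2 ≤ (2 ^ (Nat.log 2 n + 1)) ^ 2 := Nat.pow_le_pow_left (by omega) 2
    have h3 : s + 2 ≤ 2 ^ (2 * (Nat.log 2 n + 1)) := by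
      have h4 : (2 ^ (Nat.log 2 n + 1)) ^ 2 = 2 ^ (2 * (Nat.log 2 n + 1)) := by
        rw [← pow_mul, mul_comm]
      have h5 : (n + 1) ^ 2 = n ^ 2 + 2 * n + 1 := by ring
      omega
    exact_mod_cast h3
  have h4 := Real.logb_le_logb_of_le (by norm_num : (1 : ℝ) < 2) (by positivity) h1
  rw [logb_two_pow'] at h4
  push_cast at h4
  have hL' : (8 : ℝ) ≤ Nat.log 2 n := by exact_mod_cast hL
  linarith

theorem formula_bound (hn : 400 ≤ n) (hc : 1 ≤ c) (hw : 1 ≤ w) {Ω : Type} [Fintype Ω] (μ : Ω → ℝ)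
    (hμ : IsProb μ) (F : Ω → Fml (Option (Fin n)) (Item n n) w ((2 * n) ^ c))
    (hF : ApproximatesOn μ (fun ω => (F ω).eval) (Valid n n) (threeSum n n)) :
    (n : ℝ) ^ 2 ≤ 200 * c * w ^ 2 * expSize μ F := by
  classical
  obtain ⟨b, hb, hL, hb2⟩ := params hn
  have h := formula_lower μ hμ F (Valid n n) (threeSum n n) hF
    (Nat.one_le_pow _ _ (by omega)) hw id
    ((univ : Finset (Fin n)).map Function.Embedding.some) (T := Fin (n / 2) × Fin b) (by
      intro a ha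
      rw [mem_map] at ha
      obtain ⟨i, -, rfl⟩ := ha
      exact queries hb hn i)
  rw [card_map, card_univ, Fintype.card_fin] at h
  exact arith_formula (by exact_mod_cast hn) (by exact_mod_cast hL) (by exact_mod_cast hc)
    (by exact_mod_cast hw) (card_T hn hb2) (logb_q (by omega) hL)
    (sum_nonneg fun ω _ => mul_nonneg (hμ.nonneg ω) (Nat.cast_nonneg _)) h

theorem program_bound (hn : 400 ≤ n) (hc : 1 ≤ c) (hw : 1 ≤ w) {Ω : Type} [Fintype Ω] (μ : Ω → ℝ)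
    (hμ : IsProb μ) (s : ℕ) (B : Ω → Program (Option (Fin n)) (Item n n) w ((2 * n) ^ c) s)
    (hB : ApproximatesOn μ (fun ω => (B ω).eval) (Valid n n) (threeSum n n)) :
    (n : ℝ) ^ 2 ≤ 1000 * c * w ^ 2 * s := by
  classical
  have hw' : (1 : ℝ) ≤ w := by exact_mod_cast hw
  have hc' : (1 : ℝ) ≤ c := by exact_mod_cast hc
  have hs0 : (0 : ℝ) ≤ s := Nat.cast_nonneg s
  by_cases hs : n ^ 2 ≤ s
  · have h1 : (n : ℝ) ^ 2 ≤ s := by exact_mod_cast hs
    have h2 : (1 : ℝ) ≤ w ^ 2 := by nlinarith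
    have h3 : (1 : ℝ) ≤ c * w ^ 2 := by nlinarith
    nlinarith
  obtain ⟨b, hb, hL, hb2⟩ := params hn
  have h := program_lower μ hμ B (Valid n n) (threeSum n n) hB
    (Nat.one_le_pow _ _ (by omega)) hw id
    ((univ : Finset (Fin n)).map Function.Embedding.some) (T := Fin (n / 2) × Fin b) (by
      intro a ha
      rw [mem_map] at ha
      obtain ⟨i, -, rfl⟩ := ha
      exact queries hb hn i)
  rw [card_map, card_univ, Fintype.card_fin] at h
  exact arith_program (by exact_mod_cast hn) (by exact_mod_cast hL) hc' hw' (card_T hn hb2)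
    (logb_q (by omega) hL) (logb_s (by omega) hL (by omega)) hs0 h

end Pool.Agent.TH457.Ary.ThreeSum
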